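import Pool.Agent.Lib.MP_69204b_lc.Stm

/-! The evaluator is computable in polynomial time. -/

namespace RKNP

open HerCo

theorem A1_pf (h9 : S_F9) (h10 : S_F10) (h11 : S_F11) : S_A1 := by
  intro V hV p C c1
  rw [isPolyTime_pair]
  have hx : FP .poly (fun s : List Bool × List Bool => fstS s.1) := by fun_prop
  have hM : FP .poly (fun s : List Bool × List Bool => (sndS s.1).length) := by fun_prop
  have hsz : FP .poly (fun s : List Bool × List Bool => Nat.size (fstS s.1).length) :=
    (h11 .poly).comp (f := fun s : List Bool × List Bool => (fstS s.1).length) (by fun_prop)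
  have hr : FP .poly (fun s : List Bool × List Bool =>
      C * (Nat.size (fstS s.1).length + 1)) := by fun_prop
  have hL : FP .poly (fun s : List Bool × List Bool => 2 * (fstS s.1).length + c1) := by
    fun_prop
  have hq : FP .poly (fun s : List Bool × List Bool => p.eval (fstS s.1).length) := by
    fun_prop
  have hqs : FP .poly (fun s : List Bool × List Bool =>
      qs (sndS s.1).length (C * (Nat.size (fstS s.1).length + 1))
        (2 * (fstS s.1).length + c1) (fstS s.1)) :=
    FP.comp (f := fun s : List Bool × List Bool =>
      (((sndS s.1).length, C * (Nat.size (fstS s.1).length + 1),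
        2 * (fstS s.1).length + c1), fstS s.1))
      ((h9 .poly).1) ((hM.pair (hr.pair hL)).pair hx)
  have h2 : FP .poly (fun s : List Bool × List Bool => s.2) := by fun_prop
  have hpos : FP .poly (fun s : List Bool × List Bool =>
      posQ (qs (sndS s.1).length (C * (Nat.size (fstS s.1).length + 1))
        (2 * (fstS s.1).length + c1) (fstS s.1)) s.2) :=
    FP.comp (f := fun s : List Bool × List Bool =>
      (qs (sndS s.1).length (C * (Nat.size (fstS s.1).length + 1))
        (2 * (fstS s.1).length + c1) (fstS s.1), s.2))
      ((h9 .poly).2) (hqs.pair h2)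
  exact FP.comp (f := fun s : List Bool × List Bool =>
      (((sndS s.1).length, C * (Nat.size (fstS s.1).length + 1),
        2 * (fstS s.1).length + c1), p.eval (fstS s.1).length, fstS s.1,
        posQ (qs (sndS s.1).length (C * (Nat.size (fstS s.1).length + 1))
        (2 * (fstS s.1).length + c1) (fstS s.1)) s.2))
      (h10 V hV) ((hM.pair (hr.pair hL)).pair (hq.pair (hx.pair hpos)))

end RKNP
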