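import Pool.Agent.Lib.MP_69204b_lc.Stm

/-! The generator is computable in quasipolynomial time. -/

namespace RKNP

open HerCo Turing

theorem A2_pf (h1 : S_X1) (h3 : S_X3) (h4 : S_X4) (h7 : S_X7) (h9 : S_F9) (h11 : S_F11) :
    S_A2 := by
  intro C c1
  let E : ℕ → ℕ := fun n => (C * (Nat.size n + 1)) ^ 5
  let G : List Bool × ℕ → List Bool × List (List Bool) := fun p =>
    (dl p.1 ++ List.replicate p.2 true,
      qs p.2 (C * (Nat.size p.1.length + 1)) (2 * p.1.length + c1) p.1)
  have hsz : FP .poly (fun x : List Bool => Nat.size x.length) :=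
    (h11 .poly).comp (f := fun s : List Bool => s.length) (by fun_prop)
  have hE : FP .poly (fun x : List Bool => E x.length) := by
    show FP .poly (fun x : List Bool => (C * (Nat.size x.length + 1)) ^ 5)
    fun_prop
  have hsz2 : FP .poly (fun p : List Bool × ℕ => Nat.size p.1.length) :=
    (h11 .poly).comp (f := fun s : List Bool × ℕ => s.1.length) (by fun_prop)
  have hqs : FP .poly (fun p : List Bool × ℕ =>
      qs p.2 (C * (Nat.size p.1.length + 1)) (2 * p.1.length + c1) p.1) :=
    FP.comp (f := fun p : List Bool × ℕ =>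
      ((p.2, C * (Nat.size p.1.length + 1), 2 * p.1.length + c1), p.1))
      ((h9 .poly).1) (by fun_prop)
  have hG : FP .poly G := by
    refine FP.pair ?_ hqs
    fun_prop
  obtain ⟨k, hk⟩ := h3 _ E G hE hG
  obtain ⟨h, ht⟩ := h1 _ (enc : List Bool × List (List Bool) → List Bool)
    (fun x => G (x, 2 ^ E x.length)) (fun n => (2 ^ E n + n + 2) ^ k) hk
  obtain ⟨c, hc⟩ := h4 k C
  refine ⟨c, ?_⟩
  have hb : (N487b59b3.bitEncode : List Bool × List (List Bool) → List Bool) = enc :=
    funext h7
  unfold ComputableInTime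
  rw [hb]
  refine ⟨h, fun n => ?_⟩
  rw [ht]
  exact hc n

end RKNP
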