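import Pool.Agent.Lib.MP_69204b_lc.Stm

/-! Assembly of the reduction. -/

namespace RKNP

open HerCo

theorem A3_pf (h7 : S_P7) (h8 : S_P8) (ha1 : S_A1) (ha2 : S_A2) : S_A3 := by
  intro L hL U hU
  obtain ⟨p, R, hR, hLR⟩ := hL
  have hV : FP .poly R := (isPolyTime_pair R).1 hR
  obtain ⟨c0, c1, h⟩ := h7 U hU R hV p
  obtain ⟨C, hC⟩ := h8 p c0 c1
  obtain ⟨c, hc⟩ := ha2 C c1
  refine ⟨c, _, _, hc, ha1 R hV p C c1, fun x => ?_⟩
  obtain ⟨e1, e2, e3, e4, e5⟩ := hC x.length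
  have key := h x _ e1 e2 e3 e4 e5
  rw [Bool.eq_iff_iff, hLR x]
  simp only [fstS_dl, sndS_dl, List.length_replicate]
  exact key.symm

end RKNP
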