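import Pool.Agent.Lib.MP_69204b_lc.Defs
import Pool.Agent.Lib.MP_a28c52_lc.Gadget

/-! The functions used by the reduction. All of them are written with combinators for which the
library `HerCo` proves computability (in polynomial time); numbers are coded in unary, therefore
all big numbers and all long lists are truncated with the help of a cap `M` (a big number, given
in unary). -/

namespace RKNP

open HerCo

/-- All strings of length `n`. -/
def strs (n : ℕ) : Finset (List Bool) :=
  Finset.univ.image fun f : Fin n → Bool => List.ofFn f

/-- Sign of a bit. -/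
noncomputable def sg (b : Bool) : ℝ := if b then -1 else 1

/-- The number with binary digits `u` (most significant digit first). -/
def num (u : List Bool) : ℕ := u.foldl (fun n b => 2 * n + (if b then 1 else 0)) 0

/-- The string of the `k` last binary digits of `n` (most significant digit first). -/
def toB : ℕ → ℕ → List Bool
  | 0, _ => []
  | k + 1, n => toB k (n / 2) ++ [decide (n % 2 = 1)]

/-! ### Parameters -/

/-- Length of an index of the code. -/
def ell (r : ℕ) : ℕ := 2 * r + 1

/-- Number of values of the functions of the design. -/
def gg (r : ℕ) : ℕ := 2 * ell r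

/-- Length of the seed. -/
def dd (r : ℕ) : ℕ := r * (ell r * gg r)

/-- Length of a fingerprint. -/
def mm (r : ℕ) : ℕ := 20 * r ^ 3

/-- Length of the seed together with the index `ω` of the fingerprint. -/
def nz (r : ℕ) : ℕ := dd r + ell r * mm r

/-- The cap. -/
def big (r : ℕ) : ℕ := 2 ^ (r ^ 5)

/-! ### Algorithms -/

/-- Truncation. -/
def cap (M n : ℕ) : ℕ := if n ≤ M then n else M

/-- `2 ^ k`, truncated. -/
def pw (M k : ℕ) : ℕ := (fun x => cap M (2 * x))^[k] 1

/-- `num u`, truncated. -/
def numC (M : ℕ) (u : List Bool) : ℕ :=
  u.foldl (fun n b => cap M (2 * n + (if b then 1 else 0))) 0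

/-- Inner product mod 2 of the string `β` and the binary digits of `n` (least significant digit
first). -/
def ip (β : List Bool) (n : ℕ) : Bool :=
  (β.foldl (fun s b => (s.1 / 2, xor s.2 (b && decide (s.1 % 2 = 1)))) (n, false)).2

/-- Value at `a` modulo `p` of the polynomial with the coefficients `u` (Horner scheme). -/
def horner (p a : ℕ) (u : List Bool) : ℕ :=
  u.foldl (fun s b => if p = 0 then 0 else (s * a + (if b then 1 else 0)) % p) 0

/-- Primality test. -/
def isPr (p : ℕ) : Bool :=
  decide (2 ≤ p) && (List.range p).all (fun d => decide (d < 2) || !(decide (p % d = 0)))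

/-- The least prime number which is at least `2 ^ r` (if it is at most `M`). -/
def prm (M r : ℕ) : ℕ :=
  ((List.range (M + 1)).filter (fun p => decide (pw M r ≤ p) && isPr p)).getD 0 0

/-- All strings of length `k`, truncated after `M` strings. -/
def allB (M k : ℕ) : List (List Bool) :=
  (fun L : List (List Bool) => (L.flatMap (fun u => [false :: u, true :: u])).take M)^[k] [[]]

/-- All lists of length `k` of numbers below `g`, truncated after `M` lists. -/
def allF (M g k : ℕ) : List (List ℕ) :=
  (fun L : List (List ℕ) =>
    (L.flatMap (fun c => (List.range g).map (fun b => b :: c))).take M)^[k] [[]]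

/-- Number of positions below `l` where `c` and `c'` agree. -/
def agr (l : ℕ) (c c' : List ℕ) : ℕ :=
  ((List.range l).filter (fun a => decide (c.getD a 0 = c'.getD a 0))).length

/-- One step of the greedy construction of the design. -/
def dsgStep (M g l : ℕ) (D : List (List ℕ)) : List (List ℕ) :=
  D ++ [((allF M g l).filter (fun c =>
    decide ((D.map (fun c' => pw M (agr l c c'))).sum ≤ 2 * D.length))).getD 0 []]

/-- The design: a list of `n` lists of length `l` of numbers below `g`. -/
def dsg (M g l n : ℕ) : List (List ℕ) := (dsgStep M g l)^[n] []

/-- `l / 2 ^ k`. -/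
def hlf (l k : ℕ) : ℕ := (fun m => m / 2)^[k] l

/-- The number of output bits in block `k`. -/
def blk (l k : ℕ) : ℕ := hlf l k - hlf l (k + 1)

/-- The bit with index `ζ` of the code word of `u`. -/
def cbit (M p r : ℕ) (u ζ : List Bool) : Bool :=
  ip (ζ.drop r) (horner p (numC M (ζ.take r)) u)

/-- The bits of the seed `z` at the positions given by the block `k` and the function `c`. -/
def seedAt (r k : ℕ) (c : List ℕ) (z : List Bool) : List Bool :=
  (List.range (ell r)).map
    (fun a => z.getD (k * (ell r * gg r) + (a * gg r + c.getD a 0)) false)

/-- The extractor. -/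
def ext (M r l : ℕ) (x z : List Bool) : List Bool :=
  (List.range r).flatMap (fun k => (List.range (blk l k)).map (fun i =>
    cbit M (prm M r) r x (seedAt r k ((dsg M (gg r) (ell r) l).getD i []) z)))

/-- The fingerprint of length `m` of `u`. -/
def hsh (M r m : ℕ) (u ω : List Bool) : List Bool :=
  (List.range m).map (fun j => cbit M (prm M r) r u ((ω.drop (j * ell r)).take (ell r)))

/-- The query given by the string `w` (seed, index of the fingerprint, fingerprint). -/
def qry (M r l : ℕ) (x w : List Bool) : List Bool :=
  w.take (dd r) ++ (ext M r l x (w.take (dd r)) ++ w.drop (dd r))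

/-- The query for the fingerprint of `u`. -/
def qryU (M r l : ℕ) (x a u : List Bool) : List Bool :=
  qry M r l x (a ++ hsh M r (mm r) u (a.drop (dd r)))

/-- The string `u` survives (`T` is the list of the queries which are answered `true`). -/
def srv (M r l : ℕ) (x : List Bool) (T : List (List Bool)) (u : List Bool) : Bool :=
  decide (7 * (allB M (nz r)).length ≤
    8 * ((allB M (nz r)).filter (fun a => !(decide (qryU M r l x a u ∈ T)))).length)

/-- Breadth first search through the surviving strings. -/
def bfs (M r l : ℕ) (x : List Bool) (T : List (List Bool)) (i : ℕ) : List (List Bool) :=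
  (fun S : List (List Bool) =>
    ((S.flatMap (fun u => [u ++ [false], u ++ [true]])).filter
      (fun u => srv M r l x T u)).take M)^[i] [[]]

/-- The list of all queries. -/
def qs (M r L : ℕ) (x : List Bool) : List (List Bool) :=
  (List.range (L + 1)).flatMap (fun l => (allB M (nz r + mm r)).map (fun w => qry M r l x w))

/-- The elements of `Q` with answer `true`. -/
def posQ (Q : List (List Bool)) (ans : List Bool) : List (List Bool) :=
  ((List.range Q.length).filter (fun i => ans.getD i false)).map (fun i => Q.getD i [])

/-- The decision. -/
def acc (V : List Bool × List Bool → Bool) (M r L q : ℕ) (x : List Bool)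
    (T : List (List Bool)) : Bool :=
  (List.range (L + 1)).any (fun l => (List.range (q + 1)).any (fun i =>
    (bfs M r l x T i).any (fun u => V (x, u))))

/-! ### Headers of programs -/

/-- Header with three numbers. -/
def hdr (r a b : ℕ) : List Bool := dl (List.replicate r true) ++ (dl (toB r a) ++ toB r b)

def h1 (h : List Bool) : ℕ := (fstS h).length
def h2 (h : List Bool) : ℕ := num (fstS (sndS h))
def h3 (h : List Bool) : ℕ := num (sndS (sndS h))

/-- The `j`-th query, for the header `h` (containing `r` and `l`). -/
def qj (q : List Bool × List Bool × ℕ) : List Bool :=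
  qry (big (h1 q.1)) (h1 q.1) (h2 q.1) q.2.1
    ((allB (big (h1 q.1)) (nz (h1 q.1) + mm (h1 q.1))).getD q.2.2 [])

/-- The query for the fingerprint of the beginning of length `i` of `w`, for the header `h`
(containing `r`, `l` and `i`); arguments `(h, x, w, a)`. -/
def qw (q : List Bool × List Bool × List Bool × List Bool) : List Bool :=
  qryU (big (h1 q.1)) (h1 q.1) (h2 q.1) q.2.1 q.2.2.2 (q.2.2.1.take (h3 q.1))

end RKNP
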