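import Pool.Agent.Lib.MP_69204b_lc.Stm

/-! [B1] Raw outputs of machines are computable. -/

namespace RKNP

open HerCo Turing

private theorem b1_setE : Primrec (fun q : List (List Bool) × ℕ × List Bool =>
    setE q.1 q.2.1 q.2.2) := by
  unfold setE
  have hlen : Primrec (fun q : List (List Bool) × ℕ × List Bool =>
      q.1.length + (q.2.1 + 1 - q.1.length)) :=
    Primrec.nat_add.comp (Primrec.list_length.comp Primrec.fst)
      (Primrec.nat_sub.comp (Primrec.succ.comp (Primrec.fst.comp Primrec.snd))
        (Primrec.list_length.comp Primrec.fst))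
  refine Primrec.list_map (Primrec.list_range.comp hlen) ?_
  refine Primrec.ite (Primrec.eq.comp Primrec.snd
    (Primrec.fst.comp (Primrec.snd.comp Primrec.fst)))
    (Primrec.snd.comp (Primrec.snd.comp Primrec.fst)) ?_
  exact (Primrec.list_getD ([] : List Bool)).comp (Primrec.fst.comp Primrec.fst) Primrec.snd

private theorem b1_body : Primrec (fun q : (ℕ × List (List Bool)) × Instr =>
    if q.2.1 = 0 then (q.2.2.2.1, setE q.1.2 q.2.2.1 (false :: q.1.2.getD q.2.2.1 []))
    else if q.2.1 = 1 then (q.2.2.2.1, setE q.1.2 q.2.2.1 (true :: q.1.2.getD q.2.2.1 []))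
    else if q.2.1 = 2 then (q.2.2.2.1, setE q.1.2 q.2.2.1 (q.1.2.getD q.2.2.1 []).tail)
    else if q.2.1 = 3 then
      (listElim (q.1.2.getD q.2.2.1 []) q.2.2.2.1
        (fun b _ => if b then q.2.2.2.2.2 else q.2.2.2.2.1), q.1.2)
    else q.1) := by
  have hop : Primrec (fun q : (ℕ × List (List Bool)) × Instr => q.2.1) :=
    Primrec.fst.comp Primrec.snd
  have hk : Primrec (fun q : (ℕ × List (List Bool)) × Instr => q.2.2.1) :=
    Primrec.fst.comp (Primrec.snd.comp Primrec.snd)
  have ha : Primrec (fun q : (ℕ × List (List Bool)) × Instr => q.2.2.2.1) :=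
    Primrec.fst.comp (Primrec.snd.comp (Primrec.snd.comp Primrec.snd))
  have hb : Primrec (fun q : (ℕ × List (List Bool)) × Instr => q.2.2.2.2.1) :=
    Primrec.fst.comp (Primrec.snd.comp (Primrec.snd.comp (Primrec.snd.comp Primrec.snd)))
  have hc : Primrec (fun q : (ℕ × List (List Bool)) × Instr => q.2.2.2.2.2) :=
    Primrec.snd.comp (Primrec.snd.comp (Primrec.snd.comp (Primrec.snd.comp Primrec.snd)))
  have hs : Primrec (fun q : (ℕ × List (List Bool)) × Instr => q.1.2) :=
    Primrec.snd.comp Primrec.fst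
  have hg : Primrec (fun q : (ℕ × List (List Bool)) × Instr => q.1.2.getD q.2.2.1 []) :=
    (Primrec.list_getD ([] : List Bool)).comp hs hk
  have hset : ∀ f : (ℕ × List (List Bool)) × Instr → List Bool, Primrec f →
      Primrec (fun q : (ℕ × List (List Bool)) × Instr =>
        (q.2.2.2.1, setE q.1.2 q.2.2.1 (f q))) := fun f hf =>
    ha.pair (b1_setE.comp (hs.pair (hk.pair hf)))
  refine Primrec.ite (Primrec.eq.comp hop (Primrec.const 0))
    (hset _ (Primrec.list_cons.comp (Primrec.const false) hg)) ?_
  refine Primrec.ite (Primrec.eq.comp hop (Primrec.const 1))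
    (hset _ (Primrec.list_cons.comp (Primrec.const true) hg)) ?_
  refine Primrec.ite (Primrec.eq.comp hop (Primrec.const 2))
    (hset _ (Primrec.list_tail.comp hg)) ?_
  refine Primrec.ite (Primrec.eq.comp hop (Primrec.const 3)) ?_ Primrec.fst
  refine Primrec.pair ?_ hs
  have h1 : Primrec₂ (fun (q : (ℕ × List (List Bool)) × Instr) (r : Bool × List Bool) =>
      if r.1 then q.2.2.2.2.2 else q.2.2.2.2.1) :=
    Primrec.ite (Primrec.eq.comp (Primrec.fst.comp Primrec.snd) (Primrec.const true))
      (hc.comp Primrec.fst) (hb.comp Primrec.fst)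
  refine (Primrec.list_casesOn hg ha h1).of_eq fun q => ?_
  rcases q.1.2.getD q.2.2.1 [] with _ | ⟨b, l⟩ <;> rfl

private theorem b1_stepL (p : List Instr) : Primrec (stepL p) := by
  unfold stepL
  refine (Primrec.option_casesOn ((Primrec.list_getElem?₁ p).comp Primrec.fst) Primrec.id
    b1_body.to₂).of_eq fun q => ?_
  cases h : p[q.1]? <;> simp [h]

private theorem b1_outL (p : List Instr) :
    Primrec (fun q : List Bool × ℕ => outL p q.2 q.1) := by
  have hit : Primrec (fun q : List Bool × ℕ => (stepL p)^[q.2] (0, [q.1])) :=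
    Primrec.nat_iterate Primrec.snd
      ((Primrec.const 0).pair (Primrec.list_cons.comp Primrec.fst (Primrec.const [])))
      ((b1_stepL p).comp Primrec.snd).to₂
  unfold outL
  refine Primrec.ite ?_ (Primrec.const none) ?_
  · refine PrimrecPred.of_eq (p := fun q : List Bool × ℕ =>
      (p[((stepL p)^[q.2] (0, [q.1])).1]?).isSome = true) ?_ fun q => Iff.rfl
    exact Primrec.eq.comp (Primrec.option_isSome.comp
      ((Primrec.list_getElem?₁ p).comp (Primrec.fst.comp hit))) (Primrec.const true)
  · exact Primrec.option_some.comp ((Primrec.list_getD ([] : List Bool)).comp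
      (Primrec.snd.comp hit) (Primrec.const 0))

private theorem b1_mono (p : List Instr) (x y : List Bool) (m n : ℕ) (hmn : m ≤ n)
    (h : y ∈ outL p m x) : y ∈ outL p n x := by
  obtain ⟨k, rfl⟩ := Nat.exists_eq_add_of_le hmn
  have hfix : (p[((stepL p)^[m] (0, [x])).1]?).isSome = false →
      stepL p ((stepL p)^[m] (0, [x])) = (stepL p)^[m] (0, [x]) := by
    intro h0
    unfold stepL
    have : p[((stepL p)^[m] (0, [x])).1]? = none := by
      simpa using h0
    unfold stepL at this
    rw [this]
    rfl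
  by_cases h0 : (p[((stepL p)^[m] (0, [x])).1]?).isSome = true
  · unfold outL at h
    rw [if_pos h0] at h
    exact absurd h (by simp)
  · have h1 : (stepL p)^[m + k] (0, [x]) = (stepL p)^[m] (0, [x]) := by
      rw [Nat.add_comm, Function.iterate_add_apply]
      exact Function.iterate_fixed (hfix (by simpa using h0)) k
    unfold outL at h ⊢
    rw [h1]
    exact h

theorem B1_pf : S_B1 := by
  intro α _ _ F henc hF
  obtain ⟨p, κ, T, -, -, -, hp⟩ := hF.machine
  have hc : Computable₂ (fun (a : α) (t : ℕ) => outL p t (enc a)) :=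
    ((b1_outL p).to_comp.comp ((henc.comp Computable.fst).pair Computable.snd)).to₂
  refine Partrec.of_eq (Partrec.rfindOpt hc) fun a => ?_
  obtain ⟨t, -, ht⟩ := hp a
  refine Part.eq_some_iff.2 ?_
  rw [Nat.rfindOpt_mono (fun {b m n} hmn hb => b1_mono p (enc a) b m n hmn hb)]
  exact ⟨t, outL_of_halt ht (by simp [ini]) le_rfl⟩

end RKNP
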