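import Pool.Agent.Lib.MP_69204b_lc.Stm

/-! [B2] Codes are computable. -/

namespace RKNP

open HerCo Turing

private lemma b2_dl_eq (l : List Bool) : dl l = l.flatMap (fun b => [true, b]) ++ [false] := by
  induction l with
  | nil => rfl
  | cons b l ih => simp [dl, ih]

private lemma b2_dl : Primrec (dl : List Bool → List Bool) := by
  have h1 : Primrec₂ (fun (_ : List Bool) (b : Bool) => [true, b]) :=
    Primrec.list_cons.comp (Primrec.const true)
      (Primrec.list_cons.comp Primrec.snd (Primrec.const []))
  have h2 : Primrec (fun l : List Bool => l.flatMap (fun b => [true, b]) ++ [false]) :=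
    Primrec.list_append.comp (Primrec.list_flatMap Primrec.id h1) (Primrec.const [false])
  exact h2.of_eq fun l => (b2_dl_eq l).symm

private lemma b2_list_eq (l : List Bool) :
    (enc l : List Bool) = l.flatMap (fun b => dl [b]) := by
  induction l with
  | nil => rfl
  | cons b l ih =>
    have h : (enc (b :: l) : List Bool) = dl [b] ++ enc l := rfl
    rw [h, ih]; rfl

private lemma b2_nat_eq (n : ℕ) :
    (enc n : List Bool) = (List.range n).map (fun _ => true) := by
  have h : (enc n : List Bool) = List.replicate n true := rfl
  rw [h]; simp [List.map_const']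

/-- [B2] -/
theorem B2_pf : S_B2 := by
  refine ⟨⟨?_⟩, ⟨?_⟩, ⟨?_⟩, ?_⟩
  · have h : Primrec (fun b : Bool => [b]) := Primrec.list_cons.comp Primrec.id (Primrec.const [])
    exact h.to_comp
  · have h : Primrec (fun n : ℕ => (List.range n).map (fun _ => true)) :=
      Primrec.list_map Primrec.list_range (Primrec₂.const true)
    exact (h.of_eq fun n => (b2_nat_eq n).symm).to_comp
  · have h1 : Primrec₂ (fun (_ : List Bool) (b : Bool) => dl [b]) :=
      b2_dl.comp (Primrec.list_cons.comp Primrec.snd (Primrec.const []))
    have h : Primrec (fun l : List Bool => l.flatMap (fun b => dl [b])) :=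
      Primrec.list_flatMap Primrec.id h1
    exact (h.of_eq fun l => (b2_list_eq l).symm).to_comp
  · intro α β _ _ _ _ ha hb
    refine ⟨?_⟩
    have h1 : Computable (fun p : α × β => dl (enc p.1 : List Bool)) :=
      b2_dl.to_comp.comp (ha.ce.comp Computable.fst)
    have h2 : Computable (fun p : α × β => (enc p.2 : List Bool)) := hb.ce.comp Computable.snd
    exact Primrec.list_append.to_comp.comp h1 h2

end RKNP
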