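import Pool.Agent.Lib.MP_69204b_lc.Stm

/-! [B3] Typed outputs. -/

namespace RKNP

open HerCo Turing

theorem B3_pf (h1 : S_B1) : S_B3 := by
  intro α _ _ hce
  have hraw : ∀ g : α → List Bool, Cp .any (enc : α → List Bool) g → Computable g :=
    fun g h => h1 α g hce.ce h
  refine ⟨fun f hf => hraw f ((Cp.reindex Cp.encToRaw f).comp hf), fun f hf => ?_,
    fun f hf => ?_⟩
  · have h2 : Computable (fun a => List.replicate (f a) true) := hraw _ hf
    exact (Primrec.list_length.to_comp.comp h2).of_eq fun a => List.length_replicate
  · have h2 : Computable (fun a => [f a]) := hraw _ hf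
    exact (Primrec.list_headI.to_comp.comp h2).of_eq fun a => rfl

end RKNP
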