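import Pool.Agent.Lib.MP_69204b_lc.Alg

/-! Basic facts on strings of a given length and on binary numbers. -/

namespace RKNP

open HerCo

theorem mem_strs {n : ℕ} {u : List Bool} : u ∈ strs n ↔ u.length = n := by
  unfold strs
  rw [Finset.mem_image]
  constructor
  · rintro ⟨f, _, rfl⟩
    simp
  · rintro rfl
    exact ⟨u.get, Finset.mem_univ _, List.ofFn_get u⟩

theorem sum_strs_fn {A : Type*} [AddCommMonoid A] (n : ℕ) (F : List Bool → A) :
    ∑ u ∈ strs n, F u = ∑ f : Fin n → Bool, F (List.ofFn f) := by
  unfold strs
  rw [Finset.sum_image]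
  intro f _ g _ h
  exact List.ofFn_injective h

theorem card_strs (n : ℕ) : (strs n).card = 2 ^ n := by
  unfold strs
  rw [Finset.card_image_of_injective _ List.ofFn_injective]
  simp

theorem strs_zero : strs 0 = {[]} := by
  ext u
  rw [mem_strs, Finset.mem_singleton, List.length_eq_zero_iff]

theorem sum_strs_add {A : Type*} [AddCommMonoid A] (a b : ℕ) (F : List Bool → A) :
    ∑ u ∈ strs (a + b), F u = ∑ v ∈ strs a, ∑ w ∈ strs b, F (v ++ w) := by
  rw [← Finset.sum_product']
  symm
  refine Finset.sum_nbij' (fun p => p.1 ++ p.2) (fun u => (u.take a, u.drop a)) ?_ ?_ ?_ ?_ ?_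
  · rintro ⟨v, w⟩ h
    rw [Finset.mem_product, mem_strs, mem_strs] at h
    rw [mem_strs, List.length_append, h.1, h.2]
  · intro u h
    rw [mem_strs] at h
    rw [Finset.mem_product, mem_strs, mem_strs]
    constructor
    · rw [List.length_take]; omega
    · rw [List.length_drop]; omega
  · rintro ⟨v, w⟩ h
    rw [Finset.mem_product, mem_strs, mem_strs] at h
    simp [← h.1]
  · intro u h
    simp
  · rintro ⟨v, w⟩ h
    rfl

theorem sum_strs_cons {A : Type*} [AddCommMonoid A] (n : ℕ) (F : List Bool → A) :
    ∑ u ∈ strs (n + 1), F u = ∑ v ∈ strs n, (F (false :: v) + F (true :: v)) := by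
  rw [Nat.add_comm, sum_strs_add, Finset.sum_comm]
  refine Finset.sum_congr rfl fun v _ => ?_
  rw [sum_strs_fn 1]
  rw [← Equiv.sum_comp (Equiv.funUnique (Fin 1) Bool).symm]
  rw [Fintype.sum_bool, add_comm]
  rfl

theorem sum_strs_snoc {A : Type*} [AddCommMonoid A] (n : ℕ) (F : List Bool → A) :
    ∑ u ∈ strs (n + 1), F u = ∑ v ∈ strs n, (F (v ++ [false]) + F (v ++ [true])) := by
  rw [sum_strs_add]
  refine Finset.sum_congr rfl fun v _ => ?_
  rw [sum_strs_fn 1]
  rw [← Equiv.sum_comp (Equiv.funUnique (Fin 1) Bool).symm]
  rw [Fintype.sum_bool, add_comm]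
  rfl

/-- Counting with a predicate as a sum. -/
theorem card_filter_strs (n : ℕ) (P : List Bool → Prop) [DecidablePred P] :
    (((strs n).filter P).card : ℝ) = ∑ u ∈ strs n, if P u then (1 : ℝ) else 0 := by
  rw [Finset.card_filter]
  push_cast
  rfl

theorem num_nil : num [] = 0 := rfl

theorem num_snoc (u : List Bool) (b : Bool) :
    num (u ++ [b]) = 2 * num u + (if b then 1 else 0) := by
  unfold num
  rw [List.foldl_append]
  rfl

theorem num_append (u v : List Bool) : num (u ++ v) = num u * 2 ^ v.length + num v := by
  induction v using List.reverseRecOn with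
  | nil => simp [num_nil]
  | append_singleton v b ih =>
    rw [← List.append_assoc, num_snoc, ih, num_snoc, List.length_append, List.length_singleton,
      pow_succ]
    ring

theorem num_lt (u : List Bool) : num u < 2 ^ u.length := by
  induction u using List.reverseRecOn with
  | nil => simp [num_nil]
  | append_singleton u b ih =>
    rw [num_snoc, List.length_append, List.length_singleton, pow_succ]
    cases b <;> simp <;> omega

theorem num_inj {u v : List Bool} (hl : u.length = v.length) (h : num u = num v) : u = v := by
  induction u using List.reverseRecOn generalizing v with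
  | nil => exact (List.length_eq_zero_iff.1 hl.symm).symm
  | append_singleton u b ih =>
    rcases List.eq_nil_or_concat v with rfl | ⟨v, c, rfl⟩
    · simp at hl
    · rw [List.concat_eq_append] at h hl ⊢
      rw [num_snoc, num_snoc] at h
      simp only [List.length_append, List.length_singleton] at hl
      have h1 : b = c := by cases b <;> cases c <;> simp at h ⊢ <;> omega
      subst h1
      have h2 : num u = num v := by omega
      rw [ih (by omega) h2]

theorem length_toB (k n : ℕ) : (toB k n).length = k := by
  induction k generalizing n with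
  | zero => rfl
  | succ k ih => simp [toB, ih]

theorem num_toB (k n : ℕ) (h : n < 2 ^ k) : num (toB k n) = n := by
  induction k generalizing n with
  | zero => simp at h; subst h; rfl
  | succ k ih =>
    rw [toB, num_snoc, ih _ (by rw [pow_succ] at h; omega)]
    rcases Nat.mod_two_eq_zero_or_one n with h1 | h1 <;> simp [h1] <;> omega

theorem toB_num (u : List Bool) : toB u.length (num u) = u :=
  num_inj (length_toB _ _) (num_toB _ _ (num_lt u))

theorem length_hdr (r a b : ℕ) : (hdr r a b).length = 5 * r + 2 := by
  unfold hdr
  simp only [List.length_append, length_dl, List.length_replicate, length_toB]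
  ring

theorem h1_hdr (r a b : ℕ) : h1 (hdr r a b) = r := by
  unfold h1 hdr; simp

theorem h2_hdr {r a : ℕ} (b : ℕ) (ha : a < 2 ^ r) : h2 (hdr r a b) = a := by
  unfold h2 hdr; simp [num_toB r a ha]

theorem h3_hdr {r b : ℕ} (a : ℕ) (hb : b < 2 ^ r) : h3 (hdr r a b) = b := by
  unfold h3 hdr; simp [num_toB r b hb]

theorem hlf_eq (l k : ℕ) : hlf l k = l / 2 ^ k := by
  unfold hlf
  induction k with
  | zero => simp
  | succ k ih => rw [Function.iterate_succ_apply', ih, Nat.div_div_eq_div_mul, pow_succ]

theorem pw_eq {M k : ℕ} (h : 2 ^ k ≤ M) : pw M k = 2 ^ k := by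
  unfold pw
  induction k with
  | zero => simp
  | succ k ih =>
    rw [Function.iterate_succ_apply', ih (by rw [pow_succ] at h; omega), cap, if_pos, pow_succ,
      mul_comm]
    rw [pow_succ] at h; omega

theorem numC_eq {M : ℕ} {u : List Bool} (h : 2 ^ u.length ≤ M) : numC M u = num u := by
  induction u using List.reverseRecOn with
  | nil => rfl
  | append_singleton u b ih =>
    have h1 := num_lt (u ++ [b])
    have h2 : 2 ^ u.length ≤ M := by
      rw [List.length_append, List.length_singleton, pow_succ] at h; omega
    have h3 : numC M (u ++ [b]) = cap M (2 * numC M u + (if b then 1 else 0)) := by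
      unfold numC
      rw [List.foldl_append]
      rfl
    rw [h3, ih h2, ← num_snoc, cap, if_pos (by omega)]

theorem allB_succ (M k : ℕ) :
    allB M (k + 1) = ((allB M k).flatMap (fun u => [false :: u, true :: u])).take M := by
  unfold allB
  rw [Function.iterate_succ_apply']

theorem nodup_flatMap_bits (L : List (List Bool)) (h : L.Nodup) :
    (L.flatMap (fun u => [false :: u, true :: u])).Nodup := by
  induction L with
  | nil => simp
  | cons a L ih =>
    rw [List.nodup_cons] at h
    rw [List.flatMap_cons]
    refine List.Nodup.append (by simp) (ih h.2) ?_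
    intro v hv hv'
    rw [List.mem_flatMap] at hv'
    obtain ⟨u, hu, hu'⟩ := hv'
    simp only [List.mem_cons, List.not_mem_nil, or_false] at hv hu'
    rcases hv with rfl | rfl <;> rcases hu' with h1 | h1 <;> simp at h1 <;>
      exact h.1 (h1 ▸ hu)

theorem length_flatMap_bits (L : List (List Bool)) :
    (L.flatMap (fun u => [false :: u, true :: u])).length = 2 * L.length := by
  induction L with
  | nil => simp
  | cons a L ih => rw [List.flatMap_cons, List.length_append, ih]; simp; ring

theorem allB_spec {M k : ℕ} (h : 2 ^ k ≤ M) :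
    (allB M k).Nodup ∧ (allB M k).length = 2 ^ k ∧ ∀ u, u ∈ allB M k ↔ u.length = k := by
  induction k with
  | zero =>
    refine ⟨by simp [allB], by simp [allB], fun u => ?_⟩
    simp [allB]
  | succ k ih =>
    obtain ⟨h1, h2, h3⟩ := ih (by rw [pow_succ] at h; omega)
    have h4 := length_flatMap_bits (allB M k)
    have h5 : allB M (k + 1) = (allB M k).flatMap (fun u => [false :: u, true :: u]) := by
      rw [allB_succ, List.take_of_length_le]
      rw [h4, h2, ← pow_succ']
      exact h
    rw [h5]
    refine ⟨nodup_flatMap_bits _ h1, by rw [h4, h2, pow_succ'], fun u => ?_⟩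
    rw [List.mem_flatMap]
    constructor
    · rintro ⟨v, hv, hu⟩
      rw [h3] at hv
      simp only [List.mem_cons, List.not_mem_nil, or_false] at hu
      rcases hu with rfl | rfl <;> simp [hv]
    · intro hu
      rcases u with _ | ⟨b, v⟩
      · simp at hu
      · refine ⟨v, (h3 v).2 (by simpa using hu), ?_⟩
        cases b <;> simp

theorem toFinset_allB {M k : ℕ} (h : 2 ^ k ≤ M) : (allB M k).toFinset = strs k := by
  ext u
  rw [List.mem_toFinset, (allB_spec h).2.2, mem_strs]

theorem length_filter_allB {M k : ℕ} (h : 2 ^ k ≤ M) (P : List Bool → Bool) :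
    ((allB M k).filter P).length = ((strs k).filter (fun u => P u = true)).card := by
  rw [← toFinset_allB h, ← List.toFinset_filter,
    List.toFinset_card_of_nodup ((allB_spec h).1.filter _)]

theorem sg_mul_self (b : Bool) : sg b * sg b = 1 := by cases b <;> simp [sg]

theorem abs_sg (b : Bool) : |sg b| = 1 := by cases b <;> simp [sg]

theorem sg_xor (a b : Bool) : sg (xor a b) = sg a * sg b := by
  cases a <;> cases b <;> simp [sg]

end RKNP
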