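import Pool.Agent.Lib.MP_69204b_lc.Stm

/-! The prime number. -/

namespace RKNP

open HerCo Function

theorem isPr_iff (p : ℕ) : isPr p = true ↔ p.Prime := by
  unfold isPr
  rw [Bool.and_eq_true, decide_eq_true_eq, List.all_eq_true]
  constructor
  · rintro ⟨h1, h2⟩
    rw [Nat.prime_def_lt']
    refine ⟨h1, fun m hm hmp hd => ?_⟩
    have h3 := h2 m (List.mem_range.2 hmp)
    rw [Bool.or_eq_true, decide_eq_true_eq, Bool.not_eq_true', decide_eq_false_iff_not] at h3
    rcases h3 with h3 | h3
    · omega
    · exact h3 (Nat.mod_eq_zero_of_dvd hd)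
  · intro hp
    rw [Nat.prime_def_lt'] at hp
    refine ⟨hp.1, fun m hm => ?_⟩
    rw [List.mem_range] at hm
    rw [Bool.or_eq_true, decide_eq_true_eq, Bool.not_eq_true', decide_eq_false_iff_not]
    by_cases h : m < 2
    · exact .inl h
    · right
      intro h0
      exact hp.2 m (by omega) hm (Nat.dvd_of_mod_eq_zero h0)

theorem getD_filter_range_le (N : ℕ) (P : ℕ → Bool) (q : ℕ) (hq : q < N) (hP : P q = true) :
    P (((List.range N).filter P).getD 0 0) = true ∧ ((List.range N).filter P).getD 0 0 ≤ q := by
  induction N generalizing q with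
  | zero => omega
  | succ N ih =>
    rw [List.range_succ, List.filter_append]
    by_cases h : ∃ q' < N, P q' = true ∧ q' ≤ q
    · obtain ⟨q', h1, h2, h3⟩ := h
      obtain ⟨h4, h5⟩ := ih q' h1 h2
      have hne : ((List.range N).filter P) ≠ [] := by
        intro h0
        have : q' ∈ (List.range N).filter P := List.mem_filter.2 ⟨List.mem_range.2 h1, h2⟩
        rw [h0] at this
        cases this
      have hlen : 0 < ((List.range N).filter P).length := List.length_pos_iff.2 hne
      rw [List.getD_append _ _ _ _ hlen]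
      exact ⟨h4, h5.trans h3⟩
    · have hqN : q = N := by
        by_contra h1
        exact h ⟨q, by omega, hP, le_rfl⟩
      subst hqN
      have h0 : (List.range q).filter P = [] := by
        rw [List.filter_eq_nil_iff]
        intro a ha hPa
        rw [List.mem_range] at ha
        exact h ⟨a, ha, hPa, ha.le⟩
      rw [h0]
      simp [hP]

theorem prm_pf : S_prm := by
  intro M r hM
  have hM2 : 2 ^ r ≤ M := by
    rw [pow_succ] at hM
    omega
  obtain ⟨q, hq1, hq2, hq3⟩ := Nat.exists_prime_lt_and_le_two_mul (2 ^ r) (by positivity)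
  have hq4 : q ≤ 2 ^ (r + 1) := by rw [pow_succ]; omega
  have h := getD_filter_range_le (M + 1) (fun p => decide (pw M r ≤ p) && isPr p) q
    (by omega) (by
      simp only [Bool.and_eq_true, decide_eq_true_eq]
      rw [pw_eq hM2]
      exact ⟨hq2.le, (isPr_iff q).2 hq1⟩)
  simp only [Bool.and_eq_true, decide_eq_true_eq] at h
  rw [pw_eq hM2] at h
  unfold prm
  rw [pw_eq hM2]
  exact ⟨(isPr_iff _).1 h.1.2, h.1.1, h.2.trans hq4⟩

end RKNP
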