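import Pool.Agent.Lib.MP_69204b_lc.Stm

/-! Orthogonality of the Hadamard code. -/

namespace RKNP

open HerCo Function

theorem ip_foldl (β : List Bool) : ∀ (n : ℕ) (c : Bool),
    (β.foldl (fun s b => (s.1 / 2, xor s.2 (b && decide (s.1 % 2 = 1)))) (n, c)).2
      = xor c (ip β n) := by
  induction β with
  | nil => intro n c; simp [ip]
  | cons b β ih =>
    intro n c
    unfold ip
    rw [List.foldl_cons, List.foldl_cons]
    simp only
    rw [ih, ih]
    simp

theorem ip_cons (b : Bool) (β : List Bool) (n : ℕ) :
    ip (b :: β) n = xor (b && decide (n % 2 = 1)) (ip β (n / 2)) := by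
  have h : ip (b :: β) n = (β.foldl (fun s b => (s.1 / 2, xor s.2
    (b && decide (s.1 % 2 = 1)))) (n / 2, xor false (b && decide (n % 2 = 1)))).2 := rfl
  rw [h, ip_foldl]
  simp

theorem ip_pf : S_ip := by
  intro k
  induction k with
  | zero =>
    intro n n' hn hn'
    have h1 : n = 0 := by simpa using hn
    have h2 : n' = 0 := by simpa using hn'
    subst h1 h2
    rw [strs_zero, Finset.sum_singleton]
    simp [ip, sg]
  | succ k ih =>
    intro n n' hn hn'
    have hn2 : n / 2 < 2 ^ k := by rw [pow_succ] at hn; omega
    have hn2' : n' / 2 < 2 ^ k := by rw [pow_succ] at hn'; omega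
    rw [sum_strs_cons]
    have h1 : ∀ β ∈ strs k, sg (ip (false :: β) n) * sg (ip (false :: β) n') +
        sg (ip (true :: β) n) * sg (ip (true :: β) n') =
        (1 + sg (decide (n % 2 = 1)) * sg (decide (n' % 2 = 1))) *
          (sg (ip β (n / 2)) * sg (ip β (n' / 2))) := by
      intro β _
      rw [ip_cons, ip_cons, ip_cons, ip_cons]
      simp only [Bool.false_and, Bool.true_and, Bool.false_xor, sg_xor]
      ring
    rw [Finset.sum_congr rfl h1, ← Finset.mul_sum, ih _ _ hn2 hn2']
    rcases Nat.mod_two_eq_zero_or_one n with h2 | h2 <;>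
      rcases Nat.mod_two_eq_zero_or_one n' with h3 | h3 <;>
      by_cases h4 : n / 2 = n' / 2
    · have : n = n' := by omega
      subst this
      simp [h2, sg, pow_succ]; ring
    · have : n ≠ n' := by omega
      simp [h4, this]
    · have : n ≠ n' := by omega
      simp [h2, h3, this, sg]
    · have : n ≠ n' := by omega
      simp [h4, this]
    · have : n ≠ n' := by omega
      simp [h2, h3, this, sg]
    · have : n ≠ n' := by omega
      simp [h4, this]
    · have : n = n' := by omega
      subst this
      simp [h2, sg, pow_succ]; ring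
    · have : n ≠ n' := by omega
      simp [h4, this]

end RKNP
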