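import Pool.Agent.Lib.MP_69204b_lc.Stm

/-! Different polynomials agree on few points. -/

namespace RKNP

open HerCo Function Polynomial

theorem horner_snoc (p a : ℕ) (hp : 0 < p) (u : List Bool) (b : Bool) :
    horner p a (u ++ [b]) = (horner p a u * a + (if b then 1 else 0)) % p := by
  unfold horner
  rw [List.foldl_append]
  simp only [List.foldl_cons, List.foldl_nil]
  rw [if_neg hp.ne']

theorem horner_lt_pf : S_horner_lt := by
  intro p a u hp
  rcases List.eq_nil_or_concat u with rfl | ⟨v, c, rfl⟩
  · simpa [horner] using hp
  · rw [List.concat_eq_append, horner_snoc p a hp]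
    exact Nat.mod_lt _ hp

/-- The polynomial with the coefficients `u`. -/
noncomputable def hpol (p : ℕ) (u : List Bool) : (ZMod p)[X] :=
  u.foldl (fun P b => P * X + C (if b then 1 else 0)) 0

theorem hpol_snoc (p : ℕ) (u : List Bool) (b : Bool) :
    hpol p (u ++ [b]) = hpol p u * X + C (if b then 1 else 0) := by
  unfold hpol
  rw [List.foldl_append]
  rfl

theorem hpol_eval (p a : ℕ) (hp : 0 < p) (u : List Bool) :
    (hpol p u).eval (a : ZMod p) = (horner p a u : ZMod p) := by
  induction u using List.reverseRecOn with
  | nil => simp [hpol, horner]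
  | append_singleton u b ih =>
    rw [hpol_snoc, horner_snoc p a hp, eval_add, eval_mul, eval_X, eval_C, ih, ZMod.natCast_mod]
    cases b <;> simp

theorem hpol_degree (p : ℕ) [Fact p.Prime] (u : List Bool) :
    (hpol p u).degree < (u.length : WithBot ℕ) := by
  induction u using List.reverseRecOn with
  | nil => simp [hpol]
  | append_singleton u b ih =>
    rw [hpol_snoc, List.length_append, List.length_singleton]
    refine lt_of_le_of_lt (degree_add_le _ _) ?_
    rw [max_lt_iff]
    constructor
    · rw [degree_mul, degree_X]
      push_cast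
      by_cases h : hpol p u = 0
      · rw [h]; simp
      · rw [degree_eq_natDegree h] at ih ⊢
        have h1 : (hpol p u).natDegree < u.length := by exact_mod_cast ih
        have h2 : (hpol p u).natDegree + 1 < u.length + 1 := by omega
        exact_mod_cast h2
    · refine lt_of_le_of_lt degree_C_le ?_
      exact_mod_cast Nat.succ_pos _

theorem hpol_inj (p : ℕ) [Fact p.Prime] {u v : List Bool} (hl : u.length = v.length)
    (h : hpol p u = hpol p v) : u = v := by
  induction u using List.reverseRecOn generalizing v with
  | nil => exact (List.length_eq_zero_iff.1 hl.symm).symm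
  | append_singleton u b ih =>
    rcases List.eq_nil_or_concat v with rfl | ⟨v, c, rfl⟩
    · simp at hl
    · rw [List.concat_eq_append] at h hl ⊢
      rw [hpol_snoc, hpol_snoc] at h
      simp only [List.length_append, List.length_singleton] at hl
      have h0 := congrArg (fun P => P.coeff 0) h
      simp only [coeff_add, mul_coeff_zero, coeff_X_zero, mul_zero, coeff_C_zero, zero_add] at h0
      have h1 : b = c := by cases b <;> cases c <;> simp at h0 ⊢
      subst h1
      have h2 : hpol p u * X = hpol p v * X := add_right_cancel h
      have h3 : hpol p u = hpol p v := mul_right_cancel₀ X_ne_zero h2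
      rw [ih (by omega) h3]

theorem horner_pf : S_horner := by
  intro p r i u u' hp hr hu hu' hne
  have : Fact p.Prime := ⟨hp⟩
  have hD : hpol p u - hpol p u' ≠ 0 := by
    intro h
    exact hne (hpol_inj p (by rw [hu, hu']) (sub_eq_zero.1 h))
  have hdeg : (hpol p u - hpol p u').natDegree < i := by
    have h1 : (hpol p u - hpol p u').degree < (i : WithBot ℕ) := by
      refine lt_of_le_of_lt (degree_sub_le _ _) ?_
      rw [max_lt_iff]
      have h2 := hpol_degree p u
      have h3 := hpol_degree p u'
      rw [hu] at h2
      rw [hu'] at h3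
      exact ⟨h2, h3⟩
    rw [degree_eq_natDegree hD] at h1
    exact_mod_cast h1
  have hcard : (hpol p u - hpol p u').roots.toFinset.card ≤ i :=
    (Multiset.toFinset_card_le _).trans ((card_roots' _).trans hdeg.le)
  refine le_trans (Finset.card_le_card_of_injOn (fun a => (num a : ZMod p)) ?_ ?_) hcard
  · intro a ha
    rw [Finset.mem_coe, Finset.mem_filter] at ha
    rw [Finset.mem_coe, Multiset.mem_toFinset, mem_roots hD, IsRoot.def, eval_sub,
      hpol_eval p _ hp.pos, hpol_eval p _ hp.pos, ha.2, sub_self]
  · intro a ha b hb hab
    rw [Finset.mem_coe, Finset.mem_filter, mem_strs] at ha hb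
    have h1 := num_lt a
    have h2 := num_lt b
    rw [ha.1] at h1
    rw [hb.1] at h2
    have h3 : num a % p = num b % p := (ZMod.natCast_eq_natCast_iff' _ _ _).1 hab
    rw [Nat.mod_eq_of_lt (by omega), Nat.mod_eq_of_lt (by omega)] at h3
    exact num_inj (by rw [ha.1, hb.1]) h3

end RKNP
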