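import Pool.Agent.Lib.MP_69204b_lc.Stm

/-! Different code words are nearly orthogonal. -/

namespace RKNP

open HerCo Function

theorem corr_pf (hprm : S_prm) (hip : S_ip) (hh : S_horner) (hlt : S_horner_lt) : S_corr := by
  intro M r i u u' hM hu hu' hne
  obtain ⟨hp, hp1, hp2⟩ := hprm M r hM
  have hM2 : 2 ^ r ≤ M := by rw [pow_succ] at hM; omega
  generalize prm M r = p at hp hp1 hp2
  have e : ell r = r + (r + 1) := by unfold ell; ring
  have key : ∑ ζ ∈ strs (ell r), sg (cbit M p r u ζ) * sg (cbit M p r u' ζ) =
      (((strs r).filter (fun a => horner p (num a) u = horner p (num a) u')).card : ℝ)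
        * 2 ^ (r + 1) := by
    rw [e, sum_strs_add, card_filter_strs, Finset.sum_mul]
    refine Finset.sum_congr rfl fun a ha => ?_
    rw [mem_strs] at ha
    have h1 : ∀ β ∈ strs (r + 1), sg (cbit M p r u (a ++ β)) * sg (cbit M p r u' (a ++ β)) =
        sg (ip β (horner p (num a) u)) * sg (ip β (horner p (num a) u')) := by
      intro β _
      unfold cbit
      have h2 : (a ++ β).take r = a := by rw [← ha, List.take_left]
      have h3 : (a ++ β).drop r = β := by rw [← ha, List.drop_left]
      rw [h2, h3, numC_eq (by rw [ha]; exact hM2)]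
    rw [Finset.sum_congr rfl h1, hip (r + 1) _ _ (lt_of_lt_of_le (hlt p _ u hp.pos) hp2)
      (lt_of_lt_of_le (hlt p _ u' hp.pos) hp2)]
    split_ifs <;> simp
  rw [key]
  have h4 := hh p r i u u' hp hp1 hu hu' hne
  constructor
  · positivity
  · refine mul_le_mul_of_nonneg_right ?_ (by positivity)
    exact_mod_cast h4

end RKNP
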