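import Pool.Agent.Lib.MP_69204b_lc.Stm

set_option autoImplicit false

namespace RKNP

open HerCo

theorem count_pf : S_count := by
  intro α _ N g hN hg
  have h1 : Computable (fun a : α => Nat.rec (motive := fun _ => ℕ) 0
      (fun n IH => bif g (a, n) then IH + 1 else IH) (N a)) := by
    refine Computable.nat_rec (f := N) (g := fun _ => 0)
      (h := fun a p => bif g (a, p.1) then p.2 + 1 else p.2) hN (Computable.const 0) ?_
    show Computable (fun q : α × ℕ × ℕ => bif g (q.1, q.2.1) then q.2.2 + 1 else q.2.2)
    exact Computable.cond
      (hg.comp (Computable.pair Computable.fst (Computable.fst.comp Computable.snd)))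
      (Computable.succ.comp (Computable.snd.comp Computable.snd))
      (Computable.snd.comp Computable.snd)
  refine h1.of_eq fun a => ?_
  induction N a with
  | zero => rfl
  | succ n ih =>
    rw [List.range_succ, List.filter_append, List.length_append, ← ih]
    show (bif g (a, n) then _ + 1 else _) = _
    cases hgn : g (a, n) <;> simp [hgn]

end RKNP
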