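import Pool.Agent.Lib.MP_69204b_lc.Stm

/-! Piece D1: some function has small total agreement with a given list of functions. -/

namespace RKNP

open Finset

private theorem d1_pow (l : ℕ) (hl : 1 ≤ l) : (2 * l + 1) ^ l ≤ 2 * (2 * l) ^ l := by
  have hl' : (1 : ℝ) ≤ l := by exact_mod_cast hl
  have hg : (0 : ℝ) < 2 * l := by linarith
  set g : ℝ := 2 * l with hgdef
  have hinv : g⁻¹ ≤ 1 := by
    rw [inv_le_one₀ hg]; linarith
  have hinv0 : 0 < g⁻¹ := inv_pos.2 hg
  have hb : (1 : ℝ) + l * (-g⁻¹) ≤ (1 + (-g⁻¹)) ^ l := by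
    apply one_add_mul_le_pow
    linarith
  have hlg : (l : ℝ) * g⁻¹ = 1 / 2 := by
    rw [hgdef]
    field_simp
  have h1 : (1 / 2 : ℝ) ≤ (1 + (-g⁻¹)) ^ l := by
    have : (1 : ℝ) + l * (-g⁻¹) = 1 / 2 := by
      have h2 : (l : ℝ) * (-g⁻¹) = - (l * g⁻¹) := by ring
      rw [h2, hlg]; norm_num
    linarith
  have h2 : (1 + g⁻¹) ^ l * (1 + (-g⁻¹)) ^ l ≤ 1 := by
    rw [← mul_pow]
    apply pow_le_one₀
    · have : 0 ≤ 1 + (-g⁻¹) := by linarith
      have h3 : 0 ≤ 1 + g⁻¹ := by linarith
      exact mul_nonneg h3 this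
    · nlinarith [mul_pos hinv0 hinv0]
  have h3 : (1 + g⁻¹) ^ l ≤ 2 := by
    have h4 : 0 ≤ (1 + g⁻¹) ^ l := by positivity
    nlinarith [mul_le_mul_of_nonneg_left h1 h4]
  have h5 : ((2 * l + 1 : ℕ) : ℝ) ^ l ≤ 2 * (2 * l : ℕ) ^ l := by
    have h6 : ((2 * l + 1 : ℕ) : ℝ) = (1 + g⁻¹) * g := by
      push_cast
      rw [add_mul, inv_mul_cancel₀ (ne_of_gt hg), hgdef]; ring
    have h7 : ((2 * l : ℕ) : ℝ) = g := by push_cast; rw [hgdef]
    rw [h6, h7, mul_pow]
    exact mul_le_mul_of_nonneg_right h3 (by positivity)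
  exact_mod_cast h5

private theorem d1_agr (l : ℕ) (f : Fin l → Fin (2 * l)) (c' : List ℕ) :
    2 ^ agr l (List.ofFn fun i => (f i : ℕ)) c' =
      ∏ a : Fin l, (if (f a : ℕ) = c'.getD a 0 then 2 else 1) := by
  have h1 : agr l (List.ofFn fun i => (f i : ℕ)) c' =
      (Finset.univ.filter fun a : Fin l => (f a : ℕ) = c'.getD a 0).card := by
    unfold agr
    have h2 : (List.range l) = (List.finRange l).map (fun a : Fin l => (a : ℕ)) := by
      rw [List.map_coe_finRange_eq_range]
    rw [h2, List.filter_map, List.length_map]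
    have h3 : (Finset.univ.filter fun a : Fin l => (f a : ℕ) = c'.getD a 0).card =
        ((List.finRange l).filter fun a : Fin l => decide ((f a : ℕ) = c'.getD a 0)).length := by
      rfl
    rw [h3]
    congr 1
    apply List.filter_congr
    intro a _
    simp [List.getD_eq_getElem?_getD]
  rw [h1, Finset.prod_ite, Finset.prod_const, Finset.prod_const]
  simp

private theorem d1_sum (l : ℕ) (hl : 1 ≤ l) (c' : List ℕ) :
    ∑ f : Fin l → Fin (2 * l), 2 ^ agr l (List.ofFn fun i => (f i : ℕ)) c' ≤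
      2 * (2 * l) ^ l := by
  calc ∑ f : Fin l → Fin (2 * l), 2 ^ agr l (List.ofFn fun i => (f i : ℕ)) c'
      = ∑ f : Fin l → Fin (2 * l), ∏ a : Fin l, (if (f a : ℕ) = c'.getD a 0 then 2 else 1) :=
        Finset.sum_congr rfl fun f _ => d1_agr l f c'
    _ = ∏ a : Fin l, ∑ b : Fin (2 * l), (if (b : ℕ) = c'.getD a 0 then 2 else 1) := by
        rw [Finset.prod_univ_sum]
        rfl
    _ ≤ ∏ _a : Fin l, (2 * l + 1) := by
        apply Finset.prod_le_prod' 
        intro a _
        have h1 : ∀ b : Fin (2 * l), (if (b : ℕ) = c'.getD a 0 then 2 else 1) =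
            1 + (if (b : ℕ) = c'.getD a 0 then 1 else 0) := by
          intro b; split_ifs <;> rfl
        rw [Finset.sum_congr rfl fun b _ => h1 b, Finset.sum_add_distrib]
        have h2 : ∑ b : Fin (2 * l), (if (b : ℕ) = c'.getD a 0 then 1 else 0) ≤ 1 := by
          rw [Finset.sum_boole]
          simp only [Nat.cast_id]
          rw [Finset.card_le_one]
          intro x hx y hy
          simp only [Finset.mem_filter, Finset.mem_univ, true_and] at hx hy
          exact Fin.ext (hx.trans hy.symm)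
        simp only [Finset.sum_const, Finset.card_univ, Fintype.card_fin, smul_eq_mul, mul_one]
        omega
    _ = (2 * l + 1) ^ l := by simp
    _ ≤ 2 * (2 * l) ^ l := d1_pow l hl

private theorem d1_swap {α : Type} [Fintype α] (D : List (List ℕ)) (F : α → List ℕ → ℕ) :
    ∑ f : α, (D.map fun c' => F f c').sum = (D.map fun c' => ∑ f : α, F f c').sum := by
  induction D with
  | nil => simp
  | cons c D ih => simp [Finset.sum_add_distrib, ih]

private theorem d1_list (D : List (List ℕ)) (F : List ℕ → ℕ) (B : ℕ) (h : ∀ c, F c ≤ B) :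
    (D.map F).sum ≤ D.length * B := by
  induction D with
  | nil => simp
  | cons c D ih =>
    simp only [List.map_cons, List.sum_cons, List.length_cons]
    have := h c
    have h2 : (D.length + 1) * B = D.length * B + B := by ring
    omega

theorem davg_pf : S_davg := by
  intro l D hl
  by_contra hcon
  push Not at hcon
  have h1 : ∀ f : Fin l → Fin (2 * l),
      2 * D.length + 1 ≤ (D.map fun c' => 2 ^ agr l (List.ofFn fun i => (f i : ℕ)) c').sum := by
    intro f
    have := hcon (List.ofFn fun i => (f i : ℕ)) (by simp) (by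
      intro b hb
      rw [List.mem_ofFn] at hb
      obtain ⟨i, rfl⟩ := hb
      exact (f i).2)
    omega
  have h2 : (2 * l) ^ l * (2 * D.length + 1) ≤
      ∑ f : Fin l → Fin (2 * l),
        (D.map fun c' => 2 ^ agr l (List.ofFn fun i => (f i : ℕ)) c').sum := by
    calc (2 * l) ^ l * (2 * D.length + 1)
        = ∑ _f : Fin l → Fin (2 * l), (2 * D.length + 1) := by
          rw [Finset.sum_const, Finset.card_univ, Fintype.card_fun, Fintype.card_fin,
            Fintype.card_fin, smul_eq_mul]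
      _ ≤ _ := Finset.sum_le_sum fun f _ => h1 f
  have h3 : ∑ f : Fin l → Fin (2 * l),
        (D.map fun c' => 2 ^ agr l (List.ofFn fun i => (f i : ℕ)) c').sum ≤
      D.length * (2 * (2 * l) ^ l) := by
    rw [d1_swap D fun (f : Fin l → Fin (2 * l)) c' =>
      2 ^ agr l (List.ofFn fun i => (f i : ℕ)) c']
    exact d1_list D _ _ fun c' => d1_sum l hl c'
  have h4 : 0 < (2 * l) ^ l := by positivity
  have h5 := h2.trans h3
  have h6 : (2 * l) ^ l * (2 * D.length + 1) = D.length * (2 * (2 * l) ^ l) + (2 * l) ^ l := by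
    ring
  omega

end RKNP
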