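import Pool.Agent.Lib.MP_69204b_lc.Stm

/-! Piece D2: enumeration of all functions. -/

namespace RKNP

private theorem D2_succ (M g k : ℕ) :
    allF M g (k + 1) =
      ((allF M g k).flatMap (fun c => (List.range g).map (fun b => b :: c))).take M := by
  unfold allF
  rw [Function.iterate_succ_apply']

private theorem D2_len (g : ℕ) (L : List (List ℕ)) :
    (L.flatMap (fun c => (List.range g).map (fun b => b :: c))).length = L.length * g := by
  induction L with
  | nil => simp
  | cons a L ih =>
    rw [List.flatMap_cons, List.length_append, ih, List.length_map, List.length_range,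
      List.length_cons]
    ring

private theorem D2_main (M g : ℕ) : ∀ k : ℕ, (∀ j ≤ k, g ^ j ≤ M) →
    (allF M g k).length = g ^ k ∧
      ∀ c : List ℕ, c ∈ allF M g k ↔ c.length = k ∧ ∀ b ∈ c, b < g := by
  intro k
  induction k with
  | zero =>
    intro _
    refine ⟨by simp [allF], fun c => ?_⟩
    simp only [allF, Function.iterate_zero, id_eq, List.mem_singleton,
      List.length_eq_zero_iff]
    constructor
    · rintro rfl; simp
    · rintro ⟨h, _⟩; exact h
  | succ k ih =>
    intro hM
    obtain ⟨h1, h2⟩ := ih (fun j hj => hM j (by omega))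
    have h3 := D2_len g (allF M g k)
    rw [h1, ← pow_succ] at h3
    have h4 : allF M g (k + 1) =
        (allF M g k).flatMap (fun c => (List.range g).map (fun b => b :: c)) := by
      rw [D2_succ, List.take_of_length_le]
      rw [h3]
      exact hM (k + 1) le_rfl
    rw [h4]
    refine ⟨h3, fun c => ?_⟩
    rw [List.mem_flatMap]
    constructor
    · rintro ⟨c', hc', hc⟩
      rw [List.mem_map] at hc
      obtain ⟨b, hb, rfl⟩ := hc
      rw [h2] at hc'
      refine ⟨by rw [List.length_cons, hc'.1], ?_⟩
      intro b' hb'
      rw [List.mem_cons] at hb'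
      rcases hb' with rfl | hb'
      · exact List.mem_range.1 hb
      · exact hc'.2 b' hb'
    · rintro ⟨hl, hb⟩
      rcases c with _ | ⟨b, c⟩
      · simp at hl
      · refine ⟨c, (h2 c).2 ⟨by simpa using hl, fun b' hb' => hb b' (List.mem_cons_of_mem _ hb')⟩,
          ?_⟩
        rw [List.mem_map]
        exact ⟨b, List.mem_range.2 (hb b List.mem_cons_self), rfl⟩

theorem allF_pf : S_allF := by
  intro M g k hM h1 c
  refine (D2_main M g k ?_).2 c
  intro j hj
  rcases Nat.eq_zero_or_pos g with hg | hg
  · subst hg
    rcases Nat.eq_zero_or_pos j with hj0 | hj0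
    · subst hj0; simpa using h1
    · rw [Nat.zero_pow hj0]; exact Nat.zero_le _
  · exact le_trans (Nat.pow_le_pow_right hg hj) hM

end RKNP
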