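import Pool.Agent.Lib.MP_69204b_lc.Stm

/-! Piece D3: properties of the design. -/

namespace RKNP

private theorem D3_sum (D : List (List ℕ)) (f : List ℕ → ℕ) :
    (D.map f).sum = ∑ j ∈ Finset.range D.length, f (D.getD j []) := by
  induction D using List.reverseRecOn with
  | nil => simp
  | append_singleton D a ih =>
    rw [List.map_append, List.sum_append, ih, List.length_append, List.length_singleton,
      Finset.sum_range_succ]
    congr 1
    · refine Finset.sum_congr rfl fun j hj => ?_
      rw [Finset.mem_range] at hj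
      rw [List.getD_append _ _ _ _ hj]
    · rw [List.getD_append_right _ _ _ _ (le_refl _)]
      simp

private theorem D3_agr_le (l : ℕ) (c c' : List ℕ) : agr l c c' ≤ l := by
  unfold agr
  refine le_trans (List.length_filter_le _ _) ?_
  rw [List.length_range]

private theorem D3_step (M l : ℕ) (ha : S_davg) (hf : S_allF) (hl : 1 ≤ l)
    (hM : (2 * l) ^ l ≤ M) (D : List (List ℕ)) :
    ∃ c : List ℕ, dsgStep M (2 * l) l D = D ++ [c] ∧ c.length = l ∧ (∀ b ∈ c, b < 2 * l) ∧
      ∑ j ∈ Finset.range D.length, 2 ^ agr l c (D.getD j []) ≤ 2 * D.length := by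
  have h1M : 1 ≤ M := le_trans (Nat.one_le_pow _ _ (by omega)) hM
  have hpw : ∀ c c' : List ℕ, pw M (agr l c c') = 2 ^ agr l c c' := by
    intro c c'
    apply pw_eq
    calc 2 ^ agr l c c' ≤ 2 ^ l := Nat.pow_le_pow_right (by norm_num) (D3_agr_le l c c')
      _ ≤ (2 * l) ^ l := Nat.pow_le_pow_left (by omega) l
      _ ≤ M := hM
  set F := (allF M (2 * l) l).filter (fun c =>
    decide ((D.map (fun c' => pw M (agr l c c'))).sum ≤ 2 * D.length)) with hF
  obtain ⟨c0, hc0, hc1, hc2⟩ := ha l D hl
  have hmem : c0 ∈ F := by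
    rw [hF, List.mem_filter]
    refine ⟨(hf M (2 * l) l hM h1M c0).2 ⟨hc0, hc1⟩, ?_⟩
    simp only [decide_eq_true_eq, hpw]
    exact hc2
  have hpos : 0 < F.length := List.length_pos_of_mem hmem
  have hmem' : F.getD 0 [] ∈ F := by
    rw [List.getD_eq_getElem _ _ hpos]
    exact List.getElem_mem _
  refine ⟨F.getD 0 [], rfl, ?_⟩
  generalize F.getD 0 [] = c at hmem'
  rw [hF, List.mem_filter] at hmem'
  obtain ⟨h1, h2⟩ := hmem'
  obtain ⟨h3, h4⟩ := (hf M (2 * l) l hM h1M c).1 h1
  simp only [decide_eq_true_eq, hpw] at h2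
  refine ⟨h3, h4, ?_⟩
  rw [← D3_sum D (fun c' => 2 ^ agr l c c')]
  exact h2

theorem dsg_pf (ha : S_davg) (hf : S_allF) : S_dsg := by
  intro M l n hl hM
  induction n with
  | zero =>
    refine ⟨by simp [dsg], fun i hi => absurd hi (Nat.not_lt_zero i)⟩
  | succ n ih =>
    obtain ⟨ih1, ih2⟩ := ih
    have hs : dsg M (2 * l) l (n + 1) = dsgStep M (2 * l) l (dsg M (2 * l) l n) := by
      unfold dsg
      rw [Function.iterate_succ_apply']
    obtain ⟨c, hc0, hc1, hc2, hc3⟩ := D3_step M l ha hf hl hM (dsg M (2 * l) l n)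
    rw [hs, hc0]
    rw [ih1] at hc3
    generalize hDD : dsg M (2 * l) l n = D at *
    refine ⟨by rw [List.length_append, ih1, List.length_singleton], fun i hi => ?_⟩
    rcases Nat.lt_or_ge i n with h | h
    · rw [List.getD_append _ _ _ _ (by rw [ih1]; exact h)]
      obtain ⟨g1, g2, g3⟩ := ih2 i h
      refine ⟨g1, g2, ?_⟩
      rw [Finset.sum_congr rfl (g := fun j => 2 ^ agr l (D.getD i []) (D.getD j []))]
      · exact g3
      · intro j hj
        rw [Finset.mem_range] at hj
        rw [List.getD_append _ _ _ _ (by rw [ih1]; omega)]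
    · have hin : i = n := by omega
      subst hin
      have hg : (D ++ [c]).getD i [] = c := by
        rw [List.getD_append_right _ _ _ _ (by rw [ih1]), ih1]
        simp
      rw [hg]
      refine ⟨hc1, hc2, ?_⟩
      rw [Finset.sum_congr rfl (g := fun j => 2 ^ agr l c (D.getD j []))]
      · exact hc3
      · intro j hj
        rw [Finset.mem_range] at hj
        rw [List.getD_append _ _ _ _ (by rw [ih1]; omega)]

end RKNP
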