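import Mathlib
import Pool.Prelude.Def_H_3587d628

/-! Definitions for the problem MP_69204b_lc: NP and nonadaptive reductions, computable in
subexponential time, to the set of Kolmogorov-random strings.

The class `NP` is `N68a2faeb.NP` of the pool (Turing machines of Mathlib). -/

namespace RKNP

open Turing

/-- The domain of a partial function on strings is prefix-free. -/
def PrefixFree (V : List Bool →. List Bool) : Prop :=
  ∀ p q : List Bool, (V p).Dom → (V q).Dom → p <+: q → p = q

/-- `U` is a universal prefix-free machine: a partial recursive function on strings with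
prefix-free domain which is, up to an additive constant, at least as good as every other one. -/
structure Universal (U : List Bool →. List Bool) : Prop where
  partrec : Partrec U
  prefixFree : PrefixFree U
  optimal : ∀ V : List Bool →. List Bool, Partrec V → PrefixFree V →
    ∃ c : ℕ, ∀ p x : List Bool, x ∈ V p → ∃ q : List Bool, x ∈ U q ∧ q.length ≤ p.length + c

/-- Prefix-free Kolmogorov complexity of a string: the length of a shortest program. -/
noncomputable def K (U : List Bool →. List Bool) (x : List Bool) : ℕ :=
  sInf {n | ∃ p : List Bool, p.length = n ∧ x ∈ U p}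

/-- The set `R_K` of Kolmogorov-random strings. -/
def Rand (U : List Bool →. List Bool) : Set (List Bool) := {x | x.length ≤ K U x}

/-- `f` is computed by a deterministic Turing machine which makes at most `t n` steps on every
input of length `n`. -/
def ComputableInTime {β : Type} [N487b59b3 β] (t : ℕ → ℕ) (f : List Bool → β) : Prop :=
  ∃ h : TM2ComputableInTime (fun x : List Bool => x) (N487b59b3.bitEncode : β → List Bool) f,
    ∀ n, h.time n ≤ t n

open Classical in
/-- `L` is reducible to `R` by a nonadaptive (truth-table) reduction computable in time `t`
(Ladner, Lynch, Selman): on the input `x` a Turing machine computes in time `t |x|` a list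
`(g x).2` of queries and (the code `(g x).1` of) a Boolean rule; the rules are evaluated in
polynomial time by `e`; and `x` is in `L` iff the rule accepts the list of the answers. -/
def TTReducible (t : ℕ → ℕ) (L : N68a2faeb.DecisionProblem) (R : Set (List Bool)) : Prop :=
  ∃ (g : List Bool → List Bool × List (List Bool)) (e : List Bool × List Bool → Bool),
    ComputableInTime t g ∧ N68a2faeb.IsPolyTime e ∧
    ∀ x, L x = e ((g x).1, (g x).2.map fun q => decide (q ∈ R))

/-- The class `DTIME(T(n^O(1)))_tt^{R_K}`, the intersection over all universal prefix-free
machines. -/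
def DTIMEttRK (T : ℕ → ℕ) : N68a2faeb.DecisionComplexityClass :=
  {L | ∀ U, Universal U → ∃ c : ℕ, TTReducible (fun n => T (n ^ c + c)) L (Rand U)}

/-- Time bounds: nondecreasing, at least `n`, and time-constructible (the binary number `T n` is
computed from every string of length `n` in time `O(T n)`). -/
structure TimeBound (T : ℕ → ℕ) : Prop where
  mono : Monotone T
  le : ∀ n, n ≤ T n
  constructible : ∃ C : ℕ, ComputableInTime (fun n => C * T n + C)
    (fun x : List Bool => T x.length)

/-- `T` is subexponential: for every `ε > 0`, `T n ≤ 2 ^ (n ^ ε)` for all large `n`. -/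
def Subexponential (T : ℕ → ℕ) : Prop :=
  ∀ ε : ℝ, 0 < ε → ∀ᶠ n : ℕ in Filter.atTop, (T n : ℝ) ≤ 2 ^ ((n : ℝ) ^ ε)

/-- The quasipolynomial bound `2 ^ ((number of binary digits of n) ^ 5)`. -/
def qp (n : ℕ) : ℕ := 2 ^ (Nat.size n ^ 5)

end RKNP
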