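import Pool.Agent.Lib.MP_69204b_lc.Stm

/-! Piece E1: indices of the output bits of the extractor. -/

namespace RKNP

private theorem E1_hlf_zero (l : ℕ) : hlf l 0 = l := rfl

private theorem E1_hlf_succ (l k : ℕ) : hlf l (k + 1) = hlf l k / 2 := by
  rw [hlf_eq, hlf_eq, pow_succ, Nat.div_div_eq_div_mul]

private theorem E1_hlf_le (l k : ℕ) : hlf l k ≤ l := by
  rw [hlf_eq]; exact Nat.div_le_self _ _

private theorem E1_idx_succ (r l : ℕ) :
    idx (r + 1) l = idx r l ++ (List.range (blk l r)).map (fun i => (r, i)) := by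
  unfold idx
  rw [List.range_succ, List.flatMap_append, List.flatMap_singleton]

private theorem E1_len (r l : ℕ) : (idx r l).length = l - hlf l r := by
  induction r with
  | zero => simp [idx, E1_hlf_zero]
  | succ r ih =>
    rw [E1_idx_succ, List.length_append, ih, List.length_map, List.length_range, blk,
      E1_hlf_succ]
    have := E1_hlf_le l r
    omega

private theorem E1_mem (r l : ℕ) (p : ℕ × ℕ) (h : p ∈ idx r l) : p.1 < r := by
  unfold idx at h
  rw [List.mem_flatMap] at h
  obtain ⟨k, hk, hp⟩ := h
  rw [List.mem_map] at hp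
  obtain ⟨i, _, rfl⟩ := hp
  exact List.mem_range.1 hk

private theorem E1_nodup (r l : ℕ) : (idx r l).Nodup := by
  induction r with
  | zero => simp [idx]
  | succ r ih =>
    rw [E1_idx_succ]
    refine List.Nodup.append ih ?_ ?_
    · refine List.Nodup.map ?_ List.nodup_range
      intro a b hab
      simpa using hab
    · intro p hp hp'
      have h1 := E1_mem r l p hp
      rw [List.mem_map] at hp'
      obtain ⟨i, _, rfl⟩ := hp'
      simp at h1

private theorem E1_get (r l : ℕ) : ∀ t < l - hlf l r,
    ∃ k i, (idx r l).getD t (0, 0) = (k, i) ∧ k < r ∧ i < blk l k ∧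
      t = l - hlf l k + i ∧ hlf l k ≤ l ∧ 2 * blk l k ≤ hlf l k + 1 := by
  induction r with
  | zero =>
    intro t ht
    rw [E1_hlf_zero] at ht
    omega
  | succ r ih =>
    intro t ht
    by_cases h : t < l - hlf l r
    · obtain ⟨k, i, h1, h2, h3⟩ := ih t h
      refine ⟨k, i, ?_, by omega, h3⟩
      rw [E1_idx_succ, List.getD_append _ _ _ _ (by rw [E1_len]; exact h), h1]
    · have h0 := E1_hlf_le l r
      have h1 := E1_hlf_succ l r
      have h2 : blk l r = hlf l r - hlf l r / 2 := by rw [blk, h1]
      refine ⟨r, t - (l - hlf l r), ?_, by omega, by omega, by omega, h0, by omega⟩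
      rw [E1_idx_succ, List.getD_append_right _ _ _ _ (by rw [E1_len]; omega), E1_len]
      rw [List.getD_eq_getElem _ _ (by rw [List.length_map, List.length_range]; omega)]
      simp

theorem idx_pf : S_idx := by
  intro r l hl
  have h0 : hlf l r = 0 := by rw [hlf_eq]; exact Nat.div_eq_of_lt hl
  refine ⟨by rw [E1_len, h0]; rfl, E1_nodup r l, fun t ht => E1_get r l t (by rw [h0]; exact ht)⟩

end RKNP
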