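import Pool.Agent.Lib.MP_69204b_lc.Stm

/-! Piece E2: the extractor in terms of positions of the seed. -/

namespace RKNP

private theorem E2_dec {K K' E G a a' c c' : ℕ} (ha : a < E) (ha' : a' < E) (hc : c < G)
    (hc' : c' < G) (h : K * (E * G) + (a * G + c) = K' * (E * G) + (a' * G + c')) :
    K = K' ∧ a = a' ∧ c = c' := by
  have hG : 0 < G := by omega
  have h1 : a * G + c < E * G := by
    calc a * G + c < a * G + G := by omega
      _ = (a + 1) * G := by ring
      _ ≤ E * G := Nat.mul_le_mul_right _ ha
  have h2 : a' * G + c' < E * G := by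
    calc a' * G + c' < a' * G + G := by omega
      _ = (a' + 1) * G := by ring
      _ ≤ E * G := Nat.mul_le_mul_right _ ha'
  have hEG : 0 < E * G := by omega
  have e1 : (K * (E * G) + (a * G + c)) / (E * G) = K := by
    rw [Nat.mul_comm K, Nat.mul_add_div hEG, Nat.div_eq_of_lt h1, Nat.add_zero]
  have e2 : (K' * (E * G) + (a' * G + c')) / (E * G) = K' := by
    rw [Nat.mul_comm K', Nat.mul_add_div hEG, Nat.div_eq_of_lt h2, Nat.add_zero]
  have hK : K = K' := by rw [← e1, ← e2, h]
  subst hK
  have h3 : a * G + c = a' * G + c' := by omega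
  have e3 : (a * G + c) / G = a := by
    rw [Nat.mul_comm a, Nat.mul_add_div hG, Nat.div_eq_of_lt hc, Nat.add_zero]
  have e4 : (a' * G + c') / G = a' := by
    rw [Nat.mul_comm a', Nat.mul_add_div hG, Nat.div_eq_of_lt hc', Nat.add_zero]
  have hA : a = a' := by rw [← e3, ← e4, h3]
  subst hA
  exact ⟨rfl, rfl, by omega⟩

private theorem E2_lt {K r E G a c : ℕ} (hK : K < r) (ha : a < E) (hc : c < G) :
    K * (E * G) + (a * G + c) < r * (E * G) := by
  have h1 : a * G + c < E * G := by
    calc a * G + c < a * G + G := by omega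
      _ = (a + 1) * G := by ring
      _ ≤ E * G := Nat.mul_le_mul_right _ ha
  calc K * (E * G) + (a * G + c) < K * (E * G) + E * G := by omega
    _ = (K + 1) * (E * G) := by ring
    _ ≤ r * (E * G) := Nat.mul_le_mul_right _ hK

private theorem E2_card_le_agr (E : ℕ) (c c' : List ℕ) (S : Finset (Fin E))
    (h : ∀ a ∈ S, c.getD a 0 = c'.getD a 0) : S.card ≤ agr E c c' := by
  have h1 : agr E c c' = ((Finset.range E).filter
      (fun a => c.getD a 0 = c'.getD a 0)).card := by
    unfold agr
    rw [← List.toFinset_card_of_nodup (List.nodup_range.filter _), List.toFinset_filter,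
      List.toFinset_range]
    congr 1
    ext a
    simp
  rw [h1]
  refine Finset.card_le_card_of_injOn (fun a => (a : ℕ)) ?_ ?_
  · intro a ha
    exact Finset.mem_coe.2 (Finset.mem_filter.2 ⟨Finset.mem_range.2 a.2, h a ha⟩)
  · intro a _ b _ hab
    exact Fin.ext hab

private theorem E2_flatMap_map {A : Type*} (L : List ℕ) (b : ℕ → ℕ) (F : ℕ → ℕ → A) :
    L.flatMap (fun k => (List.range (b k)).map (fun i => F k i)) =
      (L.flatMap (fun k => (List.range (b k)).map (fun i => (k, i)))).map
        (fun p => F p.1 p.2) := by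
  induction L with
  | nil => simp
  | cons a L ih =>
    rw [List.flatMap_cons, List.flatMap_cons, List.map_append, ih, List.map_map]
    rfl

theorem pos_pf (hi : S_idx) (hd : S_dsg) : S_pos := by
  classical
  intro M r l hr hl hM
  obtain ⟨hlen, -, hidx⟩ := hi r l hl
  have hell : 1 ≤ ell r := by unfold ell; omega
  obtain ⟨hDl, hD⟩ := hd M (ell r) l hell hM
  have hgg : gg r = 2 * ell r := rfl
  rw [← hgg] at hDl hD
  set D := dsg M (gg r) (ell r) l with hDdef
  set K : ℕ → ℕ := fun t => ((idx r l).getD t (0, 0)).1 with hKdef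
  set I : ℕ → ℕ := fun t => ((idx r l).getD t (0, 0)).2 with hIdef
  have hKI : ∀ t < l, K t < r ∧ I t < blk l (K t) ∧ t = l - hlf l (K t) + I t ∧
      hlf l (K t) ≤ l ∧ 2 * blk l (K t) ≤ hlf l (K t) + 1 := by
    intro t ht
    obtain ⟨k, i, h1, h2, h3, h4, h5, h6⟩ := hidx t ht
    have e1 : K t = k := by simp only [hKdef, h1]
    have e2 : I t = i := by simp only [hIdef, h1]
    rw [e1, e2]
    exact ⟨h2, h3, h4, h5, h6⟩
  have hIl : ∀ t < l, I t < l := by
    intro t ht
    obtain ⟨_, h2, _, h4, _⟩ := hKI t ht
    have : blk l (K t) ≤ hlf l (K t) := by unfold blk; omega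
    omega
  have hc : ∀ t < l, ∀ a < ell r, (D.getD (I t) []).getD a 0 < gg r := by
    intro t ht a ha
    obtain ⟨h1, h2, _⟩ := hD (I t) (hIl t ht)
    apply h2
    rw [List.getD_eq_getElem (D.getD (I t) []) 0 (by rw [h1]; exact ha)]
    exact List.getElem_mem _
  have hdd : dd r = r * (ell r * gg r) := rfl
  set P : ℕ → ℕ → ℕ := fun t a =>
    K t * (ell r * gg r) + (a * gg r + (D.getD (I t) []).getD a 0) with hPdef
  have hP : ∀ t < l, ∀ a < ell r, P t a < dd r := by
    intro t ht a ha
    rw [hdd]
    exact E2_lt (hKI t ht).1 ha (hc t ht a ha)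
  refine ⟨fun t a => ⟨P t a, hP t t.2 a a.2⟩, ?_, ?_, ?_⟩
  · intro t a b hab
    have h1 : P t a = P t b := congrArg Fin.val hab
    exact Fin.ext (E2_dec a.2 b.2 (hc t t.2 a a.2) (hc t t.2 b b.2) h1).2.1
  · intro t
    obtain ⟨k1, k2, k3, k4, k5⟩ := hKI t t.2
    set A := l - hlf l (K t) with hAdef
    set g : ℕ → ℕ := fun t' => if t' < A then 1 else
      2 ^ agr (ell r) (D.getD (I t) []) (D.getD (t' - A) []) with hgdef
    have hterm : ∀ t' ∈ Finset.univ.filter (fun t' : Fin l => t' < t),
        2 ^ (Finset.univ.filter (fun a : Fin (ell r) => ∃ b : Fin (ell r),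
          (⟨P t a, hP t t.2 a a.2⟩ : Fin (dd r)) = ⟨P t' b, hP t' t'.2 b b.2⟩)).card
        ≤ g t' := by
      intro t' _
      have hg1 : 1 ≤ g t' := by
        rw [hgdef]
        simp only
        split_ifs
        · exact le_refl _
        · exact Nat.one_le_two_pow
      by_cases hK : K t' = K t
      · obtain ⟨m1, m2, m3, m4, m5⟩ := hKI t' t'.2
        rw [hK, ← hAdef] at m3
        have e1 : ¬ ((t' : ℕ) < A) := by omega
        have e2 : (t' : ℕ) - A = I t' := by omega
        rw [hgdef]
        simp only
        rw [if_neg e1, e2]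
        apply Nat.pow_le_pow_right (by norm_num)
        apply E2_card_le_agr
        intro a ha
        rw [Finset.mem_filter] at ha
        obtain ⟨-, b, hb⟩ := ha
        have h1 : P t a = P t' b := congrArg Fin.val hb
        obtain ⟨-, h2, h3⟩ := E2_dec a.2 b.2 (hc t t.2 a a.2) (hc t' t'.2 b b.2) h1
        rw [h3, h2]
      · have hempty : Finset.univ.filter (fun a : Fin (ell r) => ∃ b : Fin (ell r),
            (⟨P t a, hP t t.2 a a.2⟩ : Fin (dd r)) = ⟨P t' b, hP t' t'.2 b b.2⟩) = ∅ := by
          rw [Finset.filter_eq_empty_iff]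
          rintro a - ⟨b, hb⟩
          have h1 : P t a = P t' b := congrArg Fin.val hb
          exact hK (E2_dec a.2 b.2 (hc t t.2 a a.2) (hc t' t'.2 b b.2) h1).1.symm
        rw [hempty, Finset.card_empty, pow_zero]
        exact hg1
    refine le_trans (Finset.sum_le_sum hterm) ?_
    have hsum : ∑ t' ∈ Finset.univ.filter (fun t' : Fin l => t' < t), g t' ≤
        ∑ t' ∈ Finset.range t, g t' := by
      rw [← Finset.sum_image (f := g) (g := fun t' : Fin l => (t' : ℕ))
        (s := Finset.univ.filter (fun t' : Fin l => t' < t))]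
      · refine Finset.sum_le_sum_of_subset ?_
        intro j hj
        rw [Finset.mem_image] at hj
        obtain ⟨t', ht', rfl⟩ := hj
        rw [Finset.mem_filter] at ht'
        exact Finset.mem_range.2 ht'.2
      · intro a _ b _ hab
        exact Fin.ext hab
    refine le_trans hsum ?_
    rw [k3, Finset.sum_range_add]
    have s1 : ∑ t' ∈ Finset.range A, g t' = A := by
      rw [Finset.sum_congr rfl (g := fun _ => 1)]
      · simp
      · intro j hj
        rw [Finset.mem_range] at hj
        rw [hgdef]
        simp only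
        rw [if_pos hj]
    have s2 : ∑ j ∈ Finset.range (I t), g (A + j) ≤ 2 * I t := by
      refine le_trans (le_of_eq ?_) (hD (I t) (hIl t t.2)).2.2
      refine Finset.sum_congr rfl fun j _ => ?_
      rw [hgdef]
      simp only
      rw [if_neg (by omega), Nat.add_sub_cancel_left]
    rw [s1]
    have hAl : A + hlf l (K t) = l := by omega
    omega
  · intro x z
    unfold ext
    rw [E2_flatMap_map]
    refine List.ext_getElem ?_ ?_
    · rw [List.length_map, List.length_ofFn]
      exact hlen
    · intro t h1 h2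
      rw [List.getElem_map, List.getElem_ofFn]
      have ht : t < l := by rwa [List.length_ofFn] at h2
      have hg : (List.flatMap (fun k => List.map (fun i => (k, i)) (List.range (blk l k)))
          (List.range r))[t]'(by rw [List.length_map] at h1; exact h1) =
            (idx r l).getD t (0, 0) := by
        rw [List.getD_eq_getElem _ _ (by rw [hlen]; exact ht)]
        rfl
      rw [hg]
      congr 1
      unfold seedAt
      refine List.ext_getElem ?_ ?_
      · rw [List.length_map, List.length_range, List.length_ofFn]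
      · intro a g1 g2
        rw [List.getElem_map, List.getElem_range, List.getElem_ofFn]
        have ha : a < ell r := by rwa [List.length_ofFn] at g2
        rw [List.getD_eq_getElem (List.ofFn z) false
          (by rw [List.length_ofFn]; exact hP t ht a ha), List.getElem_ofFn]

end RKNP
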