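import Pool.Agent.Lib.MP_69204b_lc.Stm

/-! Piece E3: length of the output of the extractor. -/

namespace RKNP

private theorem E3_aux {A B : Type*} (L : List ℕ) (b : ℕ → ℕ) (F : ℕ → ℕ → A)
    (G : ℕ → ℕ → B) :
    (L.flatMap (fun k => (List.range (b k)).map (F k))).length =
      (L.flatMap (fun k => (List.range (b k)).map (G k))).length := by
  induction L with
  | nil => simp
  | cons a L ih =>
    rw [List.flatMap_cons, List.flatMap_cons, List.length_append, List.length_append, ih,
      List.length_map, List.length_map]

theorem lext_pf (hi : S_idx) : S_lext := by
  intro M r l x z hl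
  have h := (hi r l hl).1
  unfold ext
  unfold idx at h
  exact (E3_aux (List.range r) (blk l) _ (fun k i => (k, i))).trans h

end RKNP
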