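import Pool.Agent.Lib.MP_69204b_lc.Stm

/-! Piece E4: the extractor theorem. -/

namespace RKNP

theorem ext_pf (hN : S_NW) (hJ : S_J2) (hp : S_pos) (hl : S_lext) : S_ext := by
  classical
  intro M r l n hr hlr hgM hM2 h32 G hG S hS
  rcases Nat.eq_zero_or_pos l with hl0 | hl1
  · subst hl0
    have hSe : S = ∅ := by
      rw [Finset.eq_empty_iff_forall_notMem]
      intro x hx
      obtain ⟨_, h2⟩ := hS x hx
      have hext : ∀ z, ext M r 0 x z = [] := fun z =>
        List.length_eq_zero_iff.1 (hl M r 0 x z hlr)
      simp only [hext, strs_zero, Finset.sum_singleton, pow_zero, mul_one] at h2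
      linarith
    rw [hSe, Finset.card_empty]
    exact Nat.zero_le _
  · obtain ⟨σ, hσ1, hσ2, hσ3⟩ := hp M r l hr hlr hgM
    have hl' : (0 : ℝ) < l := by exact_mod_cast hl1
    have key := hN (dd r) (ell r) l l (32 * l ^ 2) {x : List Bool // x.length = n}
      (fun x ζ => cbit M (prm M r) r x.1 (List.ofFn ζ)) σ
      (fun z e => G (List.ofFn z) e) (1 / 8) (1 / (4 * (l : ℝ))) (by norm_num)
      (by
        rw [div_mul_eq_mul_div, one_mul, div_le_iff₀ (by positivity)]
        linarith)
      hσ1 hσ2 (fun z e => hG _ _)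
      (by
        intro ψ hψ S' hS'
        have h1 := hJ M r n l hM2 hl1 h32 ψ hψ (S'.map ⟨Subtype.val, Subtype.val_injective⟩)
          (by
            intro x hx
            rw [Finset.mem_map] at hx
            obtain ⟨y, hy, rfl⟩ := hx
            exact ⟨y.2, hS' y hy⟩)
        rwa [Finset.card_map] at h1)
      (S.subtype (fun x => x.length = n))
      (by
        intro x hx
        rw [Finset.mem_subtype] at hx
        obtain ⟨_, h2⟩ := hS x.1 hx
        rw [sum_strs_fn (dd r), sum_strs_fn (dd r)] at h2
        simp only [hσ3] at h2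
        exact h2)
    rw [Finset.card_subtype, Finset.filter_true_of_mem (fun x hx => (hS x hx).1)] at key
    exact key

end RKNP
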