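import Pool.Agent.Lib.MP_69204b_lc.Defs

/-! There is a universal prefix-free machine: the definition `Universal` is not vacuous. -/

namespace RKNP

open Nat.Partrec

/-- `hal e n = some (p, x)`: the number `n` codes a pair `(t, p)`, and the partial recursive
function number `e` gives the value `x` at `p` in `t` steps. -/
private def u0_hal (e n : ℕ) : Option (List Bool × List Bool) :=
  (Encodable.decode (α := ℕ × List Bool) n).bind fun q =>
    (Code.evaln q.1 (Denumerable.ofNat Code e) (Encodable.encode q.2)).bind fun m =>
      (Encodable.decode (α := List Bool) m).map fun x => (q.2, x)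

private theorem u0_hal_prim : Primrec₂ u0_hal := by
  have h1 : Primrec (fun a : (ℕ × ℕ) × (ℕ × List Bool) =>
      Code.evaln a.2.1 (Denumerable.ofNat Code a.1.1) (Encodable.encode a.2.2)) :=
    Code.primrec_evaln.comp ((Primrec.pair (Primrec.pair (Primrec.fst.comp Primrec.snd)
      ((Primrec.ofNat Code).comp (Primrec.fst.comp Primrec.fst)))
        (Primrec.encode.comp (Primrec.snd.comp Primrec.snd))))
  have h2 : Primrec (fun b : ((ℕ × ℕ) × (ℕ × List Bool)) × ℕ =>
      (Encodable.decode (α := List Bool) b.2).map fun x => (b.1.2.2, x)) :=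
    Primrec.option_map (Primrec.decode.comp Primrec.snd)
      (Primrec.pair (Primrec.snd.comp (Primrec.snd.comp (Primrec.fst.comp Primrec.fst)))
        Primrec.snd).to₂
  exact (Primrec.option_bind (Primrec.decode.comp Primrec.snd)
    (Primrec.option_bind h1 h2.to₂).to₂).to₂

/-- The program found at `m` is comparable with `b.2` and different from it. -/
private def u0_bad (m : ℕ) (b : ℕ × List Bool) : Prop :=
  ∃ y ∈ u0_hal b.1 m, y.1.take b.2.length = b.2.take y.1.length ∧ y.1 ≠ b.2

private theorem u0_bad_prim : PrimrecRel u0_bad := by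
  classical
  have h1 : PrimrecPred (fun a : (ℕ × (ℕ × List Bool)) × (List Bool × List Bool) =>
      a.2.1.take a.1.2.2.length = a.1.2.2.take a.2.1.length ∧ ¬ a.2.1 = a.1.2.2) := by
    have y1 : Primrec (fun a : (ℕ × (ℕ × List Bool)) × (List Bool × List Bool) => a.2.1) :=
      Primrec.fst.comp Primrec.snd
    have b2 : Primrec (fun a : (ℕ × (ℕ × List Bool)) × (List Bool × List Bool) => a.1.2.2) :=
      Primrec.snd.comp (Primrec.snd.comp Primrec.fst)
    exact (Primrec.eq.comp (Primrec.list_take.comp (Primrec.list_length.comp b2) y1)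
      (Primrec.list_take.comp (Primrec.list_length.comp y1) b2)).and
        (Primrec.eq.comp y1 b2).not
  have h2 := Primrec.option_casesOn
    (u0_hal_prim.comp (Primrec.fst.comp Primrec.snd) Primrec.fst :
      Primrec (fun q : ℕ × (ℕ × List Bool) => u0_hal q.2.1 q.1))
    (Primrec.const false) h1.decide.to₂
  refine (Primrec.eq.comp h2 (Primrec.const true)).of_eq fun q => ?_
  unfold u0_bad
  cases h : u0_hal q.2.1 q.1 with
  | none => simp
  | some y => simp

open Classical in
/-- The value found at step `n`, provided that no different comparable program was found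
before. -/
private noncomputable def u0_acc (w : List Bool) (n : ℕ) : Option (List Bool) :=
  if w.idxOf false < w.length ∧
      ∀ m ∈ List.range n, ¬ u0_bad m (w.idxOf false, w.drop (w.idxOf false + 1)) then
    (u0_hal (w.idxOf false) n).bind fun y =>
      if y.1 = w.drop (w.idxOf false + 1) then some y.2 else none
  else none

private theorem u0_acc_prim : Primrec₂ u0_acc := by
  classical
  have e1 : Primrec (fun q : List Bool × ℕ => q.1.idxOf false) :=
    (Primrec.list_idxOf.comp (Primrec.const false) Primrec.fst)
  have p1 : Primrec (fun q : List Bool × ℕ => q.1.drop (q.1.idxOf false + 1)) :=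
    Primrec.list_drop.comp (Primrec.succ.comp e1) Primrec.fst
  have h1 : PrimrecPred (fun q : List Bool × ℕ => q.1.idxOf false < q.1.length ∧
      ∀ m ∈ List.range q.2, ¬ u0_bad m (q.1.idxOf false, q.1.drop (q.1.idxOf false + 1))) :=
    (Primrec.nat_lt.comp e1 (Primrec.list_length.comp Primrec.fst)).and
      (u0_bad_prim.not.forall_mem_list.comp (Primrec.list_range.comp Primrec.snd)
        (Primrec.pair e1 p1))
  have h2 : Primrec (fun a : (List Bool × ℕ) × (List Bool × List Bool) =>
      if a.2.1 = a.1.1.drop (a.1.1.idxOf false + 1) then some a.2.2 else none) :=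
    Primrec.ite (Primrec.eq.comp (Primrec.fst.comp Primrec.snd) (p1.comp Primrec.fst))
      (Primrec.option_some.comp (Primrec.snd.comp Primrec.snd)) (Primrec.const none)
  exact (Primrec.ite h1 (Primrec.option_bind (u0_hal_prim.comp e1 Primrec.snd) h2.to₂)
    (Primrec.const none)).to₂

private theorem u0_acc_some {w x : List Bool} {n : ℕ} (h : u0_acc w n = some x) :
    w.idxOf false < w.length ∧
    (∀ m < n, ¬ u0_bad m (w.idxOf false, w.drop (w.idxOf false + 1))) ∧
    u0_hal (w.idxOf false) n = some (w.drop (w.idxOf false + 1), x) := by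
  unfold u0_acc at h
  split_ifs at h with hc
  obtain ⟨y, hy, h⟩ := Option.bind_eq_some_iff.1 h
  split_ifs at h with hy2
  refine ⟨hc.1, fun m hm => hc.2 m (List.mem_range.2 hm), ?_⟩
  rw [hy, ← hy2, ← Option.some.inj h]

private theorem u0_split {w : List Bool} (h : w.idxOf false < w.length) :
    w = List.replicate (w.idxOf false) true ++ false :: w.drop (w.idxOf false + 1) := by
  induction w with
  | nil => simp at h
  | cons b w ih =>
    cases b
    · simp
    · have e : (true :: w).idxOf false = w.idxOf false + 1 := by
        rw [List.idxOf_cons_ne]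
        decide
      rw [e, List.length_cons] at h
      rw [e, List.replicate_succ, List.cons_append, List.drop_succ_cons, ← ih (by omega)]

private theorem u0_idx (n : ℕ) (l : List Bool) :
    (List.replicate n true ++ false :: l).idxOf false = n := by
  induction n with
  | zero => simp
  | succ n ih =>
    rw [List.replicate_succ, List.cons_append, List.idxOf_cons_ne, ih]
    decide

private theorem u0_drop (n : ℕ) (l : List Bool) :
    (List.replicate n true ++ false :: l).drop (n + 1) = l := by
  have h : List.replicate n true ++ false :: l = (List.replicate n true ++ [false]) ++ l := by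
    simp
  rw [h]
  exact List.drop_left' (by simp)

private theorem u0_cmp {p q : List Bool} (h : p <+: q) :
    p.take q.length = q.take p.length := by
  rw [List.take_of_length_le h.length_le]
  exact List.prefix_iff_eq_take.1 h

private theorem u0_sound {V : List Bool →. List Bool} {c : Code}
    (hc : ∀ p : List Bool, Code.eval c (Encodable.encode p) = (V p).map Encodable.encode)
    {n : ℕ} {p x : List Bool} (h : u0_hal (Encodable.encode c) n = some (p, x)) : x ∈ V p := by
  unfold u0_hal at h
  rw [Denumerable.ofNat_encode] at h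
  obtain ⟨q, -, h⟩ := Option.bind_eq_some_iff.1 h
  obtain ⟨m, hm, h⟩ := Option.bind_eq_some_iff.1 h
  obtain ⟨y, hy, h⟩ := Option.map_eq_some_iff.1 h
  obtain ⟨h1, h2⟩ := Prod.mk.inj h
  subst h1
  subst h2
  have h3 : m ∈ Code.eval c (Encodable.encode q.2) := Code.evaln_sound hm
  rw [hc] at h3
  obtain ⟨x', hx', rfl⟩ := (Part.mem_map_iff _).1 h3
  rw [Encodable.encodek, Option.some.injEq] at hy
  rw [← hy]
  exact hx'

private theorem u0_complete {V : List Bool →. List Bool} {c : Code}
    (hc : ∀ p : List Bool, Code.eval c (Encodable.encode p) = (V p).map Encodable.encode)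
    {p x : List Bool} (h : x ∈ V p) : ∃ n, u0_hal (Encodable.encode c) n = some (p, x) := by
  have h1 : Encodable.encode x ∈ Code.eval c (Encodable.encode p) := by
    rw [hc]
    exact Part.mem_map _ h
  obtain ⟨k, hk⟩ := Code.evaln_complete.1 h1
  have hk' : Code.evaln k c (Encodable.encode p) = some (Encodable.encode x) := hk
  refine ⟨Encodable.encode (k, p), ?_⟩
  unfold u0_hal
  rw [Denumerable.ofNat_encode, Encodable.encodek, Option.bind_some, hk', Option.bind_some,
    Encodable.encodek, Option.map_some]

/-- There is a universal prefix-free machine. -/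
theorem exists_universal : ∃ U : List Bool →. List Bool, Universal U := by
  refine ⟨fun w => Nat.rfindOpt (u0_acc w), Partrec.rfindOpt u0_acc_prim.to_comp, ?_, ?_⟩
  · intro w w' hw hw' hww
    obtain ⟨x, hx⟩ := Part.dom_iff_mem.1 hw
    obtain ⟨x', hx'⟩ := Part.dom_iff_mem.1 hw'
    obtain ⟨n, hn⟩ := Nat.rfindOpt_spec hx
    obtain ⟨n', hn'⟩ := Nat.rfindOpt_spec hx'
    obtain ⟨h1, h2, h3⟩ := u0_acc_some hn
    obtain ⟨h1', h2', h3'⟩ := u0_acc_some hn'
    obtain ⟨t, rfl⟩ := hww
    have he := u0_split h1
    have hi : (w ++ t).idxOf false = w.idxOf false := by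
      conv_lhs => rw [he]
      rw [List.append_assoc, List.cons_append, u0_idx]
    have hd : (w ++ t).drop (w.idxOf false + 1) = w.drop (w.idxOf false + 1) ++ t :=
      List.drop_append_of_le_length (by omega)
    rw [hi, hd] at h2' h3'
    by_contra hne
    have ht : t ≠ [] := by
      rintro rfl
      exact hne (by simp)
    have hne2 : w.drop (w.idxOf false + 1) ≠ w.drop (w.idxOf false + 1) ++ t := by
      intro h
      exact ht (List.append_right_eq_self.1 h.symm)
    have hcmp := u0_cmp (List.prefix_append (w.drop (w.idxOf false + 1)) t)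
    rcases lt_trichotomy n n' with h | h | h
    · exact h2' n h ⟨_, h3, hcmp, hne2⟩
    · subst h
      rw [h3] at h3'
      exact hne2 (Prod.mk.inj (Option.some.inj h3')).1
    · exact h2 n' h ⟨_, h3', hcmp.symm, hne2.symm⟩
  · intro V hV hVf
    obtain ⟨c, hc⟩ := Code.exists_code.1 hV
    have hev : ∀ p : List Bool, Code.eval c (Encodable.encode p) =
        (V p).map Encodable.encode := by
      intro p
      rw [hc]
      simp [Encodable.encodek]
    refine ⟨Encodable.encode c + 1, fun p x hx => ?_⟩
    set w := List.replicate (Encodable.encode c) true ++ false :: p with hwdef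
    have hi : w.idxOf false = Encodable.encode c := u0_idx _ _
    have hd : w.drop (w.idxOf false + 1) = p := by rw [hi]; exact u0_drop _ _
    have hl : w.idxOf false < w.length := by
      rw [hi, hwdef]
      simp
    obtain ⟨n, hn⟩ := u0_complete hev hx
    have hok : ∀ m ∈ List.range n,
        ¬ u0_bad m (w.idxOf false, w.drop (w.idxOf false + 1)) := by
      rw [hd, hi]
      rintro m - ⟨y, hy, h1, h2⟩
      have hy' : u0_hal (Encodable.encode c) m = some (y.1, y.2) := hy
      have h3 := u0_sound hev hy'
      have d1 : (V y.1).Dom := Part.dom_iff_mem.2 ⟨_, h3⟩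
      have d2 : (V p).Dom := Part.dom_iff_mem.2 ⟨_, hx⟩
      refine h2 ?_
      rcases Nat.le_total y.1.length p.length with h4 | h4
      · rw [List.take_of_length_le h4] at h1
        exact hVf _ _ d1 d2 (List.prefix_iff_eq_take.2 h1)
      · rw [List.take_of_length_le h4] at h1
        exact (hVf _ _ d2 d1 (List.prefix_iff_eq_take.2 h1.symm)).symm
    have hacc : u0_acc w n = some x := by
      unfold u0_acc
      rw [if_pos ⟨hl, hok⟩, hd, hi, hn, Option.bind_some]
      exact if_pos rfl
    have hdom : (Nat.rfindOpt (u0_acc w)).Dom := Nat.rfindOpt_dom.2 ⟨_, _, hacc⟩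
    obtain ⟨z, hz⟩ := Part.dom_iff_mem.1 hdom
    obtain ⟨n', hn'⟩ := Nat.rfindOpt_spec hz
    obtain ⟨-, -, h3⟩ := u0_acc_some hn'
    rw [hd, hi] at h3
    have hzx : z = x := Part.mem_unique (u0_sound hev h3) hx
    refine ⟨w, hzx ▸ hz, ?_⟩
    rw [hwdef]
    simp
    omega

end RKNP
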