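import Pool.Agent.Lib.MP_69204b_lc.Stm

namespace RKNP

open HerCo

theorem F10_pf (h8 : S_F8) : S_F10 := by
  intro V hV
  unfold acc
  refine FP.anyB (l := fun q : (ℕ × ℕ × ℕ) × ℕ × List Bool × List (List Bool) =>
    List.range (q.1.2.2 + 1)) (g := fun q l => (List.range (q.2.1 + 1)).any (fun i =>
    (bfs q.1.1 q.1.2.1 l q.2.2.1 q.2.2.2 i).any (fun u => V (q.2.2.1, u)))) (by fun_prop) ?_
  refine FP.anyB (l := fun p : ((ℕ × ℕ × ℕ) × ℕ × List Bool × List (List Bool)) × ℕ =>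
    List.range (p.1.2.1 + 1)) (g := fun p i =>
    (bfs p.1.1.1 p.1.1.2.1 p.2 p.1.2.2.1 p.1.2.2.2 i).any (fun u => V (p.1.2.2.1, u)))
    (by fun_prop) ?_
  refine FP.anyB (l := fun p : (((ℕ × ℕ × ℕ) × ℕ × List Bool × List (List Bool)) × ℕ) × ℕ =>
    bfs p.1.1.1.1 p.1.1.1.2.1 p.1.2 p.1.1.2.2.1 p.1.1.2.2.2 p.2)
    (g := fun p u => V (p.1.1.2.2.1, u)) ?_ ?_
  · exact FP.comp (f := fun p : (((ℕ × ℕ × ℕ) × ℕ × List Bool × List (List Bool)) × ℕ) × ℕ =>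
      ((p.1.1.1.1, p.1.1.1.2.1, p.1.2), p.1.1.2.2.1, p.1.1.2.2.2, p.2)) (h8 .poly).2
      (by fun_prop)
  · exact FP.comp (f := fun p : ((((ℕ × ℕ × ℕ) × ℕ × List Bool × List (List Bool)) × ℕ) × ℕ) ×
      List Bool => (p.1.1.1.2.2.1, p.2)) hV (by fun_prop)

end RKNP
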