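import Pool.Agent.Lib.MP_69204b_lc.Stm

/-! Number of binary digits. -/

namespace RKNP

open HerCo Function

theorem F11_pf (h1 : S_F1) : S_F11 := by
  intro md
  have hh := (h1 md).2.2.2.2.1
  have h2 : FP md (fun p : ℕ × ℕ => hlf p.1 p.2) := hh
  have h3 : FP md (fun n : ℕ =>
      ((List.range (n + 1)).filter (fun k => !(decide (hlf n k = 0)))).length) := by
    refine FP.length (FP.filter (l := fun n : ℕ => List.range (n + 1))
      (g := fun n k => !(decide (hlf n k = 0))) (by fun_prop) ?_)
    exact FP.not (FP.natIsZero h2)
  refine h3.congr fun n => ?_
  have h4 : ∀ k, (!(decide (hlf n k = 0))) = decide (k < Nat.size n) := by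
    intro k
    rw [hlf_eq, Bool.eq_iff_iff]
    simp only [Bool.not_eq_true', decide_eq_false_iff_not, decide_eq_true_eq]
    rw [Nat.div_eq_zero_iff, Nat.lt_size]
    have := Nat.two_pow_pos k
    omega
  have h5 : Nat.size n ≤ n + 1 := by
    rw [Nat.size_le]
    exact (Nat.lt_two_pow_self).trans (Nat.pow_lt_pow_right (by omega) (by omega))
  simp only [h4]
  have h6 : ∀ a b : ℕ, a ≤ b → ((List.range b).filter (fun k => decide (k < a))).length = a := by
    intro a b hab
    induction b with
    | zero => have : a = 0 := by omega
              subst this; simp
    | succ b ih =>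
      rw [List.range_succ, List.filter_append, List.length_append]
      rcases Nat.lt_or_ge b a with h | h
      · have hb : a = b + 1 := by omega
        subst hb
        have h7 : (List.range b).filter (fun k => decide (k < b + 1)) = List.range b := by
          rw [List.filter_eq_self]
          intro k hk
          rw [List.mem_range] at hk
          simp; omega
        rw [h7]; simp
      · rw [ih h]
        have : ¬ b < a := by omega
        simp [this]
  exact h6 _ _ h5

end RKNP
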