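import Pool.Agent.Lib.MP_69204b_lc.Stm

namespace RKNP

open HerCo

private theorem f12_take {α β : Type} [Enc α] [Enc β] {l : α → List β} {n : α → ℕ}
    (hl : FP .any l) (hn : FP .any n) : FP .any (fun a => (l a).take (n a)) := by
  have e : ∀ (l : List β) (n : ℕ), (l.reverse.drop (l.length - n)).reverse = l.take n := by
    intro l n
    rw [List.reverse_drop]
    simp only [List.reverse_reverse, List.length_reverse]
    by_cases h : n ≤ l.length
    · congr 1; omega
    · push Not at h
      have h1 : l.length - n = 0 := by omega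
      rw [h1, Nat.sub_zero, List.take_length, List.take_of_length_le h.le]
  refine (FP.reverse (l := fun a => (l a).reverse.drop ((l a).length - n a))
    (by fun_prop)).congr fun a => ?_
  rw [e]

private theorem f12_num {α : Type} [Enc α] {u : α → List Bool} (hu : FP .any u) :
    FP .any (fun a => num (u a)) := by
  unfold num
  refine FP.foldlAny (l := u) (g := fun _ => 0)
    (h := fun _ n b => 2 * n + (if b then 1 else 0)) hu (FP.const _) ?_
  exact FP.add (FP.mul (FP.const _) (by fun_prop))
    (FP.ite (c := fun p : α × ℕ × Bool => p.2.2) (by fun_prop) (FP.const _) (FP.const _))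

private theorem f12_big {α : Type} [Enc α] {r : α → ℕ} (hr : FP .any r) :
    FP .any (fun a => big (r a)) := by
  unfold big
  exact FP.powAny (FP.const _) (FP.powC hr 5)

private theorem f12_nz {α : Type} [Enc α] {r : α → ℕ} (hr : FP .any r) :
    FP .any (fun a => nz (r a)) := by
  unfold nz dd mm gg ell
  fun_prop

private theorem f12_mm {α : Type} [Enc α] {r : α → ℕ} (hr : FP .any r) :
    FP .any (fun a => mm (r a)) := by
  unfold mm
  fun_prop

private theorem f12_h1 : FP .any h1 := by
  unfold h1
  exact FP.length (FP.fstS FP.id)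

private theorem f12_h2 : FP .any h2 := f12_num (FP.fstS (FP.sndS FP.id))

private theorem f12_h3 : FP .any h3 := f12_num (FP.sndS (FP.sndS FP.id))

theorem F12_pf (h4 : S_F4) (h7 : S_F7) : S_F12 := by
  refine ⟨?_, ?_, f12_h1, f12_h2, f12_h3⟩
  · have e1 : FP .any (fun q : List Bool × List Bool × ℕ => h1 q.1) := f12_h1.comp (by fun_prop)
    have e2 : FP .any (fun q : List Bool × List Bool × ℕ => h2 q.1) := f12_h2.comp (by fun_prop)
    have e3 : FP .any (fun q : List Bool × List Bool × ℕ =>
        allB (big (h1 q.1)) (nz (h1 q.1) + mm (h1 q.1))) :=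
      FP.comp (f := fun q : List Bool × List Bool × ℕ =>
        (big (h1 q.1), nz (h1 q.1) + mm (h1 q.1))) (h4 .any).1
        (FP.pair (f12_big e1) (FP.add (f12_nz e1) (f12_mm e1)))
    exact FP.comp (f := fun q : List Bool × List Bool × ℕ =>
      ((big (h1 q.1), h1 q.1, h2 q.1), q.2.1,
        (allB (big (h1 q.1)) (nz (h1 q.1) + mm (h1 q.1))).getD q.2.2 [])) (h7 .any).2.1
      (FP.pair (FP.pair (f12_big e1) (FP.pair e1 e2))
        (FP.pair (by fun_prop) (FP.getD e3 (by fun_prop) (FP.const _))))
  · have e1 : FP .any (fun q : List Bool × List Bool × List Bool × List Bool => h1 q.1) :=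
      f12_h1.comp (by fun_prop)
    have e2 : FP .any (fun q : List Bool × List Bool × List Bool × List Bool => h2 q.1) :=
      f12_h2.comp (by fun_prop)
    have e3 : FP .any (fun q : List Bool × List Bool × List Bool × List Bool => h3 q.1) :=
      f12_h3.comp (by fun_prop)
    exact FP.comp (f := fun q : List Bool × List Bool × List Bool × List Bool =>
      ((big (h1 q.1), h1 q.1, h2 q.1), q.2.1, q.2.2.2, q.2.2.1.take (h3 q.1))) (h7 .any).2.2
      (FP.pair (FP.pair (f12_big e1) (FP.pair e1 e2))
        (FP.pair (by fun_prop) (FP.pair (by fun_prop) (f12_take (by fun_prop) e3))))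

end RKNP
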