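import Pool.Agent.Lib.MP_69204b_lc.Stm

/-! Truncated powers and numbers, halving. -/

namespace RKNP

open HerCo Function

theorem cap_le (M n : ℕ) : cap M n ≤ M := by
  unfold cap; split_ifs with h <;> omega

theorem F1a_pf : ∀ md : Mode,
    FP md (fun q : ℕ × ℕ => pw q.1 q.2) ∧
    FP md (fun q : ℕ × List Bool => numC q.1 q.2) ∧
    FP md (fun q : ℕ × ℕ => hlf q.1 q.2) := by
  intro md
  refine ⟨?_, ?_, ?_⟩
  · unfold pw cap
    refine FP.nat_iterate (init := fun _ : ℕ × ℕ => 1)
      (h := fun (q : ℕ × ℕ) (x : ℕ) => if 2 * x ≤ q.1 then 2 * x else q.1)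
      (n := fun q : ℕ × ℕ => q.2) (by fun_prop) (by fun_prop) (by fun_prop) fun hm => ?_
    subst hm
    have hB : FP .poly (fun q : ℕ × ℕ => q.1 + 1) := by fun_prop
    refine ⟨fun q => q.1 + 1, by simpa only [sz_nat] using hB.bd, fun a i hi => ?_⟩
    rw [sz_nat]
    clear hi
    cases i with
    | zero => simp
    | succ i =>
      rw [iterate_succ_apply']
      simp only
      split_ifs <;> omega
  · unfold numC cap
    refine FP.foldl (l := fun q : ℕ × List Bool => q.2) (g := fun _ => 0)
      (h := fun (q : ℕ × List Bool) (n : ℕ) (b : Bool) =>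
        if 2 * n + (if b then 1 else 0) ≤ q.1 then 2 * n + (if b then 1 else 0) else q.1)
      (by fun_prop) (by fun_prop) (by fun_prop) fun hm => ?_
    subst hm
    have hB : FP .poly (fun q : ℕ × List Bool => q.1 + 1) := by fun_prop
    refine ⟨fun q => q.1 + 1, by simpa only [sz_nat] using hB.bd, fun a l' hl' => ?_⟩
    rw [sz_nat]
    clear hl'
    induction l' using List.reverseRecOn with
    | nil => simp
    | append_singleton l b ih =>
      rw [List.foldl_append]
      simp only [List.foldl_cons, List.foldl_nil]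
      split_ifs <;> omega
  · unfold hlf
    refine FP.nat_iterate (init := fun q : ℕ × ℕ => q.1)
      (h := fun (_ : ℕ × ℕ) (x : ℕ) => x / 2)
      (n := fun q : ℕ × ℕ => q.2) (by fun_prop) (by fun_prop) (by fun_prop) fun hm => ?_
    subst hm
    have hB : FP .poly (fun q : ℕ × ℕ => q.1) := by fun_prop
    refine ⟨fun q => q.1, by simpa only [sz_nat] using hB.bd, fun a i hi => ?_⟩
    rw [sz_nat]
    clear hi
    induction i with
    | zero => exact le_rfl
    | succ i ih =>
      rw [iterate_succ_apply']
      simp only at ih ⊢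
      omega

end RKNP
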