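import Pool.Agent.Lib.MP_69204b_lc.Stm

/-! Inner product, Horner scheme, primality. -/

namespace RKNP

open HerCo Function

theorem F1b_pf : ∀ md : Mode,
    FP md (fun q : List Bool × ℕ => ip q.1 q.2) ∧
    FP md (fun q : ℕ × ℕ × List Bool => horner q.1 q.2.1 q.2.2) ∧
    FP md (fun q : ℕ => isPr q) := by
  intro md
  refine ⟨?_, ?_, ?_⟩
  · unfold ip
    refine FP.snd ?_
    have hx : FP md (fun p : (List Bool × ℕ) × (ℕ × Bool) × Bool =>
        (p.2.1.1 / 2, xor p.2.1.2 (p.2.2 && decide (p.2.1.1 % 2 = 1)))) := by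
      refine FP.pair (by fun_prop) ?_
      have h1 : FP md (fun p : (List Bool × ℕ) × (ℕ × Bool) × Bool => p.2.1.2) := by fun_prop
      have h2 : FP md (fun p : (List Bool × ℕ) × (ℕ × Bool) × Bool =>
        (p.2.2 && decide (p.2.1.1 % 2 = 1))) := by fun_prop
      refine (FP.ite h1 (h2.not) h2).congr fun p => ?_
      cases p.2.1.2 <;> simp
    refine FP.foldl (l := fun q : List Bool × ℕ => q.1) (g := fun q => (q.2, false))
      (h := fun (_ : List Bool × ℕ) (s : ℕ × Bool) (b : Bool) =>
        (s.1 / 2, xor s.2 (b && decide (s.1 % 2 = 1))))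
      (by fun_prop) (by fun_prop) hx fun hm => ?_
    subst hm
    have hB : FP .poly (fun q : List Bool × ℕ => 2 * q.2 + 2) := by fun_prop
    refine ⟨fun q => 2 * q.2 + 2, by simpa only [sz_nat] using hB.bd, fun a l' hl' => ?_⟩
    rw [sz_prod, sz_nat, sz_bool]
    have key : (l'.foldl (fun (s : ℕ × Bool) (b : Bool) =>
        (s.1 / 2, xor s.2 (b && decide (s.1 % 2 = 1)))) (a.2, false)).1 ≤ a.2 := by
      clear hl'
      induction l' using List.reverseRecOn with
      | nil => simp
      | append_singleton l b ih =>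
        rw [List.foldl_append]
        simp only [List.foldl_cons, List.foldl_nil]
        omega
    beta_reduce
    omega
  · unfold horner
    refine FP.foldl (l := fun q : ℕ × ℕ × List Bool => q.2.2) (g := fun _ => 0)
      (h := fun (q : ℕ × ℕ × List Bool) (s : ℕ) (b : Bool) =>
        if q.1 = 0 then 0 else (s * q.2.1 + (if b then 1 else 0)) % q.1)
      (by fun_prop) (by fun_prop) (by fun_prop) fun hm => ?_
    subst hm
    have hB : FP .poly (fun q : ℕ × ℕ × List Bool => q.1) := by fun_prop
    refine ⟨fun q => q.1, by simpa only [sz_nat] using hB.bd, fun a l' hl' => ?_⟩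
    rw [sz_nat]
    clear hl'
    induction l' using List.reverseRecOn with
    | nil => simp
    | append_singleton l b ih =>
      rw [List.foldl_append]
      simp only [List.foldl_cons, List.foldl_nil]
      split_ifs with h1
      · omega
      · exact (Nat.mod_lt _ (Nat.pos_of_ne_zero h1)).le
      · exact (Nat.mod_lt _ (Nat.pos_of_ne_zero h1)).le
  · unfold isPr
    fun_prop

end RKNP
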