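import Pool.Agent.Lib.MP_69204b_lc.Stm

/-! The prime number. -/

namespace RKNP

open HerCo Function

theorem F2_pf (h1 : S_F1) : S_F2 := by
  intro md
  obtain ⟨hpw, _, _, _, _, hpr⟩ := h1 md
  unfold prm
  refine FP.getD (l := fun q : ℕ × ℕ =>
    (List.range (q.1 + 1)).filter (fun p => decide (pw q.1 q.2 ≤ p) && isPr p))
    (n := fun _ => 0) (f := fun _ => 0) ?_ (by fun_prop) (by fun_prop)
  refine FP.filter (l := fun q : ℕ × ℕ => List.range (q.1 + 1))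
    (g := fun q p => decide (pw q.1 q.2 ≤ p) && isPr p) (by fun_prop) ?_
  have h2 : FP md (fun p : (ℕ × ℕ) × ℕ => pw p.1.1 p.1.2) :=
    FP.comp (f := fun p : (ℕ × ℕ) × ℕ => p.1) hpw (by fun_prop)
  have h3 : FP md (fun p : (ℕ × ℕ) × ℕ => isPr p.2) :=
    FP.comp (f := fun p : (ℕ × ℕ) × ℕ => p.2) hpr (by fun_prop)
  have h4 : FP md (fun p : (ℕ × ℕ) × ℕ => p.2) := by fun_prop
  exact (h2.natLe h4).and h3

end RKNP
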