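import Pool.Agent.Lib.MP_69204b_lc.Stm

/-! `List.take` and sums. -/

namespace RKNP

open HerCo Function

theorem F3_pf : S_F3 := by
  intro md
  refine ⟨fun α _ => ?_, ?_⟩
  · have h : FP md (fun q : ℕ × List α => (q.2.reverse.drop (q.2.length - q.1)).reverse) := by
      fun_prop
    refine h.congr fun q => ?_
    rw [List.drop_reverse, List.reverse_reverse]
    by_cases hq : q.1 ≤ q.2.length
    · congr 1; omega
    · rw [List.take_of_length_le (by omega), List.take_of_length_le (by omega)]
  · have e : ∀ (l : List ℕ) (c : ℕ), l.foldl (fun s x => s + x) c = c + l.sum := by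
      intro l
      induction l with
      | nil => intro c; simp
      | cons b l ih => intro c; rw [List.foldl_cons, ih, List.sum_cons]; ring
    have h : FP md (fun l : List ℕ => l.foldl (fun s x => s + x) 0) := by
      refine FP.foldl (l := fun l : List ℕ => l) (g := fun _ => 0)
        (h := fun (_ : List ℕ) (s : ℕ) (x : ℕ) => s + x)
        (by fun_prop) (by fun_prop) (by fun_prop) fun hm => ?_
      subst hm
      refine ⟨fun l => sz l, Bd.sz, fun a l' hl' => ?_⟩
      rw [sz_nat, e, Nat.zero_add]
      refine le_trans ?_ (sz_le_of_prefix hl')
      clear hl'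
      induction l' with
      | nil => simp
      | cons b l ih => rw [List.sum_cons, sz_cons, sz_nat]; omega
    refine h.congr fun l => ?_
    rw [e, Nat.zero_add]

end RKNP
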