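import Pool.Agent.Lib.MP_69204b_lc.Stm

/-! Enumerations. -/

namespace RKNP

open HerCo Function

theorem F4_pf (h3 : S_F3) : S_F4 := by
  intro md
  refine ⟨?_, ?_⟩
  · unfold allB
    have hs : FP md (fun p : (ℕ × ℕ) × List (List Bool) =>
        (p.2.flatMap (fun u => [false :: u, true :: u])).take p.1.1) := by
      have h4 : FP md (fun p : (ℕ × ℕ) × List (List Bool) =>
        (p.1.1, p.2.flatMap (fun u => [false :: u, true :: u]))) := by fun_prop
      exact FP.comp (f := fun p : (ℕ × ℕ) × List (List Bool) =>
        (p.1.1, p.2.flatMap (fun u => [false :: u, true :: u]))) ((h3 md).1 (List Bool)) h4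
    refine FP.nat_iterate (init := fun _ : ℕ × ℕ => [([] : List Bool)])
      (h := fun (q : ℕ × ℕ) (L : List (List Bool)) =>
        (L.flatMap (fun u => [false :: u, true :: u])).take q.1)
      (n := fun q : ℕ × ℕ => q.2) (by fun_prop) hs (by fun_prop) fun hm => ?_
    subst hm
    have hB : FP .poly (fun q : ℕ × ℕ => (q.1 + 1) * (2 * (3 * q.2) + 1)) := by fun_prop
    refine ⟨fun q => (q.1 + 1) * (2 * (3 * q.2) + 1), by simpa only [sz_nat] using hB.bd,
      fun a i hi => ?_⟩
    have key : ∀ j, ((fun (L : List (List Bool)) =>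
        (L.flatMap (fun u => [false :: u, true :: u])).take a.1)^[j] [[]]).length ≤ a.1 + 1 ∧
        ∀ u ∈ ((fun (L : List (List Bool)) =>
          (L.flatMap (fun u => [false :: u, true :: u])).take a.1)^[j] [[]]), u.length ≤ j := by
      intro j
      induction j with
      | zero => simp
      | succ j ih =>
        rw [iterate_succ_apply']
        refine ⟨?_, fun u hu => ?_⟩
        · rw [List.length_take]; omega
        · have h5 := List.mem_of_mem_take hu
          rw [List.mem_flatMap] at h5
          obtain ⟨v, hv, hv'⟩ := h5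
          have h6 := ih.2 v hv
          simp only [List.mem_cons, List.not_mem_nil, or_false] at hv'
          rcases hv' with rfl | rfl <;> simp <;> omega
    obtain ⟨k1, k2⟩ := key i
    refine (sz_le_of_all _ (3 * a.2) fun u hu => ?_).trans (Nat.mul_le_mul_right _ k1)
    rw [sz_boolList]
    have := k2 u hu
    omega
  · unfold allF
    have hs : FP md (fun p : (ℕ × ℕ × ℕ) × List (List ℕ) =>
        (p.2.flatMap (fun c => (List.range p.1.2.1).map (fun b => b :: c))).take p.1.1) := by
      have h4 : FP md (fun p : (ℕ × ℕ × ℕ) × List (List ℕ) =>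
        (p.1.1, p.2.flatMap (fun c => (List.range p.1.2.1).map (fun b => b :: c)))) := by
        fun_prop
      exact FP.comp (f := fun p : (ℕ × ℕ × ℕ) × List (List ℕ) =>
        (p.1.1, p.2.flatMap (fun c => (List.range p.1.2.1).map (fun b => b :: c))))
        ((h3 md).1 (List ℕ)) h4
    refine FP.nat_iterate (init := fun _ : ℕ × ℕ × ℕ => [([] : List ℕ)])
      (h := fun (q : ℕ × ℕ × ℕ) (L : List (List ℕ)) =>
        (L.flatMap (fun c => (List.range q.2.1).map (fun b => b :: c))).take q.1)
      (n := fun q : ℕ × ℕ × ℕ => q.2.2) (by fun_prop) hs (by fun_prop) fun hm => ?_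
    subst hm
    have hB : FP .poly (fun q : ℕ × ℕ × ℕ =>
      (q.1 + 1) * (2 * (q.2.2 * (2 * q.2.1 + 1)) + 1)) := by fun_prop
    refine ⟨fun q => (q.1 + 1) * (2 * (q.2.2 * (2 * q.2.1 + 1)) + 1),
      by simpa only [sz_nat] using hB.bd, fun a i hi => ?_⟩
    have key : ∀ j, ((fun (L : List (List ℕ)) =>
        (L.flatMap (fun c => (List.range a.2.1).map (fun b => b :: c))).take a.1)^[j]
          [[]]).length ≤ a.1 + 1 ∧
        ∀ u ∈ ((fun (L : List (List ℕ)) =>
          (L.flatMap (fun c => (List.range a.2.1).map (fun b => b :: c))).take a.1)^[j] [[]]),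
          u.length ≤ j ∧ ∀ b ∈ u, b ≤ a.2.1 := by
      intro j
      induction j with
      | zero => simp
      | succ j ih =>
        rw [iterate_succ_apply']
        refine ⟨?_, fun u hu => ?_⟩
        · rw [List.length_take]; omega
        · have h5 := List.mem_of_mem_take hu
          rw [List.mem_flatMap] at h5
          obtain ⟨v, hv, hv'⟩ := h5
          have h6 := ih.2 v hv
          rw [List.mem_map] at hv'
          obtain ⟨b, hb, rfl⟩ := hv'
          rw [List.mem_range] at hb
          refine ⟨by simp; omega, fun c hc => ?_⟩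
          rcases List.mem_cons.1 hc with rfl | hc
          · omega
          · exact h6.2 c hc
    obtain ⟨k1, k2⟩ := key i
    refine (sz_le_of_all _ (a.2.2 * (2 * a.2.1 + 1)) fun u hu => ?_).trans
      (Nat.mul_le_mul_right _ k1)
    obtain ⟨k3, k4⟩ := k2 u hu
    refine (sz_le_of_all u a.2.1 fun b hb => by rw [sz_nat]; exact k4 b hb).trans ?_
    exact Nat.mul_le_mul_right _ (k3.trans hi)

end RKNP
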