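import Pool.Agent.Lib.MP_69204b_lc.Stm

/-! The design. -/

namespace RKNP

open HerCo Function

theorem mem_allF_of (M g k : ℕ) : ∀ c ∈ allF M g k, c.length = k ∧ ∀ b ∈ c, b < g := by
  unfold allF
  induction k with
  | zero => simp
  | succ k ih =>
    intro c hc
    rw [iterate_succ_apply'] at hc
    have h1 := List.mem_of_mem_take hc
    rw [List.mem_flatMap] at h1
    obtain ⟨v, hv, hv'⟩ := h1
    have h2 := ih v hv
    rw [List.mem_map] at hv'
    obtain ⟨b, hb, rfl⟩ := hv'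
    rw [List.mem_range] at hb
    refine ⟨by simp [h2.1], fun c hc => ?_⟩
    rcases List.mem_cons.1 hc with rfl | hc
    · exact hb
    · exact h2.2 c hc

theorem sz_of_allF (M g l : ℕ) (c : List ℕ) (h : c = [] ∨ c ∈ allF M g l) :
    sz c ≤ l * (2 * g + 1) := by
  rcases h with rfl | h
  · simp
  · obtain ⟨h1, h2⟩ := mem_allF_of M g l c h
    refine (sz_le_of_all c g fun b hb => by rw [sz_nat]; exact (h2 b hb).le).trans ?_
    rw [h1]

theorem dsgStep_mem (M g l : ℕ) (D : List (List ℕ)) :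
    (dsgStep M g l D).length = D.length + 1 ∧
      ∀ c ∈ dsgStep M g l D, c ∈ D ∨ c = [] ∨ c ∈ allF M g l := by
  unfold dsgStep
  refine ⟨by simp, fun c hc => ?_⟩
  rw [List.mem_append, List.mem_singleton] at hc
  rcases hc with hc | hc
  · exact .inl hc
  · right
    rw [List.getD_eq_getElem?_getD] at hc
    cases h : ((allF M g l).filter (fun c =>
      decide ((D.map (fun c' => pw M (agr l c c'))).sum ≤ 2 * D.length)))[0]? with
    | none =>
      rw [h] at hc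
      exact .inl hc
    | some c' =>
      rw [h] at hc
      have h5 := List.mem_of_getElem? h
      right
      have hc' : c = c' := hc
      rw [hc']
      exact (List.mem_filter.1 h5).1

theorem F5_pf (h1 : S_F1) (h3 : S_F3) (h4 : S_F4) : S_F5 := by
  intro md
  obtain ⟨hpw, _, _, _, _, _⟩ := h1 md
  have hagr : FP md (fun p : ℕ × List ℕ × List ℕ => agr p.1 p.2.1 p.2.2) := by
    unfold agr
    fun_prop
  have hsum := (h3 md).2
  have hallF := (h4 md).2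
  -- the test; arguments `((q, D), c)`
  have t1 : FP md (fun s : (((ℕ × ℕ × ℕ × ℕ) × List (List ℕ)) × List ℕ) × List ℕ =>
      agr s.1.1.1.2.2.1 s.1.2 s.2) :=
    FP.comp (f := fun s : (((ℕ × ℕ × ℕ × ℕ) × List (List ℕ)) × List ℕ) × List ℕ =>
      (s.1.1.1.2.2.1, s.1.2, s.2)) hagr (by fun_prop)
  have t2 : FP md (fun s : (((ℕ × ℕ × ℕ × ℕ) × List (List ℕ)) × List ℕ) × List ℕ =>
      pw s.1.1.1.1 (agr s.1.1.1.2.2.1 s.1.2 s.2)) :=
    FP.comp (f := fun s : (((ℕ × ℕ × ℕ × ℕ) × List (List ℕ)) × List ℕ) × List ℕ =>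
      (s.1.1.1.1, agr s.1.1.1.2.2.1 s.1.2 s.2)) hpw (FP.pair (by fun_prop) t1)
  have t3 : FP md (fun s : ((ℕ × ℕ × ℕ × ℕ) × List (List ℕ)) × List ℕ =>
      s.1.2.map (fun c' => pw s.1.1.1 (agr s.1.1.2.2.1 s.2 c'))) :=
    FP.map (l := fun s : ((ℕ × ℕ × ℕ × ℕ) × List (List ℕ)) × List ℕ => s.1.2)
      (g := fun s c' => pw s.1.1.1 (agr s.1.1.2.2.1 s.2 c')) (by fun_prop) t2
  have t4 : FP md (fun s : ((ℕ × ℕ × ℕ × ℕ) × List (List ℕ)) × List ℕ =>
      (s.1.2.map (fun c' => pw s.1.1.1 (agr s.1.1.2.2.1 s.2 c'))).sum) :=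
    FP.comp (f := fun s : ((ℕ × ℕ × ℕ × ℕ) × List (List ℕ)) × List ℕ =>
      s.1.2.map (fun c' => pw s.1.1.1 (agr s.1.1.2.2.1 s.2 c'))) hsum t3
  have t5 : FP md (fun s : ((ℕ × ℕ × ℕ × ℕ) × List (List ℕ)) × List ℕ =>
      decide ((s.1.2.map (fun c' => pw s.1.1.1 (agr s.1.1.2.2.1 s.2 c'))).sum
        ≤ 2 * s.1.2.length)) :=
    FP.natLe t4 (by fun_prop)
  have t6 : FP md (fun s : (ℕ × ℕ × ℕ × ℕ) × List (List ℕ) =>
      allF s.1.1 s.1.2.1 s.1.2.2.1) :=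
    FP.comp (f := fun s : (ℕ × ℕ × ℕ × ℕ) × List (List ℕ) => (s.1.1, s.1.2.1, s.1.2.2.1))
      hallF (by fun_prop)
  have t7 : FP md (fun s : (ℕ × ℕ × ℕ × ℕ) × List (List ℕ) =>
      (allF s.1.1 s.1.2.1 s.1.2.2.1).filter (fun c =>
        decide ((s.2.map (fun c' => pw s.1.1 (agr s.1.2.2.1 c c'))).sum ≤ 2 * s.2.length))) :=
    FP.filter (l := fun s : (ℕ × ℕ × ℕ × ℕ) × List (List ℕ) =>
      allF s.1.1 s.1.2.1 s.1.2.2.1)
      (g := fun s c =>
        decide ((s.2.map (fun c' => pw s.1.1 (agr s.1.2.2.1 c c'))).sum ≤ 2 * s.2.length))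
      t6 t5
  have t8 : FP md (fun s : (ℕ × ℕ × ℕ × ℕ) × List (List ℕ) =>
      ((allF s.1.1 s.1.2.1 s.1.2.2.1).filter (fun c =>
        decide ((s.2.map (fun c' => pw s.1.1 (agr s.1.2.2.1 c c'))).sum
          ≤ 2 * s.2.length))).getD 0 []) :=
    FP.getD t7 (by fun_prop) (by fun_prop)
  have hs : FP md (fun s : (ℕ × ℕ × ℕ × ℕ) × List (List ℕ) =>
      dsgStep s.1.1 s.1.2.1 s.1.2.2.1 s.2) := by
    unfold dsgStep
    refine FP.append (by fun_prop) (FP.cons t8 (by fun_prop))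
  unfold dsg
  refine FP.nat_iterate (init := fun _ : ℕ × ℕ × ℕ × ℕ => ([] : List (List ℕ)))
    (h := fun (q : ℕ × ℕ × ℕ × ℕ) (D : List (List ℕ)) => dsgStep q.1 q.2.1 q.2.2.1 D)
    (n := fun q : ℕ × ℕ × ℕ × ℕ => q.2.2.2) (by fun_prop) hs (by fun_prop) fun hm => ?_
  subst hm
  have hB : FP .poly (fun q : ℕ × ℕ × ℕ × ℕ =>
    q.2.2.2 * (2 * (q.2.2.1 * (2 * q.2.1 + 1)) + 1)) := by fun_prop
  refine ⟨fun q => q.2.2.2 * (2 * (q.2.2.1 * (2 * q.2.1 + 1)) + 1),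
    by simpa only [sz_nat] using hB.bd, fun a i hi => ?_⟩
  have key : ∀ j, ((fun (D : List (List ℕ)) => dsgStep a.1 a.2.1 a.2.2.1 D)^[j] []).length = j ∧
      ∀ c ∈ ((fun (D : List (List ℕ)) => dsgStep a.1 a.2.1 a.2.2.1 D)^[j] []),
        c = [] ∨ c ∈ allF a.1 a.2.1 a.2.2.1 := by
    intro j
    induction j with
    | zero => simp
    | succ j ih =>
      rw [iterate_succ_apply']
      have h5 := dsgStep_mem a.1 a.2.1 a.2.2.1
        ((fun (D : List (List ℕ)) => dsgStep a.1 a.2.1 a.2.2.1 D)^[j] [])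
      refine ⟨by rw [h5.1, ih.1], fun c hc => ?_⟩
      rcases h5.2 c hc with h | h
      · exact ih.2 c h
      · exact h
  obtain ⟨k1, k2⟩ := key i
  refine (sz_le_of_all _ (a.2.2.1 * (2 * a.2.1 + 1)) fun u hu =>
    sz_of_allF _ _ _ _ (k2 u hu)).trans ?_
  refine Nat.mul_le_mul_right _ ?_
  exact k1.le.trans hi

end RKNP
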