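import Pool.Agent.Lib.MP_69204b_lc.Stm

/-! Code and fingerprints. -/

namespace RKNP

open HerCo Function

theorem F6_pf (h1 : S_F1) (h2 : S_F2) (h3 : S_F3) : S_F6 := by
  intro md
  obtain ⟨hpw, hnum, hip, hho, _, hpr⟩ := h1 md
  have hcb : FP md (fun q : (ℕ × ℕ × ℕ) × List Bool × List Bool =>
      cbit q.1.1 q.1.2.1 q.1.2.2 q.2.1 q.2.2) := by
    unfold cbit
    have t1 : FP md (fun q : (ℕ × ℕ × ℕ) × List Bool × List Bool => q.2.2.take q.1.2.2) :=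
      FP.comp (f := fun q : (ℕ × ℕ × ℕ) × List Bool × List Bool => (q.1.2.2, q.2.2))
        ((h3 md).1 Bool) (by fun_prop)
    have t2 : FP md (fun q : (ℕ × ℕ × ℕ) × List Bool × List Bool =>
        numC q.1.1 (q.2.2.take q.1.2.2)) :=
      FP.comp (f := fun q : (ℕ × ℕ × ℕ) × List Bool × List Bool =>
        (q.1.1, q.2.2.take q.1.2.2)) hnum (FP.pair (by fun_prop) t1)
    have t3 : FP md (fun q : (ℕ × ℕ × ℕ) × List Bool × List Bool =>
        horner q.1.2.1 (numC q.1.1 (q.2.2.take q.1.2.2)) q.2.1) :=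
      FP.comp (f := fun q : (ℕ × ℕ × ℕ) × List Bool × List Bool =>
        (q.1.2.1, numC q.1.1 (q.2.2.take q.1.2.2), q.2.1)) hho
        (FP.pair (by fun_prop) (FP.pair t2 (by fun_prop)))
    exact FP.comp (f := fun q : (ℕ × ℕ × ℕ) × List Bool × List Bool =>
      (q.2.2.drop q.1.2.2, horner q.1.2.1 (numC q.1.1 (q.2.2.take q.1.2.2)) q.2.1)) hip
      (FP.pair (by fun_prop) t3)
  refine ⟨hcb, ?_⟩
  unfold hsh
  refine FP.map (l := fun q : (ℕ × ℕ × ℕ) × List Bool × List Bool => List.range q.1.2.2)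
    (g := fun q j => cbit q.1.1 (prm q.1.1 q.1.2.1) q.1.2.1 q.2.1
      ((q.2.2.drop (j * ell q.1.2.1)).take (ell q.1.2.1))) (by fun_prop) ?_
  have s1 : FP md (fun p : ((ℕ × ℕ × ℕ) × List Bool × List Bool) × ℕ =>
      prm p.1.1.1 p.1.1.2.1) :=
    FP.comp (f := fun p : ((ℕ × ℕ × ℕ) × List Bool × List Bool) × ℕ =>
      (p.1.1.1, p.1.1.2.1)) (h2 md) (by fun_prop)
  have s2 : FP md (fun p : ((ℕ × ℕ × ℕ) × List Bool × List Bool) × ℕ =>
      ((p.1.2.2.drop (p.2 * ell p.1.1.2.1)).take (ell p.1.1.2.1))) :=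
    FP.comp (f := fun p : ((ℕ × ℕ × ℕ) × List Bool × List Bool) × ℕ =>
      (ell p.1.1.2.1, p.1.2.2.drop (p.2 * ell p.1.1.2.1))) ((h3 md).1 Bool)
      (by unfold ell; fun_prop)
  exact FP.comp (f := fun p : ((ℕ × ℕ × ℕ) × List Bool × List Bool) × ℕ =>
    ((p.1.1.1, prm p.1.1.1 p.1.1.2.1, p.1.1.2.1), p.1.2.1,
      ((p.1.2.2.drop (p.2 * ell p.1.1.2.1)).take (ell p.1.1.2.1)))) hcb
    (FP.pair (FP.pair (by fun_prop) (FP.pair s1 (by fun_prop)))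
      (FP.pair (by fun_prop) s2))

end RKNP
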