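import Pool.Agent.Lib.MP_69204b_lc.Stm

namespace RKNP

open HerCo

private theorem f7_take {α β : Type} [Enc α] [Enc β] {md : Mode} (h3 : S_F3) {l : α → List β}
    {n : α → ℕ} (hl : FP md l) (hn : FP md n) : FP md (fun a => (l a).take (n a)) :=
  FP.comp (f := fun a => (n a, l a)) ((h3 md).1 β) (hn.pair hl)

private theorem f7_seedAt {α : Type} [Enc α] {md : Mode} {r k : α → ℕ}
    {c : α → List ℕ} {z : α → List Bool} (hr : FP md r) (hk : FP md k) (hc : FP md c)
    (hz : FP md z) : FP md (fun a => seedAt (r a) (k a) (c a) (z a)) := by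
  unfold seedAt gg ell
  exact FP.map (l := fun a => List.range (2 * r a + 1))
    (g := fun a j => (z a).getD (k a * ((2 * r a + 1) * (2 * (2 * r a + 1))) +
      (j * (2 * (2 * r a + 1)) + (c a).getD j 0)) false) (by fun_prop) (by fun_prop)

private theorem f7_ext {α : Type} [Enc α] {md : Mode} (h1 : S_F1) (h2 : S_F2) (h5 : S_F5)
    (h6 : S_F6) {M r l : α → ℕ} {x z : α → List Bool} (hM : FP md M) (hr : FP md r)
    (hl : FP md l) (hx : FP md x) (hz : FP md z) :
    FP md (fun a => ext (M a) (r a) (l a) (x a) (z a)) := by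
  unfold ext
  refine FP.flatMap (l := fun a => List.range (r a)) (g := fun a k =>
    (List.range (blk (l a) k)).map (fun i =>
    cbit (M a) (prm (M a) (r a)) (r a) (x a)
      (seedAt (r a) k ((dsg (M a) (gg (r a)) (ell (r a)) (l a)).getD i []) (z a))))
    (by fun_prop) ?_
  have hlf1 : FP md (fun p : α × ℕ => hlf (l p.1) p.2) :=
    FP.comp (f := fun p : α × ℕ => (l p.1, p.2)) (h1 md).2.2.2.2.1 (by fun_prop)
  have hlf2 : FP md (fun p : α × ℕ => hlf (l p.1) (p.2 + 1)) :=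
    FP.comp (f := fun p : α × ℕ => (l p.1, p.2 + 1)) (h1 md).2.2.2.2.1 (by fun_prop)
  have hblk : FP md (fun p : α × ℕ => blk (l p.1) p.2) := FP.sub hlf1 hlf2
  refine FP.map (l := fun p : α × ℕ => List.range (blk (l p.1) p.2)) (g := fun p i =>
    cbit (M p.1) (prm (M p.1) (r p.1)) (r p.1) (x p.1)
      (seedAt (r p.1) p.2 ((dsg (M p.1) (gg (r p.1)) (ell (r p.1)) (l p.1)).getD i [])
        (z p.1))) (FP.range hblk) ?_
  have hp : FP md (fun p : (α × ℕ) × ℕ => prm (M p.1.1) (r p.1.1)) :=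
    FP.comp (f := fun p : (α × ℕ) × ℕ => (M p.1.1, r p.1.1)) (h2 md) (by fun_prop)
  have hgg : FP md (fun p : (α × ℕ) × ℕ => gg (r p.1.1)) := by
    unfold gg ell
    fun_prop
  have hell : FP md (fun p : (α × ℕ) × ℕ => ell (r p.1.1)) := by
    unfold ell
    fun_prop
  have hd : FP md (fun p : (α × ℕ) × ℕ =>
      dsg (M p.1.1) (gg (r p.1.1)) (ell (r p.1.1)) (l p.1.1)) :=
    FP.comp (f := fun p : (α × ℕ) × ℕ =>
      (M p.1.1, gg (r p.1.1), ell (r p.1.1), l p.1.1)) (h5 md)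
      (FP.pair (by fun_prop) (FP.pair hgg (FP.pair hell (by fun_prop))))
  exact FP.comp (f := fun p : (α × ℕ) × ℕ =>
    ((M p.1.1, prm (M p.1.1) (r p.1.1), r p.1.1), x p.1.1,
      seedAt (r p.1.1) p.1.2
        ((dsg (M p.1.1) (gg (r p.1.1)) (ell (r p.1.1)) (l p.1.1)).getD p.2 []) (z p.1.1)))
    (h6 md).1
    (FP.pair (FP.pair (by fun_prop) (FP.pair hp (by fun_prop))) (FP.pair (by fun_prop)
      (f7_seedAt (by fun_prop) (by fun_prop) (FP.getD hd (by fun_prop) (FP.const _))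
        (by fun_prop))))

private theorem f7_qry {α : Type} [Enc α] {md : Mode} (h1 : S_F1) (h2 : S_F2) (h3 : S_F3)
    (h5 : S_F5) (h6 : S_F6) {M r l : α → ℕ} {x w : α → List Bool} (hM : FP md M)
    (hr : FP md r) (hl : FP md l) (hx : FP md x) (hw : FP md w) :
    FP md (fun a => qry (M a) (r a) (l a) (x a) (w a)) := by
  have hdd : FP md (fun a => dd (r a)) := by
    unfold dd gg ell
    fun_prop
  have ht : FP md (fun a => (w a).take (dd (r a))) := f7_take h3 hw hdd
  exact FP.append ht (FP.append (f7_ext h1 h2 h5 h6 hM hr hl hx ht) (FP.drop hw hdd))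

theorem F7_pf (h1 : S_F1) (h2 : S_F2) (h3 : S_F3) (h5 : S_F5) (h6 : S_F6) : S_F7 := by
  intro md
  refine ⟨?_, ?_, ?_⟩
  · exact f7_ext h1 h2 h5 h6 (by fun_prop) (by fun_prop) (by fun_prop) (by fun_prop)
      (by fun_prop)
  · exact f7_qry h1 h2 h3 h5 h6 (by fun_prop) (by fun_prop) (by fun_prop) (by fun_prop)
      (by fun_prop)
  · have hdd : FP md (fun q : (ℕ × ℕ × ℕ) × List Bool × List Bool × List Bool =>
        dd q.1.2.1) := by
      unfold dd gg ell
      fun_prop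
    have hmm : FP md (fun q : (ℕ × ℕ × ℕ) × List Bool × List Bool × List Bool =>
        mm q.1.2.1) := by
      unfold mm
      fun_prop
    refine f7_qry h1 h2 h3 h5 h6 (w := fun q : (ℕ × ℕ × ℕ) × List Bool × List Bool × List Bool =>
      q.2.2.1 ++ hsh q.1.1 q.1.2.1 (mm q.1.2.1) q.2.2.2 (q.2.2.1.drop (dd q.1.2.1)))
      (by fun_prop) (by fun_prop) (by fun_prop) (by fun_prop) (FP.append (by fun_prop) ?_)
    exact FP.comp (f := fun q : (ℕ × ℕ × ℕ) × List Bool × List Bool × List Bool =>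
      ((q.1.1, q.1.2.1, mm q.1.2.1), q.2.2.2, q.2.2.1.drop (dd q.1.2.1))) (h6 md).2
      (FP.pair (FP.pair (by fun_prop) (FP.pair (by fun_prop) hmm)) (FP.pair (by fun_prop)
        (FP.drop (by fun_prop) hdd)))

end RKNP
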