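import Pool.Agent.Lib.MP_69204b_lc.Stm

namespace RKNP

open HerCo Function

private theorem f8_srv {α : Type} [Enc α] {md : Mode} (h4 : S_F4) (h7 : S_F7)
    {M r l : α → ℕ} {x u : α → List Bool} {T : α → List (List Bool)} (hM : FP md M)
    (hr : FP md r) (hl : FP md l) (hx : FP md x) (hT : FP md T) (hu : FP md u) :
    FP md (fun a => srv (M a) (r a) (l a) (x a) (T a) (u a)) := by
  have hnz : FP md (fun a => nz (r a)) := by
    unfold nz dd mm gg ell
    fun_prop
  have hA : FP md (fun a => allB (M a) (nz (r a))) :=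
    FP.comp (f := fun a => (M a, nz (r a))) (h4 md).1 (hM.pair hnz)
  have hq : FP md (fun p : α × List Bool => qryU (M p.1) (r p.1) (l p.1) (x p.1) p.2 (u p.1)) :=
    FP.comp (f := fun p : α × List Bool => ((M p.1, r p.1, l p.1), x p.1, p.2, u p.1))
      (h7 md).2.2 (by fun_prop)
  have he : FP md (fun p : α × List Bool =>
      !(decide (qryU (M p.1) (r p.1) (l p.1) (x p.1) p.2 (u p.1) ∈ T p.1))) :=
    (FP.not (FP.elem (f := fun p : α × List Bool =>
      qryU (M p.1) (r p.1) (l p.1) (x p.1) p.2 (u p.1)) (l := fun p : α × List Bool => T p.1)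
      hq (by fun_prop))).congr fun p => by
        rw [Bool.eq_iff_iff]
        simp
  have hf : FP md (fun a => (allB (M a) (nz (r a))).filter
      (fun b => !(decide (qryU (M a) (r a) (l a) (x a) b (u a) ∈ T a)))) :=
    FP.filter (l := fun a => allB (M a) (nz (r a))) (g := fun a b =>
      !(decide (qryU (M a) (r a) (l a) (x a) b (u a) ∈ T a))) hA
      he
  unfold srv
  exact FP.natLe (FP.mul (FP.const 7) (FP.length hA)) (FP.mul (FP.const 8) (FP.length hf))

theorem F8_pf (h3 : S_F3) (h4 : S_F4) (h7 : S_F7) : S_F8 := by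
  intro md
  refine ⟨?_, ?_⟩
  · exact f8_srv h4 h7 (by fun_prop) (by fun_prop) (by fun_prop) (by fun_prop) (by fun_prop)
      (by fun_prop)
  unfold bfs
  have hs : FP md (fun p : ((ℕ × ℕ × ℕ) × List Bool × List (List Bool) × ℕ) × List (List Bool) =>
      ((p.2.flatMap (fun u => [u ++ [false], u ++ [true]])).filter
        (fun u => srv p.1.1.1 p.1.1.2.1 p.1.1.2.2 p.1.2.1 p.1.2.2.1 u)).take p.1.1.1) := by
    have h5 : FP md (fun p : ((ℕ × ℕ × ℕ) × List Bool × List (List Bool) × ℕ) ×
        List (List Bool) => ((p.2.flatMap (fun u => [u ++ [false], u ++ [true]])).filter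
        (fun u => srv p.1.1.1 p.1.1.2.1 p.1.1.2.2 p.1.2.1 p.1.2.2.1 u))) := by
      refine FP.filter (l := fun p : ((ℕ × ℕ × ℕ) × List Bool × List (List Bool) × ℕ) ×
        List (List Bool) => p.2.flatMap (fun u => [u ++ [false], u ++ [true]]))
        (g := fun p u => srv p.1.1.1 p.1.1.2.1 p.1.1.2.2 p.1.2.1 p.1.2.2.1 u)
        (by fun_prop) ?_
      exact f8_srv h4 h7 (by fun_prop) (by fun_prop) (by fun_prop) (by fun_prop) (by fun_prop)
        (by fun_prop)
    exact FP.comp (f := fun p : ((ℕ × ℕ × ℕ) × List Bool × List (List Bool) × ℕ) ×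
      List (List Bool) => (p.1.1.1, ((p.2.flatMap (fun u => [u ++ [false], u ++ [true]])).filter
        (fun u => srv p.1.1.1 p.1.1.2.1 p.1.1.2.2 p.1.2.1 p.1.2.2.1 u))))
      ((h3 md).1 (List Bool)) (FP.pair (by fun_prop) h5)
  refine FP.nat_iterate (init := fun _ : (ℕ × ℕ × ℕ) × List Bool × List (List Bool) × ℕ =>
      [([] : List Bool)])
    (h := fun (q : (ℕ × ℕ × ℕ) × List Bool × List (List Bool) × ℕ) (L : List (List Bool)) =>
      ((L.flatMap (fun u => [u ++ [false], u ++ [true]])).filter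
        (fun u => srv q.1.1 q.1.2.1 q.1.2.2 q.2.1 q.2.2.1 u)).take q.1.1)
    (n := fun q : (ℕ × ℕ × ℕ) × List Bool × List (List Bool) × ℕ => q.2.2.2)
    (by fun_prop) hs (by fun_prop) fun hm => ?_
  subst hm
  have hB : FP .poly (fun q : (ℕ × ℕ × ℕ) × List Bool × List (List Bool) × ℕ =>
    (q.1.1 + 1) * (2 * (3 * q.2.2.2) + 1)) := by fun_prop
  refine ⟨fun q => (q.1.1 + 1) * (2 * (3 * q.2.2.2) + 1), by simpa only [sz_nat] using hB.bd,
    fun a i hi => ?_⟩
  have key : ∀ j, ((fun (L : List (List Bool)) =>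
      ((L.flatMap (fun u => [u ++ [false], u ++ [true]])).filter
        (fun u => srv a.1.1 a.1.2.1 a.1.2.2 a.2.1 a.2.2.1 u)).take a.1.1)^[j] [[]]).length
          ≤ a.1.1 + 1 ∧
      ∀ u ∈ ((fun (L : List (List Bool)) =>
        ((L.flatMap (fun u => [u ++ [false], u ++ [true]])).filter
          (fun u => srv a.1.1 a.1.2.1 a.1.2.2 a.2.1 a.2.2.1 u)).take a.1.1)^[j] [[]]),
        u.length ≤ j := by
    intro j
    induction j with
    | zero => simp
    | succ j ih =>
      rw [iterate_succ_apply']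
      refine ⟨?_, fun u hu => ?_⟩
      · rw [List.length_take]; omega
      · have h5 := List.mem_of_mem_filter (List.mem_of_mem_take hu)
        rw [List.mem_flatMap] at h5
        obtain ⟨v, hv, hv'⟩ := h5
        have h6 := ih.2 v hv
        simp only [List.mem_cons, List.not_mem_nil, or_false] at hv'
        rcases hv' with rfl | rfl <;> simp <;> omega
  obtain ⟨k1, k2⟩ := key i
  refine (sz_le_of_all _ (3 * a.2.2.2) fun u hu => ?_).trans (Nat.mul_le_mul_right _ k1)
  rw [sz_boolList]
  have := k2 u hu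
  omega

end RKNP
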