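import Pool.Agent.Lib.MP_69204b_lc.Stm

namespace RKNP

open HerCo

theorem F9_pf (h4 : S_F4) (h7 : S_F7) : S_F9 := by
  intro md
  refine ⟨?_, ?_⟩
  · unfold qs
    refine FP.flatMap (l := fun q : (ℕ × ℕ × ℕ) × List Bool => List.range (q.1.2.2 + 1))
      (g := fun q l => (allB q.1.1 (nz q.1.2.1 + mm q.1.2.1)).map
        (fun w => qry q.1.1 q.1.2.1 l q.2 w)) (by fun_prop) ?_
    refine FP.map (l := fun p : ((ℕ × ℕ × ℕ) × List Bool) × ℕ =>
      allB p.1.1.1 (nz p.1.1.2.1 + mm p.1.1.2.1))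
      (g := fun p w => qry p.1.1.1 p.1.1.2.1 p.2 p.1.2 w) ?_ ?_
    · have h : FP md (fun p : ((ℕ × ℕ × ℕ) × List Bool) × ℕ =>
          nz p.1.1.2.1 + mm p.1.1.2.1) := by
        unfold nz dd mm gg ell
        fun_prop
      exact FP.comp (f := fun p : ((ℕ × ℕ × ℕ) × List Bool) × ℕ =>
        (p.1.1.1, nz p.1.1.2.1 + mm p.1.1.2.1)) (h4 md).1 (FP.pair (by fun_prop) h)
    · exact FP.comp (f := fun p : (((ℕ × ℕ × ℕ) × List Bool) × ℕ) × List Bool =>
        ((p.1.1.1.1, p.1.1.1.2.1, p.1.2), p.1.1.2, p.2)) (h7 md).2.1 (by fun_prop)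
  · unfold posQ
    exact FP.map (l := fun q : List (List Bool) × List Bool =>
      (List.range q.1.length).filter (fun i => q.2.getD i false))
      (g := fun q i => q.1.getD i []) (FP.filter (g := fun (q : List (List Bool) × List Bool) i =>
        q.2.getD i false) (by fun_prop) (by fun_prop)) (by fun_prop)

end RKNP
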