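import Pool.Agent.Lib.MP_69204b_lc.Stm

/-! Piece J1: Johnson bound. -/

namespace RKNP

open Finset

theorem J1_pf : S_J1 := by
  intro Z ι _ S v ψ η θ hN hv hψ hη hθ hηθ hxy hx
  classical
  set N : ℝ := (Fintype.card Z : ℝ) with hNdef
  have hNpos : 0 < N := by rw [hNdef]; exact_mod_cast hN
  set k : ℝ := (S.card : ℝ) with hk
  have hk0 : 0 ≤ k := by rw [hk]; positivity
  have hA : k * θ * N ≤ ∑ z, (∑ x ∈ S, v x z) * ψ z := by
    have h1 : ∑ z, (∑ x ∈ S, v x z) * ψ z = ∑ x ∈ S, ∑ z, v x z * ψ z := by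
      simp_rw [Finset.sum_mul]
      rw [Finset.sum_comm]
    rw [h1]
    calc k * θ * N = ∑ _x ∈ S, θ * N := by
          rw [Finset.sum_const, nsmul_eq_mul, hk]; ring
      _ ≤ _ := Finset.sum_le_sum fun x hxS => hx x hxS
  have hB : (∑ z, (∑ x ∈ S, v x z) * ψ z) ^ 2 ≤
      (∑ z, (∑ x ∈ S, v x z) ^ 2) * (∑ z, ψ z ^ 2) :=
    Finset.sum_mul_sq_le_sq_mul_sq _ _ _
  have hC : ∑ z, ψ z ^ 2 ≤ N := by
    calc ∑ z, ψ z ^ 2 ≤ ∑ _z : Z, (1 : ℝ) := by
          apply Finset.sum_le_sum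
          intro z _
          have := hψ z
          rw [← sq_abs]
          nlinarith [abs_nonneg (ψ z)]
      _ = N := by simp [hNdef]
  have hD : ∑ z, (∑ x ∈ S, v x z) ^ 2 ≤ k * N + k ^ 2 * (η * N) := by
    have h1 : ∀ z, (∑ x ∈ S, v x z) ^ 2 = ∑ x ∈ S, ∑ y ∈ S, v x z * v y z := by
      intro z
      rw [sq, Finset.sum_mul_sum]
    simp_rw [h1]
    rw [Finset.sum_comm]
    have h2 : ∀ x ∈ S, ∑ z, ∑ y ∈ S, v x z * v y z ≤ N + k * (η * N) := by
      intro x hxS
      rw [Finset.sum_comm]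
      have h3 : ∀ y ∈ S, ∑ z, v x z * v y z ≤ (if y = x then N else 0) + η * N := by
        intro y hyS
        split_ifs with h
        · subst h
          have h4 : ∑ z, v y z * v y z ≤ N := by
            calc ∑ z, v y z * v y z ≤ ∑ _z : Z, (1 : ℝ) := by
                  apply Finset.sum_le_sum
                  intro z _
                  have := hv y z
                  rw [← sq, ← sq_abs]
                  nlinarith [abs_nonneg (v y z)]
              _ = N := by simp [hNdef]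
          have : 0 ≤ η * N := by positivity
          linarith
        · rw [zero_add]
          exact hxy x hxS y hyS (Ne.symm h)
      calc ∑ y ∈ S, ∑ z, v x z * v y z ≤ ∑ y ∈ S, ((if y = x then N else 0) + η * N) :=
            Finset.sum_le_sum h3
        _ = N + k * (η * N) := by
            rw [Finset.sum_add_distrib, Finset.sum_ite_eq' S x, if_pos hxS, Finset.sum_const,
              nsmul_eq_mul]
    calc ∑ x ∈ S, ∑ z, ∑ y ∈ S, v x z * v y z ≤ ∑ _x ∈ S, (N + k * (η * N)) :=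
          Finset.sum_le_sum h2
      _ = k * N + k ^ 2 * (η * N) := by
          rw [Finset.sum_const, nsmul_eq_mul, ← hk]; ring
  have hE : (k * θ * N) ^ 2 ≤ (k * N + k ^ 2 * (η * N)) * N := by
    have h0 : 0 ≤ k * θ * N := by positivity
    have h1 : (k * θ * N) ^ 2 ≤ (∑ z, (∑ x ∈ S, v x z) * ψ z) ^ 2 :=
      pow_le_pow_left₀ h0 hA 2
    have h2 : 0 ≤ ∑ z, (∑ x ∈ S, v x z) ^ 2 := Finset.sum_nonneg fun z _ => sq_nonneg _
    have h3 : 0 ≤ ∑ z, ψ z ^ 2 := Finset.sum_nonneg fun z _ => sq_nonneg _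
    calc (k * θ * N) ^ 2 ≤ _ := h1
      _ ≤ _ := hB
      _ ≤ (k * N + k ^ 2 * (η * N)) * N := mul_le_mul hD hC h3 (h2.trans hD)
  have hF : k * (k * θ ^ 2) ≤ k * (1 + k * η) := by
    have h1 : (k * (k * θ ^ 2)) * N ^ 2 ≤ (k * (1 + k * η)) * N ^ 2 := by nlinarith [hE]
    exact le_of_mul_le_mul_right h1 (by positivity)
  rw [le_div_iff₀ (by positivity)]
  rcases hk0.eq_or_lt with h0 | h0
  · rw [← h0]; norm_num
  · have h2 : k * θ ^ 2 ≤ 1 + k * η := le_of_mul_le_mul_left hF h0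
    have h3 : k * (2 * η) ≤ k * θ ^ 2 := mul_le_mul_of_nonneg_left hηθ hk0
    linarith

end RKNP
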