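import Pool.Agent.Lib.MP_69204b_lc.Stm

namespace RKNP

theorem J2_pf (hJ : S_J1) (hc : S_corr) : S_J2 := by
  intro M r n l hM hl hn ψ hψ S hS
  have hl0 : (0 : ℝ) < l := by exact_mod_cast hl
  have hp : (0 : ℝ) < 2 ^ r := by positivity
  have hcard : (Fintype.card (Fin (ell r) → Bool) : ℝ) = 2 ^ (ell r) := by
    rw [Fintype.card_fun, Fintype.card_bool, Fintype.card_fin]
    push_cast
    rfl
  have key := hJ (Fin (ell r) → Bool) (List Bool) S
    (fun x ζ => sg (cbit M (prm M r) r x (List.ofFn ζ))) ψ ((n : ℝ) / 2 ^ r) (1 / (4 * (l : ℝ)))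
    (by rw [Fintype.card_fun, Fintype.card_bool]; positivity)
    (fun x z => (abs_sg _).le) hψ (by positivity) (by positivity) (by
      have h1 : (32 : ℝ) * n * l ^ 2 ≤ 2 ^ r := by exact_mod_cast hn
      rw [div_pow, one_pow, ← mul_div_assoc, div_le_div_iff₀ hp (by positivity)]
      nlinarith) (by
      intro x hx y hy hxy
      rw [hcard, ← sum_strs_fn (ell r)
        (fun ζ => sg (cbit M (prm M r) r x ζ) * sg (cbit M (prm M r) r y ζ))]
      refine (hc M r n x y hM (hS x hx).1 (hS y hy).1 hxy).2.trans (le_of_eq ?_)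
      have e1 : (2 : ℝ) ^ (ell r) = 2 ^ (r + 1) * 2 ^ r := by
        rw [← pow_add]
        congr 1
        unfold ell
        omega
      rw [e1]
      field_simp) (by
      intro x hx
      rw [hcard]
      exact (hS x hx).2)
  have h2 : (2 : ℝ) / (1 / (4 * (l : ℝ))) ^ 2 = 32 * l ^ 2 := by
    rw [div_pow, one_pow]
    field_simp
    ring
  rw [h2] at key
  exact_mod_cast key

end RKNP
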