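import Pool.Agent.Lib.MP_69204b_lc.Stm

namespace RKNP

theorem K1_pf (hp : S_prog) : S_K1 := by
  classical
  intro U hU n S hS
  obtain ⟨hex, _⟩ := hp U hU
  rcases n with _ | k
  · have hS0 : S = ∅ := by
      rw [Finset.eq_empty_iff_forall_notMem]
      intro v hv
      obtain ⟨h1, h2⟩ := hS v hv
      apply h2
      change v.length ≤ K U v
      omega
    rw [hS0]
    simp
  · choose p hp1 hp2 using hex
    have hlt : ∀ v ∈ S, (p v).length ≤ k := by
      intro v hv
      obtain ⟨h1, h2⟩ := hS v hv
      have h3 : ¬ v.length ≤ K U v := h2
      rw [hp2 v]
      omega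
    have hcard : S.card ≤ (strs k).card := by
      refine Finset.card_le_card_of_injOn
        (fun v => p v ++ List.replicate (k - (p v).length) false) ?_ ?_
      · intro v hv
        have h1 := hlt v hv
        rw [Finset.mem_coe, mem_strs, List.length_append, List.length_replicate]
        omega
      · intro v hv w hw h
        have h1 : p v <+: p v ++ List.replicate (k - (p v).length) false :=
          List.prefix_append _ _
        have h2 : p w <+: p v ++ List.replicate (k - (p v).length) false := by
          have h3 : p v ++ List.replicate (k - (p v).length) false =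
              p w ++ List.replicate (k - (p w).length) false := h
          rw [h3]
          exact List.prefix_append _ _
        have h4 : p v = p w := by
          rcases List.prefix_or_prefix_of_prefix h1 h2 with h5 | h5
          · exact hU.prefixFree _ _ (Part.dom_iff_mem.2 ⟨v, hp1 v⟩)
              (Part.dom_iff_mem.2 ⟨w, hp1 w⟩) h5
          · exact (hU.prefixFree _ _ (Part.dom_iff_mem.2 ⟨w, hp1 w⟩)
              (Part.dom_iff_mem.2 ⟨v, hp1 v⟩) h5).symm
        have h6 := hp1 v
        rw [h4] at h6
        exact Part.mem_unique h6 (hp1 w)
    rw [card_strs] at hcard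
    rw [pow_succ]
    omega

end RKNP
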