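import Pool.Agent.Lib.MP_69204b_lc.Stm

/-! [K2] Complexity of computed strings. -/

namespace RKNP

open HerCo Turing

private theorem k2_dl : Primrec dl := by
  have h1 : Primrec₂ (fun (_ : List Bool) (q : Bool × List Bool) => true :: q.1 :: q.2) :=
    (Primrec.list_cons.comp (Primrec.const true)
      (Primrec.list_cons.comp (Primrec.fst.comp Primrec.snd) (Primrec.snd.comp Primrec.snd)))
  refine (Primrec.list_foldr Primrec.id (Primrec.const [false]) h1).of_eq fun l => ?_
  induction l with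
  | nil => rfl
  | cons b l ih =>
    simp only [id_eq, List.foldr_cons, dl] at ih ⊢
    rw [ih]

/-- Data of a program: program of `x`, number of steps, header, address. -/
private abbrev k2_Q := List Bool × ℕ × List Bool × List Bool

private def k2_chk (m : List Bool → ℕ) (p : List Bool) (q : k2_Q) : Bool :=
  decide (q.1 ++ (dl q.2.2.1 ++ q.2.2.2) = p) && decide (q.2.2.2.length = m q.2.2.1)

private def k2_f (st : ℕ × List Bool → Option (List Bool)) (m : List Bool → ℕ) (p : List Bool)
    (n : ℕ) : Option (List Bool × List Bool × List Bool) :=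
  (Encodable.decode (α := k2_Q) n).bind fun q =>
    bif k2_chk m p q then (st (q.2.1, q.1)).map (fun x => (x, q.2.2.1, q.2.2.2)) else none

private theorem k2_f_comp (st : ℕ × List Bool → Option (List Bool)) (m : List Bool → ℕ)
    (hst : Computable st) (hm : Computable m) : Computable₂ (k2_f st m) := by
  unfold k2_f k2_chk
  refine Computable.option_bind (Computable.decode.comp Computable.snd) ?_
  have q1 : Computable (fun r : (List Bool × ℕ) × k2_Q => r.2.1) :=
    Computable.fst.comp Computable.snd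
  have q2 : Computable (fun r : (List Bool × ℕ) × k2_Q => r.2.2.1) :=
    Computable.fst.comp (Computable.snd.comp Computable.snd)
  have q3 : Computable (fun r : (List Bool × ℕ) × k2_Q => r.2.2.2.1) :=
    Computable.fst.comp (Computable.snd.comp (Computable.snd.comp Computable.snd))
  have q4 : Computable (fun r : (List Bool × ℕ) × k2_Q => r.2.2.2.2) :=
    Computable.snd.comp (Computable.snd.comp (Computable.snd.comp Computable.snd))
  have p1 : Computable (fun r : (List Bool × ℕ) × k2_Q => r.1.1) :=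
    Computable.fst.comp Computable.fst
  have e1 : Computable (fun r : (List Bool × ℕ) × k2_Q =>
      decide (r.2.1 ++ (dl r.2.2.2.1 ++ r.2.2.2.2) = r.1.1)) :=
    Primrec.eq.decide.to_comp.comp
      (Computable.list_append.comp q1 (Computable.list_append.comp (k2_dl.to_comp.comp q3) q4)) p1
  have e2 : Computable (fun r : (List Bool × ℕ) × k2_Q =>
      decide (r.2.2.2.2.length = m r.2.2.2.1)) :=
    Primrec.eq.decide.to_comp.comp (Computable.list_length.comp q4) (hm.comp q3)
  refine Computable.cond (Primrec.and.to_comp.comp e1 e2) ?_ (Computable.const none)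
  refine Computable.option_map (hst.comp (q2.pair q1)) ?_
  exact Computable.snd.pair ((q3.comp Computable.fst).pair (q4.comp Computable.fst))

private theorem k2_mem_f (st : ℕ × List Bool → Option (List Bool)) (m : List Bool → ℕ)
    (p : List Bool) (n : ℕ) (y : List Bool × List Bool × List Bool) (h : y ∈ k2_f st m p n) :
    ∃ p1 t, p = p1 ++ (dl y.2.1 ++ y.2.2) ∧ y.2.2.length = m y.2.1 ∧
      st (t, p1) = some y.1 := by
  unfold k2_f at h
  rw [Option.mem_def, Option.bind_eq_some_iff] at h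
  obtain ⟨⟨p1, t, hh, a⟩, -, h⟩ := h
  by_cases hc : k2_chk m p (p1, t, hh, a) = true
  · rw [hc, cond_true, Option.map_eq_some_iff] at h
    obtain ⟨x, hx, rfl⟩ := h
    unfold k2_chk at hc
    rw [Bool.and_eq_true, decide_eq_true_eq, decide_eq_true_eq] at hc
    exact ⟨p1, t, hc.1.symm, hc.2, hx⟩
  · rw [Bool.not_eq_true] at hc
    rw [hc, cond_false] at h
    exact absurd h (by simp)

private theorem k2_f_mem (st : ℕ × List Bool → Option (List Bool)) (m : List Bool → ℕ)
    (p1 : List Bool) (t : ℕ) (h a x : List Bool) (ha : a.length = m h)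
    (hx : st (t, p1) = some x) :
    (x, h, a) ∈ k2_f st m (p1 ++ (dl h ++ a)) (Encodable.encode ((p1, t, h, a) : k2_Q)) := by
  unfold k2_f
  rw [Encodable.encodek, Option.bind_some]
  have hc : k2_chk m (p1 ++ (dl h ++ a)) (p1, t, h, a) = true := by
    unfold k2_chk
    simp [ha]
  rw [hc, cond_true]
  simp [hx]

private theorem k2_pre {p q r : List Bool} (h1 : p <+: r) (h2 : q <+: r) : p <+: q ∨ q <+: p := by
  rcases Nat.le_total p.length q.length with h | h
  · exact .inl (List.prefix_of_prefix_length_le h1 h2 h)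
  · exact .inr (List.prefix_of_prefix_length_le h2 h1 h)

/-- The parts of a program are determined. -/
private theorem k2_unique {U : List Bool →. List Bool} (hU : PrefixFree U) (m : List Bool → ℕ)
    {p q p1 q1 h h' a a' : List Bool} (hp : p = p1 ++ (dl h ++ a)) (hq : q = q1 ++ (dl h' ++ a'))
    (ha : a.length = m h) (ha' : a'.length = m h') (hd : (U p1).Dom) (hd' : (U q1).Dom)
    (hpq : p <+: q) : p1 = q1 ∧ h = h' ∧ a = a' := by
  have e1 : p1 <+: q := by
    rw [hp] at hpq
    exact (List.prefix_append _ _).trans hpq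
  have e2 : q1 <+: q := by
    rw [hq]; exact List.prefix_append _ _
  have e3 : p1 = q1 := by
    rcases k2_pre e1 e2 with e | e
    · exact hU _ _ hd hd' e
    · exact (hU _ _ hd' hd e).symm
  subst e3
  rw [hp, hq, List.prefix_append_right_inj] at hpq
  obtain ⟨r, hr⟩ := hpq
  rw [List.append_assoc] at hr
  obtain ⟨e4, e5⟩ := dl_inj hr
  subst e4
  refine ⟨rfl, rfl, ?_⟩
  have e6 : (a ++ r).length = a'.length := by rw [e5]
  rw [List.length_append, ha, ha'] at e6
  have e7 : r = [] := List.length_eq_zero_iff.1 (by omega)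
  rw [← e5, e7, List.append_nil]

theorem K2_pf (hs : S_step) (hp : S_prog) : S_K2 := by
  intro U hU F m hF hm
  obtain ⟨st, hst, hst1, -⟩ := hs U hU.partrec
  have hdom : ∀ p1 t x, st (t, p1) = some x → (U p1).Dom := fun p1 t x h =>
    Part.dom_iff_mem.2 ⟨x, (hst1 p1 x).2 ⟨t, h⟩⟩
  set V : List Bool →. List Bool := fun p => (Nat.rfindOpt (k2_f st m p)).bind F with hV
  have hVp : Partrec V :=
    Partrec.bind (Partrec.rfindOpt (k2_f_comp st m hst hm)) (hF.comp Computable.snd).to₂
  have hVd : ∀ p, (V p).Dom → ∃ p1 h a, p = p1 ++ (dl h ++ a) ∧ a.length = m h ∧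
      (U p1).Dom := by
    intro p hd
    obtain ⟨v, hv⟩ := Part.dom_iff_mem.1 hd
    obtain ⟨y, hy, -⟩ := Part.mem_bind_iff.1 hv
    obtain ⟨n, hn⟩ := Nat.rfindOpt_spec hy
    obtain ⟨p1, t, e1, e2, e3⟩ := k2_mem_f st m p n y hn
    exact ⟨p1, y.2.1, y.2.2, e1, e2, hdom _ _ _ e3⟩
  have hVf : PrefixFree V := by
    intro p q hp' hq' hpq
    obtain ⟨p1, h, a, e1, e2, e3⟩ := hVd p hp'
    obtain ⟨q1, h', a', f1, f2, f3⟩ := hVd q hq'
    obtain ⟨g1, g2, g3⟩ := k2_unique hU.prefixFree m e1 f1 e2 f2 e3 f3 hpq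
    rw [e1, f1, g1, g2, g3]
  obtain ⟨c, hc⟩ := hU.optimal V hVp hVf
  refine ⟨c + 1, fun x h a v ha hv => ?_⟩
  obtain ⟨p1, hp1, hl⟩ := (hp U hU).1 x
  obtain ⟨t, ht⟩ := (hst1 p1 x).1 hp1
  have hmem : v ∈ V (p1 ++ (dl h ++ a)) := by
    have h0 := k2_f_mem st m p1 t h a x ha ht
    have hd : (Nat.rfindOpt (k2_f st m (p1 ++ (dl h ++ a)))).Dom :=
      Nat.rfindOpt_dom.2 ⟨_, _, h0⟩
    obtain ⟨y, hy⟩ := Part.dom_iff_mem.1 hd
    obtain ⟨n, hn⟩ := Nat.rfindOpt_spec hy
    obtain ⟨q1, t', e1, e2, e3⟩ := k2_mem_f st m _ n y hn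
    obtain ⟨g1, g2, g3⟩ := k2_unique hU.prefixFree m rfl e1 ha e2
      (hdom _ _ _ ht) (hdom _ _ _ e3) (List.prefix_refl _)
    subst g1
    have g4 : x = y.1 := Part.mem_unique hp1 ((hst1 _ _).2 ⟨t', e3⟩)
    have g5 : y = (x, h, a) := by
      rw [g4, g2, g3]
    rw [hV]
    exact Part.mem_bind_iff.2 ⟨y, hy, by rw [g5]; exact hv⟩
  obtain ⟨q, hq, hql⟩ := hc _ _ hmem
  have h1 := (hp U hU).2 q v hq
  rw [List.length_append, List.length_append, length_dl] at hql
  omega

end RKNP
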