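import Pool.Agent.Lib.MP_69204b_lc.Stm

namespace RKNP

/-- a prefix-free code for pairs -/
private def k3_enc (h a : List Bool) : List Bool := h.map (fun _ => true) ++ false :: (h ++ a)

private theorem k3_enc_length (h a : List Bool) :
    (k3_enc h a).length = 2 * h.length + 1 + a.length := by
  unfold k3_enc
  simp
  ring

private theorem k3_pre : ∀ (h h' x x' : List Bool),
    h.map (fun _ => true) ++ false :: x <+: h'.map (fun _ => true) ++ false :: x' →
    h.length = h'.length ∧ x <+: x'
  | [], [], x, x', H => ⟨rfl, by simpa using H⟩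
  | [], _ :: h', x, x', H => by
    exfalso
    simp at H
  | _ :: h, [], x, x', H => by
    exfalso
    simp at H
  | _ :: h, _ :: h', x, x', H => by
    have h1 : h.map (fun _ => true) ++ false :: x <+: h'.map (fun _ => true) ++ false :: x' := by
      rw [List.map_cons, List.map_cons, List.cons_append, List.cons_append] at H
      exact (List.cons_prefix_cons.1 H).2
    have h2 := k3_pre h h' x x' h1
    exact ⟨by rw [List.length_cons, List.length_cons, h2.1], h2.2⟩

private theorem k3_enc_pre {h a h' a' : List Bool} (H : k3_enc h a <+: k3_enc h' a') :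
    h = h' ∧ a <+: a' := by
  obtain ⟨h1, t, h2⟩ := k3_pre h h' (h ++ a) (h' ++ a') H
  rw [List.append_assoc] at h2
  obtain ⟨h3, h4⟩ := List.append_inj h2 h1
  exact ⟨h3, t, h4⟩

/-- position in a list -/
private def k3_idx (y : List Bool) (L : List (List Bool)) : ℕ :=
  L.findIdx (fun z => decide (z = y))

private theorem k3_idx_iff (y : List Bool) (L : List (List Bool)) :
    k3_idx y L = L.length ↔ y ∉ L := by
  unfold k3_idx
  rw [List.findIdx_eq_length]
  constructor
  · intro h hy
    have := h y hy
    simp at this
  · intro h z hz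
    rw [decide_eq_false_iff_not]
    rintro rfl
    exact h hz

/-- one step of the enumeration -/
private def k3_stp (P : List Bool × List Bool × ℕ → Bool) (h : List Bool)
    (q : ℕ × List (List Bool)) : List (List Bool) :=
  Option.casesOn (Encodable.decode q.1 : Option (List Bool × ℕ)) q.2 fun yt =>
    bif (P (h, yt.1, yt.2) && decide (k3_idx yt.1 q.2 = q.2.length)) then q.2 ++ [yt.1] else q.2

/-- the enumeration -/
private def k3_E (P : List Bool × List Bool × ℕ → Bool) (h : List Bool) (k : ℕ) :
    List (List Bool) :=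
  Nat.rec (motive := fun _ => List (List Bool)) [] (fun k L => k3_stp P h (k, L)) k

private theorem k3_E_succ (P : List Bool × List Bool × ℕ → Bool) (h : List Bool) (k : ℕ) :
    k3_E P h (k + 1) = k3_stp P h (k, k3_E P h k) := rfl

private theorem k3_stp_cases (P : List Bool × List Bool × ℕ → Bool) (h : List Bool) (k : ℕ)
    (L : List (List Bool)) : k3_stp P h (k, L) = L ∨ ∃ y t, P (h, y, t) = true ∧ y ∉ L ∧
      k3_stp P h (k, L) = L ++ [y] := by
  unfold k3_stp
  rcases (Encodable.decode k : Option (List Bool × ℕ)) with _ | ⟨y, t⟩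
  · left; rfl
  · by_cases hc : (P (h, y, t) && decide (k3_idx y L = L.length)) = true
    · right
      have hc' := hc
      rw [Bool.and_eq_true, decide_eq_true_iff, k3_idx_iff] at hc'
      refine ⟨y, t, hc'.1, hc'.2, ?_⟩
      simp only [hc, cond_true]
    · left
      rw [Bool.not_eq_true] at hc
      simp only [hc, cond_false]

private theorem k3_mono {P : List Bool × List Bool × ℕ → Bool} {h : List Bool} {k k' : ℕ}
    (hk : k ≤ k') : k3_E P h k <+: k3_E P h k' := by
  induction k', hk using Nat.le_induction with
  | base => exact List.prefix_refl _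
  | succ m _ ih =>
    rw [k3_E_succ]
    rcases k3_stp_cases P h m (k3_E P h m) with h1 | ⟨y, t, _, _, h1⟩
    · rw [h1]; exact ih
    · rw [h1]; exact ih.trans (List.prefix_append _ _)

private theorem k3_det {P : List Bool × List Bool × ℕ → Bool} {h : List Bool} {k k' i : ℕ}
    {y y' : List Bool} (h1 : (k3_E P h k)[i]? = some y) (h2 : (k3_E P h k')[i]? = some y') :
    y = y' := by
  rcases le_total k k' with hk | hk
  · obtain ⟨t, ht⟩ := k3_mono (P := P) (h := h) hk
    rw [← ht, List.getElem?_append_left (List.getElem?_eq_some_iff.1 h1).1, h1] at h2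
    exact Option.some.inj h2
  · obtain ⟨t, ht⟩ := k3_mono (P := P) (h := h) hk
    rw [← ht, List.getElem?_append_left (List.getElem?_eq_some_iff.1 h2).1, h2] at h1
    exact (Option.some.inj h1).symm

private theorem k3_sound {P : List Bool × List Bool × ℕ → Bool} {h : List Bool} (k : ℕ) :
    (k3_E P h k).Nodup ∧ ∀ y ∈ k3_E P h k, ∃ t, P (h, y, t) = true := by
  induction k with
  | zero => exact ⟨List.nodup_nil, fun y hy => absurd hy List.not_mem_nil⟩
  | succ k ih =>
    rw [k3_E_succ]
    rcases k3_stp_cases P h k (k3_E P h k) with h1 | ⟨y, t, hp, hy, h1⟩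
    · rw [h1]; exact ih
    · rw [h1]
      refine ⟨List.nodup_append.2 ⟨ih.1, by simp, ?_⟩, ?_⟩
      · intro a ha c hc
        rw [List.mem_singleton] at hc
        rw [hc]
        rintro rfl
        exact hy ha
      · intro z hz
        rw [List.mem_append, List.mem_singleton] at hz
        rcases hz with hz | rfl
        · exact ih.2 z hz
        · exact ⟨t, hp⟩

private theorem k3_complete {P : List Bool × List Bool × ℕ → Bool} {h y : List Bool} {t : ℕ}
    (hp : P (h, y, t) = true) : ∃ k, y ∈ k3_E P h k := by
  refine ⟨Encodable.encode (y, t) + 1, ?_⟩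
  rw [k3_E_succ]
  set L := k3_E P h (Encodable.encode (y, t)) with hL
  unfold k3_stp
  simp only [Encodable.encodek, hp, Bool.true_and]
  by_cases hy : y ∈ L
  · have : decide (k3_idx y L = L.length) = false := by
      rw [decide_eq_false_iff_not, k3_idx_iff]
      exact not_not.2 hy
    rw [this]
    exact hy
  · have : decide (k3_idx y L = L.length) = true := by
      rw [decide_eq_true_iff, k3_idx_iff]
      exact hy
    rw [this]
    simp

/-- one check of the search -/
private def k3_g (P : List Bool × List Bool × ℕ → Bool) (b : List Bool → ℕ) (p : List Bool)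
    (q : List Bool × List Bool × ℕ) : Option (List Bool) :=
  bif (decide (k3_enc q.1 q.2.1 = p) && decide (q.2.1.length = b q.1)) then
    (k3_E P q.1 q.2.2)[num q.2.1]? else none

/-- the search -/
private def k3_body (P : List Bool × List Bool × ℕ → Bool) (b : List Bool → ℕ) (p : List Bool)
    (s : ℕ) : Option (List Bool) :=
  (Encodable.decode s : Option (List Bool × List Bool × ℕ)).bind (k3_g P b p)

private theorem k3_body_some {P : List Bool × List Bool × ℕ → Bool} {b : List Bool → ℕ}
    {p x : List Bool} {s : ℕ} (H : k3_body P b p s = some x) : ∃ h a k, k3_enc h a = p ∧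
      a.length = b h ∧ (k3_E P h k)[num a]? = some x := by
  unfold k3_body at H
  rw [Option.bind_eq_some_iff] at H
  obtain ⟨⟨h, a, k⟩, _, H⟩ := H
  unfold k3_g at H
  simp only at H
  by_cases hc : (decide (k3_enc h a = p) && decide (a.length = b h)) = true
  · rw [hc, cond_true] at H
    rw [Bool.and_eq_true, decide_eq_true_iff, decide_eq_true_iff] at hc
    exact ⟨h, a, k, hc.1, hc.2, H⟩
  · rw [Bool.not_eq_true] at hc
    rw [hc, cond_false] at H
    cases H

private theorem k3_body_of {P : List Bool × List Bool × ℕ → Bool} {b : List Bool → ℕ}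
    {x h a : List Bool} {k : ℕ} (h1 : a.length = b h) (h2 : (k3_E P h k)[num a]? = some x) :
    k3_body P b (k3_enc h a) (Encodable.encode (h, a, k)) = some x := by
  unfold k3_body k3_g
  rw [Encodable.encodek, Option.bind_some]
  simp only [h1, decide_true, Bool.and_self, cond_true]
  exact h2

private theorem k3_ceqL : Computable₂ fun a b : List Bool => decide (a = b) :=
  (Primrec.eq (α := List Bool)).decide.to_comp

private theorem k3_ceqN : Computable₂ fun a b : ℕ => decide (a = b) :=
  (Primrec.eq (α := ℕ)).decide.to_comp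

private theorem k3_cand : Computable₂ fun a b : Bool => (a && b) := Primrec.and.to_comp

private theorem k3_cidx : Computable₂ k3_idx := by
  have h : Primrec₂ k3_idx := by
    unfold k3_idx
    refine Primrec.list_findIdx (f := fun q : List Bool × List (List Bool) => q.2)
      (p := fun q z => decide (z = q.1)) Primrec.snd ?_
    exact (Primrec.eq (α := List Bool)).decide.comp Primrec.snd (Primrec.fst.comp Primrec.fst)
  exact h.to_comp

private theorem k3_comp_num : Computable num := by
  have h : Primrec num := by
    unfold num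
    refine Primrec.list_foldl (h := fun (_ : List Bool) (q : ℕ × Bool) =>
      2 * q.1 + (bif q.2 then 1 else 0)) Primrec.id (Primrec.const 0) ?_ |>.of_eq ?_
    · exact Primrec.nat_add.comp (Primrec.nat_mul.comp (Primrec.const 2)
        (Primrec.fst.comp Primrec.snd)) (Primrec.cond (Primrec.snd.comp Primrec.snd)
          (Primrec.const 1) (Primrec.const 0))
    · intro u
      simp only [id, cond_eq_ite]
  exact h.to_comp

private theorem k3_comp_enc : Computable fun q : List Bool × List Bool => k3_enc q.1 q.2 := by
  have h : Primrec fun q : List Bool × List Bool => k3_enc q.1 q.2 := by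
    unfold k3_enc
    exact Primrec.list_append.comp
      (Primrec.list_map Primrec.fst (Primrec.const true).to₂)
      (Primrec.list_cons.comp (Primrec.const false)
        (Primrec.list_append.comp Primrec.fst Primrec.snd))
  exact h.to_comp

private theorem k3_comp_E {P : List Bool × List Bool × ℕ → Bool} (hP : Computable P) :
    Computable fun q : List Bool × ℕ => k3_E P q.1 q.2 := by
  unfold k3_E
  refine Computable.nat_rec (f := fun q : List Bool × ℕ => q.2)
    (g := fun _ : List Bool × ℕ => ([] : List (List Bool)))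
    (h := fun (q : List Bool × ℕ) (r : ℕ × List (List Bool)) => k3_stp P q.1 r)
    Computable.snd (Computable.const _) ?_
  unfold k3_stp
  refine Computable.option_casesOn
    (o := fun z : (List Bool × ℕ) × (ℕ × List (List Bool)) =>
      (Encodable.decode z.2.1 : Option (List Bool × ℕ)))
    (f := fun z => z.2.2)
    (g := fun z yt => bif (P (z.1.1, yt.1, yt.2) && decide (k3_idx yt.1 z.2.2 = z.2.2.length)) then
      z.2.2 ++ [yt.1] else z.2.2)
    (Computable.decode.comp (Computable.fst.comp Computable.snd))
    (Computable.snd.comp Computable.snd) ?_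
  have cL : Computable fun w : ((List Bool × ℕ) × (ℕ × List (List Bool))) × (List Bool × ℕ) =>
      w.1.2.2 := Computable.snd.comp (Computable.snd.comp Computable.fst)
  have cy : Computable fun w : ((List Bool × ℕ) × (ℕ × List (List Bool))) × (List Bool × ℕ) =>
      w.2.1 := Computable.fst.comp Computable.snd
  have ch : Computable fun w : ((List Bool × ℕ) × (ℕ × List (List Bool))) × (List Bool × ℕ) =>
      w.1.1.1 := Computable.fst.comp (Computable.fst.comp Computable.fst)
  have ct : Computable fun w : ((List Bool × ℕ) × (ℕ × List (List Bool))) × (List Bool × ℕ) =>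
      w.2.2 := Computable.snd.comp Computable.snd
  have c1 : Computable fun w : ((List Bool × ℕ) × (ℕ × List (List Bool))) × (List Bool × ℕ) =>
      P (w.1.1.1, w.2.1, w.2.2) := hP.comp (ch.pair (cy.pair ct))
  have c2 : Computable fun w : ((List Bool × ℕ) × (ℕ × List (List Bool))) × (List Bool × ℕ) =>
      k3_idx w.2.1 w.1.2.2 := k3_cidx.comp cy cL
  have c3 : Computable fun w : ((List Bool × ℕ) × (ℕ × List (List Bool))) × (List Bool × ℕ) =>
      w.1.2.2.length := Computable.list_length.comp cL
  have c4 : Computable fun w : ((List Bool × ℕ) × (ℕ × List (List Bool))) × (List Bool × ℕ) =>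
      decide (k3_idx w.2.1 w.1.2.2 = w.1.2.2.length) := k3_ceqN.comp c2 c3
  have c5 : Computable fun w : ((List Bool × ℕ) × (ℕ × List (List Bool))) × (List Bool × ℕ) =>
      (P (w.1.1.1, w.2.1, w.2.2) && decide (k3_idx w.2.1 w.1.2.2 = w.1.2.2.length)) :=
    k3_cand.comp c1 c4
  have c6 : Computable fun w : ((List Bool × ℕ) × (ℕ × List (List Bool))) × (List Bool × ℕ) =>
      w.1.2.2 ++ [w.2.1] := Computable.list_concat.comp cL cy
  exact Computable.cond c5 c6 cL

private theorem k3_comp_g {P : List Bool × List Bool × ℕ → Bool} {b : List Bool → ℕ}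
    (hP : Computable P) (hb : Computable b) :
    Computable fun w : (List Bool × ℕ) × (List Bool × List Bool × ℕ) =>
      k3_g P b w.1.1 w.2 := by
  have cp : Computable fun w : (List Bool × ℕ) × (List Bool × List Bool × ℕ) => w.1.1 :=
    Computable.fst.comp Computable.fst
  have ch : Computable fun w : (List Bool × ℕ) × (List Bool × List Bool × ℕ) => w.2.1 :=
    Computable.fst.comp Computable.snd
  have ca : Computable fun w : (List Bool × ℕ) × (List Bool × List Bool × ℕ) => w.2.2.1 :=
    Computable.fst.comp (Computable.snd.comp Computable.snd)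
  have ck : Computable fun w : (List Bool × ℕ) × (List Bool × List Bool × ℕ) => w.2.2.2 :=
    Computable.snd.comp (Computable.snd.comp Computable.snd)
  have c1 : Computable fun w : (List Bool × ℕ) × (List Bool × List Bool × ℕ) =>
      k3_enc w.2.1 w.2.2.1 := (k3_comp_enc.comp (ch.pair ca) :)
  have c2 : Computable fun w : (List Bool × ℕ) × (List Bool × List Bool × ℕ) =>
      decide (k3_enc w.2.1 w.2.2.1 = w.1.1) := k3_ceqL.comp c1 cp
  have c3 : Computable fun w : (List Bool × ℕ) × (List Bool × List Bool × ℕ) =>
      w.2.2.1.length := Computable.list_length.comp ca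
  have c4 : Computable fun w : (List Bool × ℕ) × (List Bool × List Bool × ℕ) =>
      b w.2.1 := hb.comp ch
  have c5 : Computable fun w : (List Bool × ℕ) × (List Bool × List Bool × ℕ) =>
      decide (w.2.2.1.length = b w.2.1) := k3_ceqN.comp c3 c4
  have c6 : Computable fun w : (List Bool × ℕ) × (List Bool × List Bool × ℕ) =>
      (decide (k3_enc w.2.1 w.2.2.1 = w.1.1) && decide (w.2.2.1.length = b w.2.1)) :=
    k3_cand.comp c2 c5
  have c7 : Computable fun w : (List Bool × ℕ) × (List Bool × List Bool × ℕ) =>
      k3_E P w.2.1 w.2.2.2 := ((k3_comp_E hP).comp (ch.pair ck) :)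
  have c8 : Computable fun w : (List Bool × ℕ) × (List Bool × List Bool × ℕ) =>
      num w.2.2.1 := k3_comp_num.comp ca
  have c9 : Computable fun w : (List Bool × ℕ) × (List Bool × List Bool × ℕ) =>
      (k3_E P w.2.1 w.2.2.2)[num w.2.2.1]? := Computable.list_getElem?.comp c7 c8
  have c10 := Computable.cond c6 c9 (Computable.const none)
  unfold k3_g
  exact c10

private theorem k3_comp_body {P : List Bool × List Bool × ℕ → Bool} {b : List Bool → ℕ}
    (hP : Computable P) (hb : Computable b) : Computable₂ (k3_body P b) := by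
  unfold k3_body
  exact Computable.option_bind
    (f := fun z : List Bool × ℕ => (Encodable.decode z.2 : Option (List Bool × List Bool × ℕ)))
    (g := fun z q => k3_g P b z.1 q)
    (Computable.decode.comp Computable.snd) (k3_comp_g hP hb)

theorem K3_pf (hp : S_prog) : S_K3 := by
  classical
  intro U hU P b hP hb
  set V : List Bool →. List Bool := fun p => Nat.rfindOpt (k3_body P b p) with hV
  have hVp : Partrec V := Partrec.rfindOpt (k3_comp_body hP hb)
  have hVs : ∀ p x, x ∈ V p → ∃ h a k, k3_enc h a = p ∧ a.length = b h ∧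
      (k3_E P h k)[num a]? = some x := by
    intro p x hx
    obtain ⟨s, hs⟩ := Nat.rfindOpt_spec hx
    exact k3_body_some hs
  have hVf : PrefixFree V := by
    intro p q hpd hqd hpq
    obtain ⟨x, hx⟩ := Part.dom_iff_mem.1 hpd
    obtain ⟨y, hy⟩ := Part.dom_iff_mem.1 hqd
    obtain ⟨h, a, k, rfl, h2, _⟩ := hVs p x hx
    obtain ⟨h', a', k', rfl, h2', _⟩ := hVs q y hy
    obtain ⟨rfl, h3⟩ := k3_enc_pre hpq
    rw [h3.eq_of_length (by rw [h2, h2'])]
  obtain ⟨c, hc⟩ := hU.optimal V hVp hVf
  refine ⟨c + 1, fun h x hx hS => ?_⟩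
  obtain ⟨t, ht⟩ := hx
  obtain ⟨k, hk⟩ := k3_complete ht
  obtain ⟨hnd, hsd⟩ := k3_sound (P := P) (h := h) k
  have hlen : (k3_E P h k).length ≤ 2 ^ (b h) := by
    have h1 := hS (k3_E P h k).toFinset (fun y hy => hsd y (List.mem_toFinset.1 hy))
    rwa [List.toFinset_card_of_nodup hnd] at h1
  obtain ⟨i, hi, hix⟩ := List.mem_iff_getElem.1 hk
  have hi2 : i < 2 ^ (b h) := lt_of_lt_of_le hi hlen
  set a := toB (b h) i with ha
  have ha1 : a.length = b h := length_toB _ _
  have ha2 : num a = i := num_toB _ _ hi2
  have hget : (k3_E P h k)[num a]? = some x := by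
    rw [ha2, List.getElem?_eq_getElem hi, hix]
  have hmem : x ∈ V (k3_enc h a) := by
    have hd : (V (k3_enc h a)).Dom :=
      Nat.rfindOpt_dom.2 ⟨Encodable.encode (h, a, k), x, k3_body_of ha1 hget⟩
    obtain ⟨y, hy⟩ := Part.dom_iff_mem.1 hd
    obtain ⟨h', a', k', e1, e2, e3⟩ := hVs _ y hy
    obtain ⟨rfl, e4⟩ := k3_enc_pre (e1 ▸ List.prefix_refl _ : k3_enc h' a' <+: k3_enc h a)
    have e5 := e4.eq_of_length (by rw [e2, ha1])
    rw [e5] at e3
    rw [k3_det hget e3]
    exact hy
  obtain ⟨q, hq1, hq2⟩ := hc _ _ hmem
  have h3 := (hp U hU).2 q x hq1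
  rw [k3_enc_length, ha1] at hq2
  omega

end RKNP
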