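import Pool.Agent.Lib.MP_69204b_lc.Stm

/-! Piece K4: trivial upper bound of the complexity. -/

namespace RKNP

theorem K4_pf (h2 : S_K2) : S_K4 := by
  intro U hU
  obtain ⟨c, hc⟩ := h2 U hU (fun q => Part.some q.2.1) (fun _ => 0)
    (Computable.fst.comp Computable.snd) (Computable.const 0)
  refine ⟨K U [] + c, fun x => ?_⟩
  have h := hc [] x [] x rfl (Part.mem_some _)
  simp only [List.length_nil] at h
  omega

end RKNP
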