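import Pool.Agent.Lib.MP_69204b_lc.Stm

/-! [K5] The nonrandom strings are recursively enumerable. -/

namespace RKNP

open HerCo Turing

private def k5_test (st : ℕ × List Bool → Option (List Bool)) (q : ℕ × List Bool) (n : ℕ) :
    Bool :=
  Option.casesOn (Encodable.decode (α := List Bool) n) false
    (fun p => decide (p.length < q.2.length) && decide (st (q.1, p) = some q.2))

private theorem k5_test_iff (st : ℕ × List Bool → Option (List Bool)) (q : ℕ × List Bool)
    (n : ℕ) : k5_test st q n = true ↔ ∃ p : List Bool, Encodable.decode (α := List Bool) n = some p ∧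
      p.length < q.2.length ∧ st (q.1, p) = some q.2 := by
  unfold k5_test
  cases h : Encodable.decode (α := List Bool) n with
  | none => simp
  | some p => simp

private theorem k5_test_comp (st : ℕ × List Bool → Option (List Bool)) (hst : Computable st) :
    Computable₂ (k5_test st) := by
  have h1 : Computable fun a : (ℕ × List Bool) × ℕ => Encodable.decode (α := List Bool) a.2 :=
    (Primrec.decode.comp Primrec.snd).to_comp
  have h2 : Computable fun b : ((ℕ × List Bool) × ℕ) × List Bool =>
      decide (b.2.length < b.1.1.2.length) :=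
    (Primrec.nat_lt.comp (Primrec.list_length.comp Primrec.snd)
      (Primrec.list_length.comp (Primrec.snd.comp (Primrec.fst.comp Primrec.fst)))).decide.to_comp
  have h3 : Computable fun b : ((ℕ × List Bool) × ℕ) × List Bool => st (b.1.1.1, b.2) :=
    hst.comp (Computable.pair (Computable.fst.comp (Computable.fst.comp Computable.fst))
      Computable.snd)
  have h4 : Computable fun b : Option (List Bool) × Option (List Bool) => decide (b.1 = b.2) :=
    (Primrec.eq.comp Primrec.fst Primrec.snd).decide.to_comp
  have h5 : Computable fun b : ((ℕ × List Bool) × ℕ) × List Bool =>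
      decide (st (b.1.1.1, b.2) = some b.1.1.2) :=
    h4.comp (Computable.pair h3 (Computable.option_some.comp
      (Computable.snd.comp (Computable.fst.comp Computable.fst))))
  have h6 : Computable fun b : ((ℕ × List Bool) × ℕ) × List Bool =>
      (decide (b.2.length < b.1.1.2.length) && decide (st (b.1.1.1, b.2) = some b.1.1.2)) :=
    (Primrec.and.to_comp : Computable₂ (· && ·)).comp h2 h5
  exact Computable.option_casesOn h1 (Computable.const false) h6

private def k5_nR (st : ℕ × List Bool → Option (List Bool)) (q : ℕ × List Bool) : Bool :=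
  Nat.rec false (fun n ih => (ih || k5_test st q n)) q.1

private theorem k5_nR_comp (st : ℕ × List Bool → Option (List Bool)) (hst : Computable st) :
    Computable (k5_nR st) := by
  have h1 : Computable fun b : (ℕ × List Bool) × ℕ × Bool => k5_test st b.1 b.2.1 :=
    (k5_test_comp st hst).comp Computable.fst (Computable.fst.comp Computable.snd)
  have h2 : Computable fun b : (ℕ × List Bool) × ℕ × Bool => (b.2.2 || k5_test st b.1 b.2.1) :=
    (Primrec.or.to_comp : Computable₂ (· || ·)).comp (Computable.snd.comp Computable.snd) h1
  exact Computable.nat_rec (f := fun q : ℕ × List Bool => q.1) (g := fun _ => false)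
    (h := fun q b => (b.2 || k5_test st q b.1)) Computable.fst (Computable.const false) h2

private theorem k5_rec (f : ℕ → Bool) (m : ℕ) :
    (Nat.rec false (fun n ih => (ih || f n)) m : Bool) = true ↔ ∃ n < m, f n = true := by
  induction m with
  | zero => simp
  | succ m ih =>
    change ((Nat.rec false (fun n ih => (ih || f n)) m : Bool) || f m) = true ↔ _
    rw [Bool.or_eq_true, ih]
    constructor
    · rintro (⟨n, h1, h2⟩ | h)
      · exact ⟨n, by omega, h2⟩
      · exact ⟨m, by omega, h⟩
    · rintro ⟨n, h1, h2⟩
      rcases Nat.lt_succ_iff_lt_or_eq.1 h1 with h | h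
      · exact Or.inl ⟨n, h, h2⟩
      · exact Or.inr (h ▸ h2)

theorem K5_pf (hs : S_step) (hp : S_prog) : S_K5 := by
  intro U hU
  obtain ⟨st, hst, h1, h2⟩ := hs U hU.partrec
  obtain ⟨hp1, hp2⟩ := hp U hU
  have key : ∀ t v, k5_nR st (t, v) = true ↔ ∃ n < t, ∃ p : List Bool,
      Encodable.decode (α := List Bool) n = some p ∧
      p.length < v.length ∧ st (t, p) = some v := by
    intro t v
    unfold k5_nR
    rw [k5_rec]
    exact exists_congr fun n => and_congr_right fun _ => k5_test_iff st (t, v) n
  refine ⟨k5_nR st, k5_nR_comp st hst, ?_, ?_⟩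
  · intro v
    constructor
    · intro hv
      have hv' : K U v < v.length := by
        by_contra h
        exact hv (not_lt.1 h)
      obtain ⟨p, hpv, hpl⟩ := hp1 v
      obtain ⟨t, ht⟩ := (h1 p v).1 hpv
      refine ⟨max t (Encodable.encode p + 1), (key _ _).2 ⟨Encodable.encode p, ?_, p,
        Encodable.encodek p, by omega, ?_⟩⟩
      · exact lt_of_lt_of_le (Nat.lt_succ_self _) (le_max_right _ _)
      · exact h2 t _ p v (le_max_left _ _) ht
    · rintro ⟨t, ht⟩ hv
      obtain ⟨n, _, p, _, h4, h5⟩ := (key _ _).1 ht
      have h6 := hp2 p v ((h1 p v).2 ⟨t, h5⟩)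
      have h7 : v.length ≤ K U v := hv
      omega
  · intro t t' v htt ht
    obtain ⟨n, hn, p, h3, h4, h5⟩ := (key _ _).1 ht
    exact (key _ _).2 ⟨n, lt_of_lt_of_le hn htt, p, h3, h4, h2 t t' p v htt h5⟩

end RKNP
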