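import Pool.Agent.Lib.MP_69204b_lc.Stm

namespace RKNP

open Classical in
theorem L1_pf : S_L1 := by
  intro α β γ A B Y h T δ ε hA hB hY hmem hδ hε hcol hsum
  have hA' : (0 : ℝ) < A.card := by exact_mod_cast hA
  have hB' : (0 : ℝ) < B.card := by exact_mod_cast hB
  have hY' : (0 : ℝ) < Y.card := by exact_mod_cast hY
  set nA : ℝ := (A.card : ℝ) with hnA
  set nB : ℝ := (B.card : ℝ) with hnB
  set nY : ℝ := (Y.card : ℝ) with hnY
  let c : α → β → ℝ := fun a b => ∑ u ∈ Y, if h a u = b then (1 : ℝ) else 0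
  let t : α → β → ℝ := fun a b => if T a b then (1 : ℝ) else 0
  -- the sum over `b` of `c`
  have hc1 : ∀ a ∈ A, ∀ f : β → ℝ, ∑ b ∈ B, f b * c a b = ∑ u ∈ Y, f (h a u) := by
    intro a ha f
    simp only [c, Finset.mul_sum]
    rw [Finset.sum_comm]
    refine Finset.sum_congr rfl fun u hu => ?_
    have : ∀ b ∈ B, f b * (if h a u = b then (1 : ℝ) else 0) = if h a u = b then f b else 0 := by
      intro b _
      split_ifs <;> simp
    rw [Finset.sum_congr rfl this, Finset.sum_ite_eq, if_pos (hmem a ha u hu)]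
  have hE1 : (∑ u ∈ Y, ((A.filter fun a => T a (h a u)).card : ℝ))
      = ∑ a ∈ A, ∑ b ∈ B, t a b * c a b := by
    rw [Finset.sum_congr rfl (fun a ha => hc1 a ha (t a)), Finset.sum_comm]
    refine Finset.sum_congr rfl fun u _ => ?_
    rw [Finset.card_filter]
    push_cast
    rfl
  have hE2 : (((A ×ˢ B).filter fun q => T q.1 q.2).card : ℝ) = ∑ a ∈ A, ∑ b ∈ B, t a b := by
    rw [Finset.card_filter, Finset.sum_product]
    push_cast
    rfl
  have hS : ∑ a ∈ A, ∑ b ∈ B, c a b * c a b ≤ nY * nA + nY * nY * ((1 + δ) * nA / nB) := by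
    have h1 : ∑ a ∈ A, ∑ b ∈ B, c a b * c a b
        = ∑ u ∈ Y, ∑ u' ∈ Y, ((A.filter fun a => h a u = h a u').card : ℝ) := by
      rw [Finset.sum_congr rfl (fun a ha => hc1 a ha (c a)), Finset.sum_comm]
      refine Finset.sum_congr rfl fun u _ => ?_
      simp only [c]
      rw [Finset.sum_comm]
      refine Finset.sum_congr rfl fun u' _ => ?_
      rw [Finset.card_filter]
      push_cast
      refine Finset.sum_congr rfl fun a _ => ?_
      simp only [eq_comm]
    rw [h1]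
    have h2 : ∀ u ∈ Y, ∀ u' ∈ Y, ((A.filter fun a => h a u = h a u').card : ℝ)
        ≤ (if u = u' then nA else 0) + (1 + δ) * nA / nB := by
      intro u hu u' hu'
      by_cases huu : u = u'
      · subst huu
        simp only [if_true, Finset.filter_true]
        have : 0 ≤ (1 + δ) * nA / nB := by positivity
        simp only [hnA]
        linarith
      · rw [if_neg huu, zero_add, le_div_iff₀ hB']
        exact hcol u hu u' hu' huu
    calc ∑ u ∈ Y, ∑ u' ∈ Y, ((A.filter fun a => h a u = h a u').card : ℝ)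
        ≤ ∑ u ∈ Y, ∑ u' ∈ Y, ((if u = u' then nA else 0) + (1 + δ) * nA / nB) :=
          Finset.sum_le_sum fun u hu => Finset.sum_le_sum fun u' hu' => h2 u hu u' hu'
      _ = nY * nA + nY * nY * ((1 + δ) * nA / nB) := by
          simp only [Finset.sum_add_distrib, Finset.sum_ite_eq, Finset.sum_const, nsmul_eq_mul]
          rw [Finset.sum_congr rfl (fun u hu => if_pos hu), Finset.sum_const, nsmul_eq_mul]
          ring
  -- Cauchy-Schwarz
  let D : α → β → ℝ := fun a b => c a b / nY - 1 / nB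
  have hc0 : ∑ a ∈ A, ∑ b ∈ B, c a b = nA * nY := by
    have : ∀ a ∈ A, ∑ b ∈ B, c a b = nY := by
      intro a ha
      have := hc1 a ha (fun _ => 1)
      simpa using this
    rw [Finset.sum_congr rfl this, Finset.sum_const, nsmul_eq_mul]
  have hD2 : ∑ a ∈ A, ∑ b ∈ B, D a b ^ 2 ≤ nA / nY + δ * nA / nB := by
    have h1 : ∑ a ∈ A, ∑ b ∈ B, D a b ^ 2
        = (∑ a ∈ A, ∑ b ∈ B, c a b * c a b) / nY ^ 2 - 2 / (nY * nB) * (∑ a ∈ A, ∑ b ∈ B, c a b)
          + nA * nB * (1 / nB) ^ 2 := by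
      have : ∀ a ∈ A, ∑ b ∈ B, D a b ^ 2 = (∑ b ∈ B, c a b * c a b) / nY ^ 2
          - 2 / (nY * nB) * (∑ b ∈ B, c a b) + nB * (1 / nB) ^ 2 := by
        intro a _
        have h3 : ∀ b ∈ B, D a b ^ 2 = (c a b * c a b) / nY ^ 2 - 2 / (nY * nB) * c a b
            + (1 / nB) ^ 2 := by
          intro b _
          simp only [D]
          field_simp
          ring
        rw [Finset.sum_congr rfl h3, Finset.sum_add_distrib, Finset.sum_sub_distrib,
          ← Finset.sum_div, ← Finset.mul_sum, Finset.sum_const, nsmul_eq_mul]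
      rw [Finset.sum_congr rfl this, Finset.sum_add_distrib, Finset.sum_sub_distrib,
        ← Finset.sum_div, ← Finset.mul_sum, Finset.sum_const, nsmul_eq_mul]
      ring
    rw [h1, hc0]
    have h2 : (∑ a ∈ A, ∑ b ∈ B, c a b * c a b) / nY ^ 2
        ≤ (nY * nA + nY * nY * ((1 + δ) * nA / nB)) / nY ^ 2 := by
      gcongr
    have h3 : (nY * nA + nY * nY * ((1 + δ) * nA / nB)) / nY ^ 2
        = nA / nY + (1 + δ) * nA / nB := by
      field_simp
    have h4 : 2 / (nY * nB) * (nA * nY) = 2 * nA / nB := by field_simp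
    have h5 : nA * nB * (1 / nB) ^ 2 = nA / nB := by field_simp
    have h6 : (1 + δ) * nA / nB = nA / nB + δ * nA / nB := by ring
    have h7 : 2 * nA / nB = nA / nB + nA / nB := by ring
    linarith
  have hCS : (∑ a ∈ A, ∑ b ∈ B, t a b * D a b) ^ 2 ≤ (nA * ε) ^ 2 := by
    have h1 : (∑ a ∈ A, ∑ b ∈ B, t a b * D a b) ^ 2 ≤
        (∑ a ∈ A, ∑ b ∈ B, t a b ^ 2) * (∑ a ∈ A, ∑ b ∈ B, D a b ^ 2) := by
      rw [← Finset.sum_product', ← Finset.sum_product', ← Finset.sum_product']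
      exact Finset.sum_mul_sq_le_sq_mul_sq _ _ _
    have h2 : ∑ a ∈ A, ∑ b ∈ B, t a b ^ 2 ≤ nA * nB := by
      have : ∀ a b, t a b ^ 2 ≤ 1 := by
        intro a b
        simp only [t]
        split_ifs <;> norm_num
      calc ∑ a ∈ A, ∑ b ∈ B, t a b ^ 2 ≤ ∑ a ∈ A, ∑ b ∈ B, (1 : ℝ) :=
            Finset.sum_le_sum fun a _ => Finset.sum_le_sum fun b _ => this a b
        _ = nA * nB := by simp only [Finset.sum_const, nsmul_eq_mul]; ring
    have h3 : 0 ≤ ∑ a ∈ A, ∑ b ∈ B, D a b ^ 2 :=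
      Finset.sum_nonneg fun a _ => Finset.sum_nonneg fun b _ => sq_nonneg _
    calc (∑ a ∈ A, ∑ b ∈ B, t a b * D a b) ^ 2
        ≤ (∑ a ∈ A, ∑ b ∈ B, t a b ^ 2) * (∑ a ∈ A, ∑ b ∈ B, D a b ^ 2) := h1
      _ ≤ (nA * nB) * (nA / nY + δ * nA / nB) := by
          apply mul_le_mul h2 hD2 h3 (by positivity)
      _ = nA ^ 2 * (nB / nY + δ) := by field_simp
      _ ≤ nA ^ 2 * ε ^ 2 := by gcongr
      _ = (nA * ε) ^ 2 := by ring
  have hfin : ∑ a ∈ A, ∑ b ∈ B, t a b * D a b ≤ nA * ε :=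
    le_trans (le_abs_self _) (abs_le_of_sq_le_sq hCS (by positivity))
  have hdec : ∑ a ∈ A, ∑ b ∈ B, t a b * D a b
      = (∑ a ∈ A, ∑ b ∈ B, t a b * c a b) / nY - (∑ a ∈ A, ∑ b ∈ B, t a b) / nB := by
    have : ∀ a ∈ A, ∑ b ∈ B, t a b * D a b
        = (∑ b ∈ B, t a b * c a b) / nY - (∑ b ∈ B, t a b) / nB := by
      intro a _
      have h3 : ∀ b ∈ B, t a b * D a b = (t a b * c a b) / nY - t a b / nB := by
        intro b _
        simp only [D]
        ring
      rw [Finset.sum_congr rfl h3, Finset.sum_sub_distrib, ← Finset.sum_div, ← Finset.sum_div]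
    rw [Finset.sum_congr rfl this, Finset.sum_sub_distrib, ← Finset.sum_div, ← Finset.sum_div]
  rw [hE1, hE2]
  rw [hdec] at hfin
  have h8 : (∑ a ∈ A, ∑ b ∈ B, t a b * c a b) / (nY * nA)
      = ((∑ a ∈ A, ∑ b ∈ B, t a b * c a b) / nY) / nA := by
    rw [div_div]
  have h9 : (∑ a ∈ A, ∑ b ∈ B, t a b) / (nA * nB)
      = ((∑ a ∈ A, ∑ b ∈ B, t a b) / nB) / nA := by
    rw [div_div, mul_comm nA nB]
  rw [h8, h9, div_add' _ _ _ hA'.ne', div_le_div_iff_of_pos_right hA']
  linarith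

end RKNP
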