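import Pool.Agent.Lib.MP_69204b_lc.Stm

namespace RKNP

private theorem L2_hsh_succ (M r m : ℕ) (u v w : List Bool) (hv : v.length = ell r * m)
    (hw : w.length = ell r) :
    hsh M r (m + 1) u (v ++ w) = hsh M r m u v ++ [cbit M (prm M r) r u w] := by
  unfold hsh
  rw [List.range_succ, List.map_append, List.map_singleton]
  congr 1
  · refine List.map_congr_left fun j hj => ?_
    rw [List.mem_range] at hj
    have h1 : j * ell r + ell r ≤ v.length := by
      rw [hv, ← Nat.succ_mul, Nat.mul_comm]
      exact Nat.mul_le_mul_left _ hj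
    rw [List.drop_append_of_le_length (by omega), List.take_append_of_le_length]
    rw [List.length_drop]
    omega
  · have h2 : (v ++ w).drop (m * ell r) = w := by
      rw [Nat.mul_comm, ← hv, List.drop_left]
    rw [h2, ← hw, List.take_length]

private theorem L2_length_hsh (M r m : ℕ) (u v : List Bool) : (hsh M r m u v).length = m := by
  unfold hsh
  simp

private theorem L2_count (M r : ℕ) (u u' : List Bool) (m : ℕ) :
    ((strs (ell r * m)).filter (fun ω => hsh M r m u ω = hsh M r m u' ω)).card =
      ((strs (ell r)).filter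
        (fun ζ => cbit M (prm M r) r u ζ = cbit M (prm M r) r u' ζ)).card ^ m := by
  induction m with
  | zero =>
    rw [Nat.mul_zero, strs_zero, pow_zero]
    simp [hsh]
  | succ m ih =>
    rw [Finset.card_filter, Nat.mul_succ, sum_strs_add, pow_succ, ← ih, Finset.card_filter,
      Finset.card_filter, Finset.sum_mul]
    refine Finset.sum_congr rfl fun v hv => ?_
    rw [Finset.mul_sum]
    refine Finset.sum_congr rfl fun w hw => ?_
    rw [mem_strs] at hv hw
    rw [L2_hsh_succ M r m u v w hv hw, L2_hsh_succ M r m u' v w hv hw]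
    have h : (hsh M r m u v ++ [cbit M (prm M r) r u w] =
        hsh M r m u' v ++ [cbit M (prm M r) r u' w]) ↔
        (hsh M r m u v = hsh M r m u' v ∧ cbit M (prm M r) r u w = cbit M (prm M r) r u' w) := by
      constructor
      · intro h
        have h1 := List.append_inj h (by rw [L2_length_hsh, L2_length_hsh])
        exact ⟨h1.1, by simpa using h1.2⟩
      · rintro ⟨h1, h2⟩
        rw [h1, h2]
    by_cases h1 : hsh M r m u v = hsh M r m u' v <;>
      by_cases h2 : cbit M (prm M r) r u w = cbit M (prm M r) r u' w <;>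
      simp [h1, h2]

theorem L2_pf (hc : S_corr) : S_L2 := by
  intro M r m i u u' hM hu hu' hne
  rw [L2_count, ← mul_pow]
  refine Nat.pow_le_pow_left ?_ m
  have h1 := (hc M r i u u' hM hu hu' hne).2
  have h2 : ∑ ζ ∈ strs (ell r), sg (cbit M (prm M r) r u ζ) * sg (cbit M (prm M r) r u' ζ)
      = 2 * (((strs (ell r)).filter
        (fun ζ => cbit M (prm M r) r u ζ = cbit M (prm M r) r u' ζ)).card : ℝ) - 2 ^ ell r := by
    rw [card_filter_strs]
    have h3 : ((2 : ℝ) ^ ell r) = ∑ ζ ∈ strs (ell r), (1 : ℝ) := by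
      rw [Finset.sum_const, card_strs, nsmul_eq_mul, mul_one]
      push_cast
      rfl
    rw [h3, Finset.mul_sum, ← Finset.sum_sub_distrib]
    refine Finset.sum_congr rfl fun ζ _ => ?_
    cases cbit M (prm M r) r u ζ <;> cases cbit M (prm M r) r u' ζ <;> simp [sg] <;> norm_num
  rw [h2] at h1
  have h4 : (2 : ℝ) ^ ell r = 2 ^ (r + 1) * 2 ^ r := by
    rw [← pow_add]
    congr 1
    unfold ell
    ring
  rw [h4] at h1
  have h5 : ((((strs (ell r)).filter
      (fun ζ => cbit M (prm M r) r u ζ = cbit M (prm M r) r u' ζ)).card * 2 : ℕ) : ℝ)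
      ≤ ((2 ^ (r + 1) * (2 ^ r + i) : ℕ) : ℝ) := by
    push_cast
    linarith
  exact_mod_cast h5

end RKNP
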