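import Pool.Agent.Lib.MP_69204b_lc.Stm

namespace RKNP

theorem L3_pf : S_L3 := by
  intro r m i h
  have hp : (0 : ℝ) < 2 ^ r := by positivity
  set y : ℝ := (i : ℝ) / 2 ^ r with hy
  have hy0 : 0 ≤ y := by positivity
  have h1 : (m : ℝ) * y ≤ 1 / 256 := by
    have h2 : (256 : ℝ) * i * m ≤ 2 ^ r := by exact_mod_cast h
    have e1 : (m : ℝ) * y = (m * i) / 2 ^ r := by rw [hy]; ring
    rw [e1, div_le_iff₀ hp]
    linarith
  have h2 : ∀ j : ℕ, (j : ℝ) * y ≤ 1 / 2 → (1 + y) ^ j ≤ 1 + 2 * (j * y) := by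
    intro j
    induction j with
    | zero => intro _; simp
    | succ j ih =>
      intro hj
      push_cast at hj ⊢
      have h3 : (j : ℝ) * y ≤ 1 / 2 := by nlinarith
      have h4 := ih h3
      have h5 : (0 : ℝ) ≤ 1 + y := by linarith
      calc (1 + y) ^ (j + 1) = (1 + y) ^ j * (1 + y) := pow_succ _ _
        _ ≤ (1 + 2 * (j * y)) * (1 + y) := mul_le_mul_of_nonneg_right h4 h5
        _ = 1 + y + 2 * (j * y) + 2 * (j * y) * y := by ring
        _ ≤ 1 + y + 2 * (j * y) + 1 * y := by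
          have : 2 * (j * y) * y ≤ 1 * y := mul_le_mul_of_nonneg_right (by linarith) hy0
          linarith
        _ = 1 + 2 * ((j + 1) * y) := by ring
  have h3 := h2 m (by linarith)
  have e2 : (2 : ℝ) ^ r + i = 2 ^ r * (1 + y) := by
    rw [hy, mul_add, mul_one, mul_div_cancel₀ _ hp.ne']
  rw [e2, mul_pow, mul_comm]
  refine mul_le_mul_of_nonneg_right ?_ (by positivity)
  linarith

end RKNP
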