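import Pool.Agent.Lib.MP_69204b_lc.Stm

namespace RKNP

private theorem L4_coll (M r i : ℕ) (u u' : List Bool) (h2 : S_L2) (h3 : S_L3)
    (hM : 2 ^ (r + 1) ≤ M) (hi : 256 * i * mm r ≤ 2 ^ r) (hu : u.length = i)
    (hu' : u'.length = i) (hne : u ≠ u') :
    (((strs (nz r)).filter (fun a => hsh M r (mm r) u (a.drop (dd r)) =
      hsh M r (mm r) u' (a.drop (dd r)))).card : ℝ) * 2 ^ mm r ≤
      (1 + 1 / 128) * 2 ^ nz r := by
  have e1 : ((strs (nz r)).filter (fun a => hsh M r (mm r) u (a.drop (dd r)) =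
      hsh M r (mm r) u' (a.drop (dd r)))).card = 2 ^ dd r *
      ((strs (ell r * mm r)).filter
        (fun ω => hsh M r (mm r) u ω = hsh M r (mm r) u' ω)).card := by
    rw [Finset.card_filter, nz, sum_strs_add]
    have : ∀ v ∈ strs (dd r), (∑ w ∈ strs (ell r * mm r),
        if hsh M r (mm r) u ((v ++ w).drop (dd r)) = hsh M r (mm r) u' ((v ++ w).drop (dd r))
        then 1 else 0) = ((strs (ell r * mm r)).filter
        (fun ω => hsh M r (mm r) u ω = hsh M r (mm r) u' ω)).card := by
      intro v hv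
      rw [mem_strs] at hv
      rw [Finset.card_filter]
      refine Finset.sum_congr rfl fun w _ => ?_
      have : (v ++ w).drop (dd r) = w := by rw [← hv, List.drop_left]
      rw [this]
    rw [Finset.sum_congr rfl this, Finset.sum_const, card_strs, smul_eq_mul]
  have e2 := h2 M r (mm r) i u u' hM hu hu' hne
  have e2' : ((((strs (ell r * mm r)).filter
      (fun ω => hsh M r (mm r) u ω = hsh M r (mm r) u' ω)).card : ℕ) : ℝ) * 2 ^ mm r ≤
      (2 ^ (r + 1) * (2 ^ r + i)) ^ mm r := by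
    exact_mod_cast e2
  have e3 := h3 r (mm r) i hi
  rw [e1]
  push_cast
  set C : ℝ := ((((strs (ell r * mm r)).filter
      (fun ω => hsh M r (mm r) u ω = hsh M r (mm r) u' ω)).card : ℕ) : ℝ) with hC
  have e4 : ((2 : ℝ) ^ (r + 1) * (2 ^ r + i)) ^ mm r ≤
      (2 ^ (r + 1)) ^ mm r * ((1 + 1 / 128) * (2 ^ r) ^ mm r) := by
    rw [mul_pow]
    exact mul_le_mul_of_nonneg_left e3 (by positivity)
  have e5 : (2 : ℝ) ^ nz r = 2 ^ dd r * ((2 ^ (r + 1)) ^ mm r * (2 ^ r) ^ mm r) := by
    rw [← mul_pow, ← pow_add, ← pow_mul, ← pow_add]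
    congr 1
    unfold nz ell
    ring
  calc 2 ^ dd r * C * 2 ^ mm r = 2 ^ dd r * (C * 2 ^ mm r) := by ring
    _ ≤ 2 ^ dd r * ((2 ^ (r + 1)) ^ mm r * ((1 + 1 / 128) * (2 ^ r) ^ mm r)) :=
        mul_le_mul_of_nonneg_left (le_trans e2' e4) (by positivity)
    _ = (1 + 1 / 128) * 2 ^ nz r := by rw [e5]; ring

private theorem L4_inst {α : Type} (s : Finset α) (p : α → Prop) (i1 i2 : DecidablePred p) :
    (@Finset.filter α p i1 s).card = (@Finset.filter α p i2 s).card := by
  have : i1 = i2 := Subsingleton.elim _ _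
  subst this
  rfl

theorem L4_pf (h1 : S_L1) (h2 : S_L2) (h3 : S_L3) : S_L4 := by
  intro M r i T hM hi hT Y hY
  by_contra hcon
  rw [not_lt] at hcon
  have hYpos : 0 < Y.card := lt_of_lt_of_le (by positivity) hcon
  have hcA : ((strs (nz r)).card : ℝ) = 2 ^ nz r := by rw [card_strs]; push_cast; rfl
  have hcB : ((strs (mm r)).card : ℝ) = 2 ^ mm r := by rw [card_strs]; push_cast; rfl
  have hY' : (2 : ℝ) ^ (mm r + 7) ≤ Y.card := by exact_mod_cast hcon
  have hY0 : (0 : ℝ) < Y.card := by exact_mod_cast hYpos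
  have key := h1 (List Bool) (List Bool) (List Bool) (strs (nz r)) (strs (mm r)) Y
    (fun a u => hsh M r (mm r) u (a.drop (dd r))) (fun a b => T a b = true) (1 / 128) (1 / 8)
    (by rw [card_strs]; positivity) (by rw [card_strs]; positivity) hYpos
    (by
      intro a _ u _
      rw [mem_strs]
      simp [hsh])
    (by norm_num) (by norm_num)
    (by
      intro u hu u' hu' hne
      rw [hcA, hcB]
      have := L4_coll M r i u u' h2 h3 hM hi (hY u hu).1 (hY u' hu').1 hne
      convert this using 4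
      ext a
      simp only [Finset.mem_filter])
    (by
      rw [hcB]
      have : (2 : ℝ) ^ mm r / Y.card ≤ 1 / 128 := by
        rw [div_le_div_iff₀ hY0 (by norm_num)]
        rw [pow_add] at hY'
        linarith
      linarith)
  have k1 : (7 / 8 : ℝ) ≤ (∑ u ∈ Y, (((strs (nz r)).filter
      (fun a => T a (hsh M r (mm r) u (a.drop (dd r))) = true)).card : ℝ)) /
      (Y.card * (strs (nz r)).card) := by
    rw [hcA, le_div_iff₀ (by positivity)]
    have : ∀ u ∈ Y, (7 / 8 : ℝ) * 2 ^ nz r ≤ (((strs (nz r)).filter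
      (fun a => T a (hsh M r (mm r) u (a.drop (dd r))) = true)).card : ℝ) := by
      intro u hu
      have h4 := (hY u hu).2
      have h5 : (7 : ℝ) * 2 ^ nz r ≤ 8 * (((strs (nz r)).filter
        (fun a => T a (hsh M r (mm r) u (a.drop (dd r))) = true)).card : ℝ) := by
        exact_mod_cast h4
      linarith
    have h6 := Finset.sum_le_sum this
    rw [Finset.sum_const, nsmul_eq_mul] at h6
    linarith
  have k2 : ((((strs (nz r)) ×ˢ (strs (mm r))).filter
      (fun q => T q.1 q.2 = true)).card : ℝ) / ((strs (nz r)).card * (strs (mm r)).card) ≤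
      5 / 8 := by
    rw [hcA, hcB, div_le_iff₀ (by positivity)]
    have h5 : (8 : ℝ) * ((((strs (nz r)) ×ˢ (strs (mm r))).filter
      (fun q => T q.1 q.2 = true)).card : ℝ) ≤ 5 * 2 ^ (nz r + mm r) := by
      exact_mod_cast hT
    rw [pow_add] at h5
    linarith
  have k3 : (∑ u ∈ Y, (((strs (nz r)).filter
      (fun a => T a (hsh M r (mm r) u (a.drop (dd r))) = true)).card : ℝ)) /
      (Y.card * (strs (nz r)).card) ≤ ((((strs (nz r)) ×ˢ (strs (mm r))).filter
      (fun q => T q.1 q.2 = true)).card : ℝ) / ((strs (nz r)).card * (strs (mm r)).card)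
      + 1 / 8 := by
    convert key using 3
    · exact_mod_cast L4_inst _ _ _ _
    · exact_mod_cast L4_inst _ _ _ _
  linarith

end RKNP
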