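import Pool.Agent.Lib.MP_69204b_lc.Stm

namespace RKNP

private theorem N1_avg_succ (G : List Bool → ℝ) (k : ℕ) (u : List Bool) :
    avg G (k + 1) u = (avg G k (u ++ [false]) + avg G k (u ++ [true])) / 2 := by
  unfold avg
  rw [sum_strs_cons, Finset.sum_add_distrib, pow_succ]
  have h : ∀ b : Bool, ∑ e ∈ strs k, G (u ++ b :: e) = ∑ e ∈ strs k, G (u ++ [b] ++ e) := by
    intro b
    refine Finset.sum_congr rfl fun e _ => ?_
    rw [List.append_assoc, List.singleton_append]
  rw [h, h]
  field_simp

private theorem N1_avg_zero (G : List Bool → ℝ) (u : List Bool) : avg G 0 u = G u := by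
  unfold avg
  rw [strs_zero]
  simp

private theorem N1_avg_mem (G : List Bool → ℝ) (hG : ∀ e, 0 ≤ G e ∧ G e ≤ 1) (k : ℕ)
    (u : List Bool) : 0 ≤ avg G k u ∧ avg G k u ≤ 1 := by
  unfold avg
  constructor
  · exact div_nonneg (Finset.sum_nonneg fun e _ => (hG _).1) (by positivity)
  · rw [div_le_one (by positivity)]
    calc ∑ e ∈ strs k, G (u ++ e) ≤ ∑ e ∈ strs k, (1 : ℝ) :=
          Finset.sum_le_sum fun e _ => (hG _).2
      _ = 2 ^ k := by
        rw [Finset.sum_const, card_strs, nsmul_eq_mul, mul_one]
        push_cast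
        rfl

theorem hyb_pf : S_hyb := by
  intro l G
  constructor
  · intro f hf
    have h1 : ∀ t ∈ Finset.range l, sg (f.getD t false) * del G l t (f.take t) / 2 =
        avg G (l - (t + 1)) (f.take (t + 1)) - avg G (l - t) (f.take t) := by
      intro t ht
      rw [Finset.mem_range] at ht
      have h2 : f.take (t + 1) = f.take t ++ [f.getD t false] := by
        rw [List.take_succ_eq_append_getElem (by omega), List.getD_eq_getElem _ _ (by omega)]
      have h3 : l - t = (l - (t + 1)) + 1 := by omega
      have h4 : l - 1 - t = l - (t + 1) := by omega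
      rw [h2, h3, N1_avg_succ]
      unfold del
      rw [h4]
      cases f.getD t false <;> simp [sg] <;> ring
    rw [Finset.sum_div, Finset.sum_congr rfl h1,
      Finset.sum_range_sub (fun t => avg G (l - t) (f.take t))]
    rw [Nat.sub_self, N1_avg_zero, Nat.sub_zero, ← hf, List.take_length, List.take_zero]
  · intro hG t u
    unfold del
    have h1 := N1_avg_mem G hG (l - 1 - t) (u ++ [false])
    have h2 := N1_avg_mem G hG (l - 1 - t) (u ++ [true])
    rw [abs_le]
    constructor <;> linarith [h1.1, h1.2, h2.1, h2.2]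

end RKNP
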