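import Pool.Agent.Lib.MP_69204b_lc.Stm

namespace RKNP

private lemma n2_a {n d : ℕ} (s : Fin n → Fin d) (hs : Function.Injective s)
    (ρ : Fin d → Bool) (ζ : Fin n → Bool) (a : Fin n) : merge s ρ ζ (s a) = ζ a := by
  unfold merge
  have h : ∃ a', s a' = s a := ⟨a, rfl⟩
  rw [dif_pos h]
  exact congrArg ζ (hs h.choose_spec)

private lemma n2_b {n d : ℕ} (s : Fin n → Fin d)
    (ρ : Fin d → Bool) (ζ : Fin n → Bool) (j : Fin d) (h : ¬ ∃ a, s a = j) :
    merge s ρ ζ j = ρ j := by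
  unfold merge
  rw [dif_neg h]

theorem merge_pf : S_merge := by
  intro n d s hs
  refine ⟨n2_a s hs, n2_b s, fun F => ?_⟩
  have h1 : ∑ ρ : Fin d → Bool, ∑ ζ : Fin n → Bool, F (merge s ρ ζ) =
      ∑ p : (Fin d → Bool) × (Fin n → Bool), F (merge s p.1 p.2) := by
    rw [Fintype.sum_prod_type]
  have h2 : ∑ p : (Fin d → Bool) × (Fin n → Bool), F (merge s p.1 p.2) =
      ∑ p : (Fin d → Bool) × (Fin n → Bool), F p.1 := by
    refine Finset.sum_bij' (fun p _ => (merge s p.1 p.2, fun a => p.1 (s a)))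
      (fun p _ => (merge s p.1 p.2, fun a => p.1 (s a))) (fun _ _ => Finset.mem_univ _)
      (fun _ _ => Finset.mem_univ _) ?_ ?_ (fun _ _ => rfl)
    all_goals
      rintro ⟨ρ, ζ⟩ _
      refine Prod.ext ?_ ?_
      · funext j
        by_cases h : ∃ a, s a = j
        · obtain ⟨a, rfl⟩ := h
          exact n2_a s hs _ _ a
        · change merge s (merge s ρ ζ) (fun a => ρ (s a)) j = ρ j
          rw [n2_b s _ _ j h, n2_b s _ _ j h]
      · funext a
        exact n2_a s hs _ _ a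
  rw [h1, h2, Fintype.sum_prod_type]
  simp only [Finset.sum_const, Finset.card_univ, Fintype.card_fun, Fintype.card_bool,
    Fintype.card_fin, nsmul_eq_mul]
  rw [← Finset.mul_sum]
  push_cast
  rfl

end RKNP
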