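import Pool.Agent.Lib.MP_69204b_lc.Stm

namespace RKNP

open Classical in
theorem dep_pf : S_dep := by
  intro n A
  refine ⟨(Finset.univ : Finset ((A → Bool) → Bool)).image fun g ζ => g fun a => ζ a, ?_, ?_⟩
  · refine Finset.card_image_le.trans ?_
    rw [Finset.card_univ, Fintype.card_fun, Fintype.card_fun, Fintype.card_bool,
      Fintype.card_coe]
  · intro h hh
    refine Finset.mem_image.2 ⟨fun η => h fun a => if ha : a ∈ A then η ⟨a, ha⟩ else false,
      Finset.mem_univ _, ?_⟩
    funext ζ
    apply hh
    intro a ha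
    simp only [dif_pos ha]

end RKNP
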