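import Pool.Agent.Lib.MP_69204b_lc.Stm

namespace RKNP

private lemma n4_take_ofFn (l t : ℕ) (f g : Fin l → Bool)
    (h : ∀ i : Fin l, (i : ℕ) < t → f i = g i) :
    (List.ofFn f).take t = (List.ofFn g).take t := by
  apply List.ext_getElem
  · simp
  · intro i h1 h2
    rw [List.getElem_take, List.getElem_take, List.getElem_ofFn, List.getElem_ofFn]
    apply h
    have := List.length_take_le t (List.ofFn f)
    exact lt_of_lt_of_le h1 this

open Classical in
theorem NW_pf (h1 : S_hyb) (h2 : S_merge) (h3 : S_dep) : S_NW := by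
  intro d n l W B X c σ G ε θ hε hθ hσ hW hG hB S hS
  -- the functions
  let f : X → (Fin d → Bool) → List Bool := fun x z => List.ofFn fun t => c x fun a => z (σ t a)
  let ψ : Fin l → (Fin d → Bool) → (Fin l → (Fin n → Bool) → Bool) → (Fin n → Bool) → ℝ :=
    fun t ρ hs ζ => del (G (merge (σ t) ρ ζ)) l t ((List.ofFn fun t' => hs t' ζ).take t)
  choose H hHc hH using fun (t t' : Fin l) =>
    h3 n (Finset.univ.filter (fun a => ∃ b, σ t a = σ t' b))
  let P : Fin l → Finset (Fin l → (Fin n → Bool) → Bool) := fun t =>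
    Fintype.piFinset fun t' => if t' < t then H t t' else {fun _ => false}
  have hP : ∀ t, (P t).card ≤ 2 ^ W := by
    intro t
    have e1 : (P t).card = ∏ t' : Fin l, (if t' < t then H t t' else {fun _ => false}).card :=
      Fintype.card_piFinset _
    rw [e1]
    calc ∏ t' : Fin l, (if t' < t then H t t' else {fun _ => false}).card
        ≤ ∏ t' : Fin l, (if t' < t then
          2 ^ (2 ^ (Finset.univ.filter (fun a => ∃ b, σ t a = σ t' b)).card) else 1) := by
          refine Finset.prod_le_prod' fun t' _ => ?_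
          by_cases h : t' < t
          · rw [if_pos h, if_pos h]; exact hHc t t'
          · rw [if_neg h, if_neg h, Finset.card_singleton]
      _ = ∏ t' ∈ Finset.univ.filter (fun t' => t' < t),
          2 ^ (2 ^ (Finset.univ.filter (fun a => ∃ b, σ t a = σ t' b)).card) := by
          rw [Finset.prod_filter]
      _ = 2 ^ (∑ t' ∈ Finset.univ.filter (fun t' => t' < t),
          2 ^ (Finset.univ.filter (fun a => ∃ b, σ t a = σ t' b)).card) := by
          rw [Finset.prod_pow_eq_pow_sum]
      _ ≤ 2 ^ W := Nat.pow_le_pow_right (by norm_num) (hW t)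
  have hcov : S ⊆ (Finset.univ : Finset (Fin l)).biUnion fun t =>
      (Finset.univ : Finset (Fin d → Bool)).biUnion fun ρ => (P t).biUnion fun hs =>
        S.filter fun x => θ * 2 ^ n ≤ ∑ ζ, sg (c x ζ) * ψ t ρ hs ζ := by
    intro x hx
    have hx1 := hS x hx
    have key : ∀ z, G z (f x z) - avg (G z) l [] =
        (∑ t ∈ Finset.range l, sg ((f x z).getD t false) * del (G z) l t ((f x z).take t)) / 2 :=
      fun z => (h1 l (G z)).1 (f x z) (by simp [f])
    have hsum : 2 * ε * 2 ^ d < ∑ t ∈ Finset.range l, ∑ z,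
        sg ((f x z).getD t false) * del (G z) l t ((f x z).take t) := by
      rw [Finset.sum_comm]
      have e1 : ∑ z, (G z (f x z) - avg (G z) l []) =
          (∑ z, ∑ t ∈ Finset.range l,
            sg ((f x z).getD t false) * del (G z) l t ((f x z).take t)) / 2 := by
        rw [Finset.sum_div]
        exact Finset.sum_congr rfl fun z _ => key z
      have e2 : ∑ z, avg (G z) l [] = (∑ z, ∑ e ∈ strs l, G z e) / 2 ^ l := by
        rw [Finset.sum_div]
        rfl
      have h2d : (0 : ℝ) < 2 ^ d := by positivity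
      rw [Finset.sum_sub_distrib, e2] at e1
      have e3 : (∑ z, ∑ e ∈ strs l, G z e) / (2 ^ d * 2 ^ l) =
          (∑ z, ∑ e ∈ strs l, G z e) / 2 ^ l / 2 ^ d := by
        rw [div_div, mul_comm]
      rw [e3] at hx1
      have e4 : (∑ z, ∑ e ∈ strs l, G z e) / 2 ^ l + ε * 2 ^ d < ∑ z, G z (f x z) := by
        have := mul_lt_mul_of_pos_right hx1 h2d
        rw [add_mul, div_mul_cancel₀ _ h2d.ne', div_mul_cancel₀ _ h2d.ne'] at this
        exact this
      linarith
    have hlt : ∑ t ∈ Finset.range l, θ * 2 ^ d < ∑ t ∈ Finset.range l, ∑ z,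
        sg ((f x z).getD t false) * del (G z) l t ((f x z).take t) := by
      refine lt_of_le_of_lt ?_ hsum
      rw [Finset.sum_const, Finset.card_range, nsmul_eq_mul]
      have h2d : (0 : ℝ) < 2 ^ d := by positivity
      calc (l : ℝ) * (θ * 2 ^ d) = (θ * l) * 2 ^ d := by ring
        _ ≤ 2 * ε * 2 ^ d := mul_le_mul_of_nonneg_right hθ h2d.le
    obtain ⟨t₀, ht₀, hlt₀⟩ := Finset.exists_lt_of_sum_lt hlt
    have htl : t₀ < l := Finset.mem_range.1 ht₀
    let t : Fin l := ⟨t₀, htl⟩
    let F : (Fin d → Bool) → ℝ := fun z =>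
      sg ((f x z).getD t₀ false) * del (G z) l t₀ ((f x z).take t₀)
    have hm := (h2 n d (σ t) (hσ t)).2.2 F
    have hlt1 : ∑ ρ : Fin d → Bool, θ * 2 ^ n <
        ∑ ρ : Fin d → Bool, ∑ ζ : Fin n → Bool, F (merge (σ t) ρ ζ) := by
      rw [hm, Finset.sum_const, Finset.card_univ, Fintype.card_fun, Fintype.card_bool,
        Fintype.card_fin, nsmul_eq_mul]
      push_cast
      have h2n : (0 : ℝ) < 2 ^ n := by positivity
      calc (2 : ℝ) ^ d * (θ * 2 ^ n) = 2 ^ n * (θ * 2 ^ d) := by ring
        _ < 2 ^ n * ∑ z, F z := mul_lt_mul_of_pos_left hlt₀ h2n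
    obtain ⟨ρ, _, hρ⟩ := Finset.exists_lt_of_sum_lt hlt1
    let hs : Fin l → (Fin n → Bool) → Bool := fun t' ζ =>
      if t' < t then c x (fun a => merge (σ t) ρ ζ (σ t' a)) else false
    have hsP : hs ∈ P t := by
      refine Fintype.mem_piFinset.2 fun t' => ?_
      by_cases h : t' < t
      · rw [if_pos h]
        refine hH t t' (hs t') fun ζ ζ' hζ => ?_
        simp only [hs, if_pos h]
        congr 1
        funext b
        by_cases hb : ∃ a, σ t a = σ t' b
        · obtain ⟨a, ha⟩ := hb
          rw [← ha, (h2 n d (σ t) (hσ t)).1, (h2 n d (σ t) (hσ t)).1]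
          exact hζ a (Finset.mem_filter.2 ⟨Finset.mem_univ _, b, ha⟩)
        · rw [(h2 n d (σ t) (hσ t)).2.1 _ _ _ hb, (h2 n d (σ t) (hσ t)).2.1 _ _ _ hb]
      · rw [if_neg h, Finset.mem_singleton]
        funext ζ
        simp only [hs, if_neg h]
    refine Finset.mem_biUnion.2 ⟨t, Finset.mem_univ _, Finset.mem_biUnion.2
      ⟨ρ, Finset.mem_univ _, Finset.mem_biUnion.2 ⟨hs, hsP, Finset.mem_filter.2 ⟨hx, ?_⟩⟩⟩⟩
    have e5 : ∀ ζ, F (merge (σ t) ρ ζ) = sg (c x ζ) * ψ t ρ hs ζ := by
      intro ζ
      have e6 : (f x (merge (σ t) ρ ζ)).getD t₀ false = c x ζ := by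
        have e7 : (f x (merge (σ t) ρ ζ)).getD t₀ false =
            c x (fun a => merge (σ t) ρ ζ (σ t a)) := by
          simp only [f, List.getD_eq_getElem?_getD]
          rw [List.getElem?_eq_getElem (by simpa using htl), List.getElem_ofFn]
          rfl
        rw [e7]
        congr 1
        funext a
        exact (h2 n d (σ t) (hσ t)).1 ρ ζ a
      have e8 : (f x (merge (σ t) ρ ζ)).take t₀ = (List.ofFn fun t' => hs t' ζ).take t₀ := by
        refine n4_take_ofFn l t₀ _ _ fun i hi => ?_
        have hi' : i < t := hi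
        simp only [hs, if_pos hi']
      simp only [F, ψ, e6, e8]
      rfl
    rw [← Finset.sum_congr rfl fun ζ _ => e5 ζ]
    exact hρ.le
  calc S.card ≤ _ := Finset.card_le_card hcov
    _ ≤ ∑ t : Fin l, ((Finset.univ : Finset (Fin d → Bool)).biUnion fun ρ =>
        (P t).biUnion fun hs =>
          S.filter fun x => θ * 2 ^ n ≤ ∑ ζ, sg (c x ζ) * ψ t ρ hs ζ).card :=
        Finset.card_biUnion_le
    _ ≤ ∑ t : Fin l, 2 ^ d * (2 ^ W * B) := by
        refine Finset.sum_le_sum fun t _ => ?_
        calc _ ≤ ∑ ρ : Fin d → Bool, ((P t).biUnion fun hs =>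
              S.filter fun x => θ * 2 ^ n ≤ ∑ ζ, sg (c x ζ) * ψ t ρ hs ζ).card :=
              Finset.card_biUnion_le
          _ ≤ ∑ ρ : Fin d → Bool, 2 ^ W * B := by
              refine Finset.sum_le_sum fun ρ _ => ?_
              calc _ ≤ ∑ hs ∈ P t, (S.filter fun x =>
                    θ * 2 ^ n ≤ ∑ ζ, sg (c x ζ) * ψ t ρ hs ζ).card := Finset.card_biUnion_le
                _ ≤ ∑ hs ∈ P t, B := by
                    refine Finset.sum_le_sum fun hs _ => ?_
                    refine hB (ψ t ρ hs) (fun ζ => ?_) _ fun x hx => (Finset.mem_filter.1 hx).2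
                    exact (h1 l _).2 (hG _) _ _
                _ = (P t).card * B := by rw [Finset.sum_const, smul_eq_mul]
                _ ≤ 2 ^ W * B := Nat.mul_le_mul_right _ (hP t)
          _ = 2 ^ d * (2 ^ W * B) := by
              rw [Finset.sum_const, Finset.card_univ, Fintype.card_fun, Fintype.card_bool,
                Fintype.card_fin, smul_eq_mul]
    _ = l * 2 ^ d * 2 ^ W * B := by
        rw [Finset.sum_const, Finset.card_univ, Fintype.card_fin, smul_eq_mul]
        ring

end RKNP
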