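import Pool.Agent.Lib.MP_69204b_lc.Stm

/-! Piece P0: the cap is big enough. -/

namespace RKNP

theorem big_pf : S_big := by
  intro r hr
  have hr4 : 64 * r ^ 4 ≤ r ^ 5 := by
    rw [pow_succ r 4, Nat.mul_comm (r ^ 4) r]
    exact Nat.mul_le_mul_right _ hr
  have hr3 : 64 * r ^ 3 ≤ r ^ 4 := by
    rw [pow_succ r 3, Nat.mul_comm (r ^ 3) r]
    exact Nat.mul_le_mul_right _ hr
  have hr2 : 64 * r ^ 2 ≤ r ^ 3 := by
    rw [pow_succ r 2, Nat.mul_comm (r ^ 2) r]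
    exact Nat.mul_le_mul_right _ hr
  have hr1 : 64 * r ≤ r ^ 2 := by
    rw [pow_two]
    exact Nat.mul_le_mul_right _ hr
  have e1 : nz r + mm r = 40 * r ^ 4 + 48 * r ^ 3 + 8 * r ^ 2 + 2 * r := by
    unfold nz dd mm gg ell; ring
  have e2 : nz r ≤ nz r + mm r := Nat.le_add_right _ _
  have e3 : mm r = 20 * r ^ 3 := rfl
  have e4 : nz r + mm r ≤ r ^ 5 := by rw [e1]; omega
  have h2 : ∀ a b : ℕ, a ≤ b → 2 ^ a ≤ 2 ^ b := fun a b h =>
    Nat.pow_le_pow_right (by norm_num) h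
  refine ⟨h2 _ _ e4, h2 _ _ (by omega), h2 _ _ (by rw [e3]; omega), ?_, h2 _ _ (by omega)⟩
  have e5 : gg r ≤ 2 ^ r := by
    have h3 : r - 3 < 2 ^ (r - 3) := Nat.lt_two_pow_self
    have h4 : 2 ^ r = 2 ^ (r - 3) * 8 := by
      rw [show (8 : ℕ) = 2 ^ 3 by norm_num, ← pow_add]
      congr 1; omega
    unfold gg ell
    omega
  have e6 : r * ell r = 2 * r ^ 2 + r := by unfold ell; ring
  calc gg r ^ ell r ≤ (2 ^ r) ^ ell r := Nat.pow_le_pow_left e5 _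
    _ = 2 ^ (r * ell r) := by rw [← pow_mul]
    _ ≤ 2 ^ (r ^ 5) := h2 _ _ (by rw [e6]; omega)

end RKNP
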