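import Pool.Agent.Lib.MP_69204b_lc.Stm

/-! The main lemma: a good level. -/

namespace RKNP

open HerCo

theorem P1_num (r c2 c3 : ℕ) (hr : 64 ≤ r) (hc : c2 + c3 ≤ r) :
    dd r + 3 * r + 5 + 2 * (5 * r + 2) + c3 + (2 * (5 * r + 2) + c2 + 1) < mm r := by
  unfold dd mm gg ell
  have h1 : r * ((2 * r + 1) * (2 * (2 * r + 1))) = 8 * r ^ 3 + 8 * r ^ 2 + 2 * r := by ring
  rw [h1]
  have h2 : 64 * r ^ 2 ≤ r ^ 3 := by
    have : r ^ 3 = r * r ^ 2 := by ring
    rw [this]; exact Nat.mul_le_mul_right _ hr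
  have h3 : 64 * r ≤ r ^ 2 := by
    have : r ^ 2 = r * r := by ring
    rw [this]; exact Nat.mul_le_mul_right _ hr
  omega

theorem P1_pf (h4 : S_K4) (hq1 : S_Q1) (hq3 : S_Q3) (hq4 : S_Q4) (hq5 : S_Q5) : S_P1 := by
  intro U hU chk hchk
  obtain ⟨c1, hc1⟩ := h4 U hU
  obtain ⟨c3, hc3⟩ := hq3 U hU
  obtain ⟨c2, hc2⟩ := hq4 U hU chk hchk
  refine ⟨c2 + c3, c1, fun x r q hr hcr hL h32 hq hw => ?_⟩
  obtain ⟨w, hw1, hw2⟩ := hc2 x hw
  have hκ := hc1 x
  have hnum := P1_num r c2 c3 hr hcr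
  obtain ⟨l, hl⟩ : ∃ l, l = K U x - (mm r - (2 * (5 * r + 2) + c2 + 1)) := ⟨_, rfl⟩
  have hl1 : l ≤ 2 * x.length + c1 := by omega
  have hl2 : l < 2 ^ r := by omega
  have h32' : 32 * x.length * l ^ 2 ≤ 2 ^ r :=
    (Nat.mul_le_mul_left _ (Nat.pow_le_pow_left hl1 2)).trans h32
  refine ⟨w, l, hw1, hl1, ?_, ?_⟩
  · by_contra hbad
    have h1 := hq1 U hU r l x.length hr hl2 h32' {x} (by
      intro y hy
      rw [Finset.mem_singleton] at hy
      subst hy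
      exact ⟨rfl, hbad⟩)
    rw [Finset.card_singleton] at h1
    have hl0 : l ≠ 0 := by
      intro h0
      rw [h0] at h1
      simp at h1
    have h2 := hc3 r l x hr hl2 (by omega) h32' hbad
    omega
  · intro i hi a ha hR
    have h1 := hw2 r l i a hl2 (by omega) ha
    have h2 := (hq5 (big r) r l x hl2).2 a (w.take i) ha
    have h3 : (qryU (big r) r l x a (w.take i)).length ≤
        K U (qryU (big r) r l x a (w.take i)) := hR
    omega

end RKNP
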