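import Pool.Agent.Lib.MP_69204b_lc.Stm

/-! Few survivors. -/

namespace RKNP

open HerCo

theorem P2_pf (hL : S_L4) (hb : S_big) : S_P2 := by
  intro U r L l i x T hr hl hcor hNB h256 Y hY
  obtain ⟨b1, b2, b3, b4, b5⟩ := hb r hr
  refine le_trans (le_of_lt ?_) b3
  refine hL (big r) r i (fun a ρ => !(decide (qry (big r) r l x (a ++ ρ) ∈ T))) b5 h256 ?_ Y ?_
  · refine le_trans (Nat.mul_le_mul_left 8 ?_) hNB
    refine Finset.card_le_card_of_injOn (fun q => q.1 ++ q.2) ?_ ?_
    · rintro ⟨a, ρ⟩ h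
      simp only [Finset.coe_filter, Finset.mem_product, mem_strs, Set.mem_setOf_eq,
        Bool.not_eq_true', decide_eq_false_iff_not] at h ⊢
      obtain ⟨⟨ha, hρ⟩, hT⟩ := h
      have hlen : (a ++ ρ).length = nz r + mm r := by rw [List.length_append, ha, hρ]
      exact ⟨hlen, fun h3 => hT ((hcor l hl _ hlen).2 h3)⟩
    · rintro ⟨a, ρ⟩ h ⟨a', ρ'⟩ h' e
      simp only [Finset.coe_filter, Finset.mem_product, mem_strs, Set.mem_setOf_eq] at h h'
      simp only at e
      have h3 : a.length = a'.length := by rw [h.1.1, h'.1.1]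
      obtain ⟨rfl, rfl⟩ := List.append_inj e h3
      rfl
  · intro u hu
    obtain ⟨h1, h2⟩ := hY u hu
    refine ⟨h1, ?_⟩
    unfold srv at h2
    rw [decide_eq_true_eq, (allB_spec b2).2.1, length_filter_allB b2] at h2
    exact h2

end RKNP
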