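import Pool.Agent.Lib.MP_69204b_lc.Stm

/-! Strings whose queries are all answered `false` survive. -/

namespace RKNP

open HerCo

theorem length_hsh (M r m : ℕ) (u ω : List Bool) : (hsh M r m u ω).length = m := by
  unfold hsh; simp

theorem P3_pf (hb : S_big) : S_P3 := by
  intro U r L l x u T hr hl hcor h
  obtain ⟨b1, b2, b3, b4, b5⟩ := hb r hr
  unfold srv
  have : (allB (big r) (nz r)).filter
      (fun a => !(decide (qryU (big r) r l x a u ∈ T))) = allB (big r) (nz r) := by
    rw [List.filter_eq_self]
    intro a ha
    have ha' := ((allB_spec b2).2.2 a).1 ha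
    have h1 := h a ha'
    have h2 : qryU (big r) r l x a u ∉ T := by
      intro h3
      apply h1
      refine (hcor l hl _ ?_).1 h3
      rw [List.length_append, length_hsh, ha']
    simp [h2]
  rw [this, decide_eq_true_eq]
  omega

end RKNP
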