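import Pool.Agent.Lib.MP_69204b_lc.Stm

/-! Breadth first search. -/

namespace RKNP

open HerCo

theorem bfsA_succ (M : ℕ) (s : List Bool → Bool) (i : ℕ) : bfsA M s (i + 1) =
    (((bfsA M s i).flatMap (fun u => [u ++ [false], u ++ [true]])).filter s).take M := by
  unfold bfsA
  rw [Function.iterate_succ_apply']

theorem nodup_flatMap_ext (L : List (List Bool)) (h : L.Nodup) :
    (L.flatMap (fun u => [u ++ [false], u ++ [true]])).Nodup := by
  induction L with
  | nil => simp
  | cons a L ih =>
    rw [List.nodup_cons] at h
    rw [List.flatMap_cons]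
    refine List.Nodup.append (by simp) (ih h.2) ?_
    intro v hv hv'
    rw [List.mem_flatMap] at hv'
    obtain ⟨u, hu, hu'⟩ := hv'
    simp only [List.mem_cons, List.not_mem_nil, or_false] at hv hu'
    have : a = u := by
      have h1 : v.dropLast = a := by rcases hv with rfl | rfl <;> simp
      have h2 : v.dropLast = u := by rcases hu' with rfl | rfl <;> simp
      rw [← h1, h2]
    exact h.1 (this ▸ hu)

theorem bfsA_len (M : ℕ) (s : List Bool → Bool) (i : ℕ) :
    ∀ u ∈ bfsA M s i, u.length = i := by
  induction i with
  | zero => intro u hu; simp [bfsA] at hu; simp [hu]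
  | succ i ih =>
    intro u hu
    rw [bfsA_succ] at hu
    have h1 := List.mem_of_mem_take hu
    rw [List.mem_filter, List.mem_flatMap] at h1
    obtain ⟨⟨v, hv, hv'⟩, _⟩ := h1
    have h2 := ih v hv
    simp only [List.mem_cons, List.not_mem_nil, or_false] at hv'
    rcases hv' with rfl | rfl <;> simp [h2]

theorem bfsA_nodup (M : ℕ) (s : List Bool → Bool) (i : ℕ) : (bfsA M s i).Nodup := by
  induction i with
  | zero => simp [bfsA]
  | succ i ih =>
    rw [bfsA_succ]
    exact ((nodup_flatMap_ext _ ih).filter _).sublist (List.take_sublist _ _)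

theorem P4_pf : S_P4 := by
  intro M s
  refine ⟨bfsA_len M s, fun w hw hY => ?_⟩
  have key : ∀ i ≤ w.length, w.take i ∈ bfsA M s i := by
    intro i
    induction i with
    | zero => intro _; simp [bfsA]
    | succ i ih =>
      intro hi
      have h1 := ih (by omega)
      rw [bfsA_succ, List.take_of_length_le]
      · rw [List.mem_filter, List.mem_flatMap]
        refine ⟨⟨w.take i, h1, ?_⟩, hw _ hi⟩
        have h2 : w.take (i + 1) = w.take i ++ [w[i]] := by
          rw [List.take_succ_eq_append_getElem (by omega)]
        rw [h2]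
        cases w[i] <;> simp
      · have hnd := (nodup_flatMap_ext _ (bfsA_nodup M s i)).filter s
        rw [← List.toFinset_card_of_nodup hnd]
        refine hY (i + 1) hi _ fun u hu => ?_
        rw [List.mem_toFinset, List.mem_filter, List.mem_flatMap] at hu
        obtain ⟨⟨v, hv, hv'⟩, hs⟩ := hu
        have h2 := bfsA_len M s i v hv
        simp only [List.mem_cons, List.not_mem_nil, or_false] at hv'
        refine ⟨?_, hs⟩
        rcases hv' with rfl | rfl <;> simp [h2]
  have h := key w.length le_rfl
  rwa [List.take_length] at h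

end RKNP
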