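import Pool.Agent.Lib.MP_69204b_lc.Stm

/-! The positively answered queries. -/

namespace RKNP

open HerCo

theorem P5_pf : S_P5 := by
  intro Q A v
  unfold posQ
  simp only [List.mem_map, List.mem_filter, List.mem_range]
  constructor
  · rintro ⟨i, ⟨hi, h⟩, rfl⟩
    have e : Q.getD i [] = Q[i] := by
      rw [List.getD_eq_getElem?_getD, List.getElem?_eq_getElem hi]; rfl
    rw [e]
    rw [List.getD_eq_getElem?_getD, List.getElem?_map, List.getElem?_eq_getElem hi] at h
    exact ⟨List.getElem_mem hi, h⟩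
  · rintro ⟨hv, hA⟩
    obtain ⟨i, hi, rfl⟩ := List.getElem_of_mem hv
    refine ⟨i, ⟨hi, ?_⟩, ?_⟩
    · rw [List.getD_eq_getElem?_getD, List.getElem?_map, List.getElem?_eq_getElem hi]
      exact hA
    · rw [List.getD_eq_getElem?_getD, List.getElem?_eq_getElem hi]; rfl

theorem P6_pf (hb : S_big) : S_P6 := by
  intro r L l x w hr hl hw
  unfold qs
  rw [List.mem_flatMap]
  refine ⟨l, List.mem_range.2 (by omega), ?_⟩
  rw [List.mem_map]
  exact ⟨w, ((allB_spec (hb r hr).1).2.2 w).2 hw, rfl⟩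

end RKNP
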