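import Pool.Agent.Lib.MP_69204b_lc.Stm

/-! Correctness of the decision. -/

namespace RKNP

open HerCo

theorem P7_pf (h1 : S_P1) (h2 : S_P2) (h3 : S_P3) (h4 : S_P4) (h5 : S_P5) (h6 : S_P6) :
    S_P7 := by
  intro U hU V hV p
  have hchk : FP .any (fun s : List Bool × List Bool =>
      V s && decide (s.2.length ≤ p.eval s.1.length)) := by
    have : FP .poly (fun s : List Bool × List Bool =>
      V s && decide (s.2.length ≤ p.eval s.1.length)) := by fun_prop
    exact this.toAny
  obtain ⟨c0, c1, hP1⟩ := h1 U hU _ hchk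
  refine ⟨c0, c1, fun x r hr hc0 hL h32 h256 => ?_⟩
  have hmm : 1 ≤ mm r := by
    unfold mm
    have : 0 < r ^ 3 := Nat.pow_pos (by omega)
    omega
  have hq : p.eval x.length < 2 ^ r := by
    have h7 : 256 * p.eval x.length * 1 ≤ 256 * p.eval x.length * mm r :=
      Nat.mul_le_mul_left _ hmm
    have h8 : 0 < 2 ^ r := Nat.pow_pos (by omega)
    omega
  have key : ∀ T : List (List Bool), Correct U r (2 * x.length + c1) x T →
      (acc V (big r) r (2 * x.length + c1) (p.eval x.length) x T = true ↔
        ∃ w : List Bool, w.length ≤ p.eval x.length ∧ V (x, w) = true) := by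
    intro T hcor
    unfold acc
    simp only [List.any_eq_true, List.mem_range]
    constructor
    · rintro ⟨l, hl, i, hi, u, hu, hVu⟩
      have hlen := (h4 (big r) (fun u => srv (big r) r l x T u)).1 i u hu
      exact ⟨u, by omega, hVu⟩
    · rintro ⟨w, hw, hVw⟩
      obtain ⟨w, l, hw1, hl, hNB, hqr⟩ := hP1 x r (p.eval x.length) hr hc0 hL h32 hq
        ⟨w, by simp [hw, hVw]⟩
      simp only [Bool.and_eq_true, decide_eq_true_eq] at hw1
      refine ⟨l, by omega, w.length, by omega, w, ?_, hw1.1⟩
      refine (h4 (big r) (fun u => srv (big r) r l x T u)).2 w ?_ ?_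
      · intro i hi
        exact h3 U r _ l x _ T hr (by omega) hcor (fun a ha => hqr i (by omega) a ha)
      · intro i hi Y hY
        refine h2 U r _ l i x T hr (by omega) hcor hNB ?_ Y hY
        refine le_trans ?_ h256
        exact Nat.mul_le_mul_right _ (Nat.mul_le_mul_left _ (by omega))
  apply key
  intro l hl w hw
  rw [h5]
  constructor
  · intro h
    simpa using h.2
  · intro h
    exact ⟨h6 r _ l x w hr hl hw, by simpa using h⟩

end RKNP
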