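import Pool.Agent.Lib.MP_69204b_lc.Stm

/-! Piece P8: the choice of the constant.   (helper54) -/

set_option autoImplicit false

namespace RKNP

open HerCo

private theorem p8_cube (t : ℕ) (ht : 32 ≤ t) : 40960 * t ^ 3 ≤ 2 ^ t := by
  induction t, ht using Nat.le_induction with
  | base => norm_num
  | succ t ht ih =>
    have h1 : (t + 1) ^ 3 ≤ 2 * t ^ 3 := by nlinarith [Nat.mul_le_mul ht ht]
    calc 40960 * (t + 1) ^ 3 ≤ 40960 * (2 * t ^ 3) := Nat.mul_le_mul_left _ h1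
      _ = 2 * (40960 * t ^ 3) := by ring
      _ ≤ 2 * 2 ^ t := Nat.mul_le_mul_left _ ih
      _ = 2 ^ (t + 1) := by ring

theorem P8_pf : S_P8 := by
  intro p c0 c1
  obtain ⟨k, hk⟩ := poly_bound p
  refine ⟨2 * (42 + k + c0 + c1), fun n => ?_⟩
  set C := 42 + k + c0 + c1 with hC
  set u := Nat.size n + 1 with hu
  have hu1 : 1 ≤ u := by omega
  have hn2 : n + 2 ≤ 2 ^ u := by
    have h1 : n < 2 ^ Nat.size n := Nat.lt_size_self n
    have h2 : 2 ^ u = 2 * 2 ^ Nat.size n := by rw [hu, pow_succ]; ring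
    omega
  have hCu : C ≤ C * u := Nat.le_mul_of_pos_right _ hu1
  have hr : 2 * C * u = C * u + C * u := by ring
  have h2r : 2 ^ (2 * C * u) = 2 ^ (C * u) * 2 ^ (C * u) := by rw [hr, pow_add]
  have hc1 : c1 + 2 ≤ 2 ^ (c1 + 2) := (Nat.lt_two_pow_self (n := c1 + 2)).le
  have hlin : 2 * n + c1 ≤ 2 ^ ((c1 + 3) * u) := by
    have h1 : 2 * n + c1 ≤ (n + 2) * (c1 + 2) := by nlinarith
    have h2 : 2 ^ (c1 + 2) ≤ 2 ^ ((c1 + 2) * u) :=
      Nat.pow_le_pow_right (by norm_num) (Nat.le_mul_of_pos_right _ hu1)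
    calc 2 * n + c1 ≤ (n + 2) * (c1 + 2) := h1
      _ ≤ 2 ^ u * 2 ^ ((c1 + 2) * u) := Nat.mul_le_mul hn2 (hc1.trans h2)
      _ = 2 ^ ((c1 + 3) * u) := by
        rw [← pow_add]
        congr 1
        ring
  refine ⟨?_, ?_, ?_, ?_, ?_⟩
  · nlinarith
  · nlinarith
  · refine lt_of_le_of_lt hlin ?_
    apply Nat.pow_lt_pow_right (by norm_num)
    nlinarith
  · have h5 : 32 ≤ 2 ^ (5 * u) := by
      calc 32 = 2 ^ 5 := by norm_num
        _ ≤ 2 ^ (5 * u) := Nat.pow_le_pow_right (by norm_num) (by omega)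
    calc 32 * n * (2 * n + c1) ^ 2 ≤ 2 ^ (5 * u) * 2 ^ u * (2 ^ ((c1 + 3) * u)) ^ 2 :=
          Nat.mul_le_mul (Nat.mul_le_mul h5 (by omega)) (Nat.pow_le_pow_left hlin 2)
      _ = 2 ^ ((12 + 2 * c1) * u) := by
        rw [← pow_mul, ← pow_add, ← pow_add]
        congr 1
        ring
      _ ≤ 2 ^ (2 * C * u) := by
        apply Nat.pow_le_pow_right (by norm_num)
        apply Nat.mul_le_mul_right
        omega
  · have h1 : p.eval n ≤ 2 ^ (C * u) := by
      calc p.eval n ≤ (n + 2) ^ k := hk n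
        _ ≤ (2 ^ u) ^ k := Nat.pow_le_pow_left hn2 k
        _ = 2 ^ (u * k) := by rw [← pow_mul]
        _ ≤ 2 ^ (C * u) := by
          apply Nat.pow_le_pow_right (by norm_num)
          rw [mul_comm]
          apply Nat.mul_le_mul_right
          omega
    have h2 : 40960 * (C * u) ^ 3 ≤ 2 ^ (C * u) := p8_cube (C * u) (by omega)
    have h3 : 256 * mm (2 * C * u) = 40960 * (C * u) ^ 3 := by
      unfold mm
      ring
    calc 256 * p.eval n * mm (2 * C * u) = (256 * mm (2 * C * u)) * p.eval n := by ring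
      _ ≤ 2 ^ (C * u) * 2 ^ (C * u) := by
        rw [h3]
        exact Nat.mul_le_mul h2 h1
      _ = 2 ^ (2 * C * u) := h2r.symm

end RKNP
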