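import Pool.Agent.Lib.MP_69204b_lc.Stm

/-! Every string has a shortest program. -/

namespace RKNP

/-- The machine which on `1 ^ n 0` gives the string with number `n`. -/
private def prV (p : List Bool) : Option (List Bool) :=
  if p.idxOf false + 1 = p.length then Encodable.decode (p.idxOf false) else none

private theorem prV_comp : Computable prV := by
  have h1 : Primrec fun p : List Bool => p.idxOf false :=
    Primrec.list_idxOf.comp (Primrec.const false) Primrec.id
  have h2 : Primrec fun p : List Bool =>
      (if p.idxOf false + 1 = p.length then Encodable.decode (p.idxOf false) else none :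
        Option (List Bool)) :=
    Primrec.ite (Primrec.eq.comp (Primrec.succ.comp h1) Primrec.list_length)
      (Primrec.decode.comp h1) (Primrec.const none)
  exact h2.to_comp

private theorem prV_eq {p : List Bool} (h : p.idxOf false + 1 = p.length) :
    p = List.replicate (p.idxOf false) true ++ [false] := by
  induction p with
  | nil => simp at h
  | cons b p ih =>
    cases b
    · simp at h
      subst h
      simp
    · have e : (true :: p).idxOf false = p.idxOf false + 1 := by
        rw [List.idxOf_cons_ne]
        decide
      rw [e, List.length_cons] at h
      rw [e, List.replicate_succ, List.cons_append, ← ih (by omega)]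

private theorem idx_rep (n : ℕ) (l : List Bool) :
    (List.replicate n true ++ false :: l).idxOf false = n := by
  induction n with
  | zero => simp
  | succ n ih =>
    rw [List.replicate_succ, List.cons_append, List.idxOf_cons_ne, ih]
    decide

theorem prog_pf : S_prog := by
  intro U hU
  have hne : ∀ x : List Bool, {n | ∃ p : List Bool, p.length = n ∧ x ∈ U p}.Nonempty := by
    intro x
    obtain ⟨c, hc⟩ := hU.optimal (fun p => (prV p : Part (List Bool))) prV_comp.ofOption (by
      intro p q hp hq hpq
      have h1 : p.idxOf false + 1 = p.length := by
        by_contra h
        simp [prV, h] at hp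
      have h2 : q.idxOf false + 1 = q.length := by
        by_contra h
        simp [prV, h] at hq
      have e1 := prV_eq h1
      obtain ⟨t, rfl⟩ := hpq
      have e2 : (p ++ t).idxOf false = p.idxOf false := by
        conv_lhs => rw [e1]
        rw [List.append_assoc, List.singleton_append, idx_rep]
      rw [e2, List.length_append] at h2
      have h3 : t.length = 0 := by omega
      rw [List.length_eq_zero_iff.1 h3, List.append_nil])
    obtain ⟨q, hq, -⟩ := hc (List.replicate (Encodable.encode x) true ++ [false]) x (by
      have e := idx_rep (Encodable.encode x) []
      simp [prV, e])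
    exact ⟨q.length, q, rfl, hq⟩
  refine ⟨fun x => ?_, fun p x hp => ?_⟩
  · obtain ⟨p, h1, h2⟩ := Nat.sInf_mem (hne x)
    exact ⟨p, h2, h1⟩
  · exact Nat.sInf_le ⟨p, rfl, hp⟩

end RKNP
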