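import Pool.Agent.Lib.MP_69204b_lc.Stm

/-! Piece Q1: the number of the bad strings. -/

namespace RKNP

theorem Q1_pf (hK : S_K1) (hE : S_ext) (hl : S_lext) (hb : S_big) : S_Q1 := by
  classical
  intro U hU r l n hr hlr h32 S hS
  obtain ⟨hb1, hb2, hb3, hb4, hb5⟩ := hb r hr
  set R : ℕ := ell r * mm r + mm r with hR
  have hnz : nz r + mm r = dd r + R := by unfold nz; omega
  clear_value R
  set G : List Bool → List Bool → ℝ := fun z e =>
    (((strs R).filter (fun y => z ++ (e ++ y) ∉ Rand U)).card : ℝ) / 2 ^ R with hG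
  have hG2 : ∀ z e, (2 : ℝ) ^ R * G z e =
      ∑ y ∈ strs R, if z ++ (e ++ y) ∉ Rand U then (1 : ℝ) else 0 := by
    intro z e
    rw [← card_filter_strs, hG]
    simp only
    rw [mul_div_cancel₀]
    positivity
  have hG01 : ∀ z e, 0 ≤ G z e ∧ G z e ≤ 1 := by
    intro z e
    constructor
    · rw [hG]; positivity
    · rw [hG]
      simp only
      rw [div_le_one (by positivity)]
      have h1 : ((strs R).filter (fun y => z ++ (e ++ y) ∉ Rand U)).card ≤ 2 ^ R := by
        rw [← card_strs R]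
        exact Finset.card_filter_le _ _
      exact_mod_cast h1
  refine hE (big r) r l n (by omega) hlr hb4 hb5 h32 G hG01 S ?_
  intro x hx
  obtain ⟨hxn, hxb⟩ := hS x hx
  refine ⟨hxn, ?_⟩
  -- lower bound for the right hand side
  have hlow : (5 : ℝ) / 8 < (∑ z ∈ strs (dd r), G z (ext (big r) r l x z)) / 2 ^ dd r := by
    unfold NBad at hxb
    rw [not_le] at hxb
    have h1 : (5 : ℝ) * 2 ^ (nz r + mm r) < 8 * (((strs (nz r + mm r)).filter
        (fun w => qry (big r) r l x w ∉ Rand U)).card : ℝ) := by exact_mod_cast hxb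
    rw [card_filter_strs, hnz, sum_strs_add] at h1
    have h2 : ∑ z ∈ strs (dd r), ∑ y ∈ strs R,
        (if qry (big r) r l x (z ++ y) ∉ Rand U then (1 : ℝ) else 0) =
        ∑ z ∈ strs (dd r), 2 ^ R * G z (ext (big r) r l x z) := by
      refine Finset.sum_congr rfl fun z hz => ?_
      rw [hG2]
      refine Finset.sum_congr rfl fun y _ => ?_
      rw [mem_strs] at hz
      have e1 : (z ++ y).take (dd r) = z := by rw [← hz, List.take_left]
      have e2 : (z ++ y).drop (dd r) = y := by rw [← hz, List.drop_left]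
      unfold qry
      rw [e1, e2]
    rw [h2, ← Finset.mul_sum, pow_add] at h1
    rw [lt_div_iff₀ (by positivity)]
    have hp : (0 : ℝ) < 2 ^ R := by positivity
    have h3 : (2 : ℝ) ^ R * (5 * 2 ^ dd r) <
        2 ^ R * (8 * ∑ z ∈ strs (dd r), G z (ext (big r) r l x z)) := by
      calc (2 : ℝ) ^ R * (5 * 2 ^ dd r) = 5 * (2 ^ dd r * 2 ^ R) := by ring
        _ < _ := h1
        _ = _ := by ring
    have h4 := lt_of_mul_lt_mul_left h3 hp.le
    linarith
  -- upper bound for the left hand side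
  have hup : (∑ z ∈ strs (dd r), ∑ e ∈ strs l, G z e) / (2 ^ dd r * 2 ^ l) ≤ 1 / 2 := by
    have h1 := hK U hU (dd r + (l + R)) ((strs (dd r + (l + R))).filter (fun v => v ∉ Rand U))
      (by
        intro v hv
        rw [Finset.mem_filter, mem_strs] at hv
        exact hv)
    have h2 : (2 : ℝ) * (((strs (dd r + (l + R))).filter (fun v => v ∉ Rand U)).card : ℝ) ≤
        2 ^ (dd r + (l + R)) := by exact_mod_cast h1
    rw [card_filter_strs, sum_strs_add] at h2
    have h3 : ∑ z ∈ strs (dd r), ∑ w ∈ strs (l + R),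
        (if z ++ w ∉ Rand U then (1 : ℝ) else 0) =
        ∑ z ∈ strs (dd r), ∑ e ∈ strs l, 2 ^ R * G z e := by
      refine Finset.sum_congr rfl fun z _ => ?_
      rw [sum_strs_add]
      refine Finset.sum_congr rfl fun e _ => ?_
      rw [hG2]
    simp only [← Finset.mul_sum] at h3
    rw [h3, pow_add, pow_add] at h2
    rw [div_le_iff₀ (by positivity)]
    have hp : (0 : ℝ) < 2 ^ R := by positivity
    have h4 : (2 : ℝ) ^ R * (2 * ∑ z ∈ strs (dd r), ∑ e ∈ strs l, G z e) ≤
        2 ^ R * (2 ^ dd r * 2 ^ l) := by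
      calc _ = 2 * (2 ^ R * ∑ z ∈ strs (dd r), ∑ e ∈ strs l, G z e) := by ring
        _ ≤ _ := h2
        _ = _ := by ring
    have h5 := le_of_mul_le_mul_left h4 hp
    linarith
  linarith

end RKNP
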