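import Pool.Agent.Lib.MP_69204b_lc.Stm

/-! Piece Q3: bad strings have small complexity. -/

namespace RKNP

private theorem Q3_pow2 : Primrec (fun n : ℕ => 2 ^ n) := by
  have h : Primrec (Nat.rec (motive := fun _ => ℕ) 1 (fun _ y => 2 * y) : ℕ → ℕ) :=
    Primrec.nat_rec₁ 1 (Primrec.nat_mul.comp (Primrec.const 2) Primrec.snd)
  refine h.of_eq fun n => ?_
  induction n with
  | zero => rfl
  | succ n ih =>
    change 2 * (Nat.rec (motive := fun _ => ℕ) 1 (fun _ y => 2 * y) n : ℕ) = _
    rw [ih, pow_succ]; ring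

private theorem Q3_add {α : Type} [Primcodable α] {f g : α → ℕ} (hf : Primrec f)
    (hg : Primrec g) : Primrec (fun a => f a + g a) := Primrec.nat_add.comp hf hg

private theorem Q3_mul {α : Type} [Primcodable α] {f g : α → ℕ} (hf : Primrec f)
    (hg : Primrec g) : Primrec (fun a => f a * g a) := Primrec.nat_mul.comp hf hg

private theorem Q3_ell : Primrec ell :=
  Q3_add (Q3_mul (Primrec.const 2) Primrec.id) (Primrec.const 1)

private theorem Q3_dd : Primrec dd :=
  Q3_mul Primrec.id (Q3_mul Q3_ell (Q3_mul (Primrec.const 2) Q3_ell))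

private theorem Q3_mm : Primrec mm := by
  have h : Primrec (fun r : ℕ => 20 * (r * r * r)) :=
    Q3_mul (Primrec.const 20) (Q3_mul (Q3_mul Primrec.id Primrec.id) Primrec.id)
  refine h.of_eq fun r => ?_
  unfold mm; ring

private theorem Q3_nz : Primrec nz := Q3_add Q3_dd (Q3_mul Q3_ell Q3_mm)

private theorem Q3_map_getD (L : List (List Bool)) :
    (List.range L.length).map (fun j => L.getD j []) = L := by
  refine List.ext_getElem ?_ ?_
  · rw [List.length_map, List.length_range]
  · intro i h1 h2
    rw [List.getElem_map, List.getElem_range, List.getD_eq_getElem _ _ h2]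

private theorem Q3_count (L : List (List Bool)) (g : List Bool → Bool) :
    ((List.range L.length).filter (fun j => g (L.getD j []))).length =
      (L.filter g).length := by
  conv_rhs => rw [← Q3_map_getD L]
  rw [List.filter_map, List.length_map]
  rfl

theorem Q3_pf (hK3 : S_K3) (hK5 : S_K5) (h1q : S_Q1) (h2q : S_Q2) (hc : S_count) (hb : S_big) :
    S_Q3 := by
  classical
  intro U hU
  obtain ⟨nR, hnRc, hnR, hmono⟩ := hK5 U hU
  obtain ⟨hqj, -, hh1, hh2, hh3⟩ := h2q
  -- the functions
  set N : List Bool → ℕ := fun h => 2 ^ (nz (h1 h) + mm (h1 h)) with hN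
  set b : List Bool → ℕ := fun h => h2 h + dd (h1 h) + 3 * h1 h + 5 with hbdef
  set cnt : List Bool × List Bool × ℕ → ℕ := fun a =>
    ((List.range (N a.1)).filter (fun j => nR (a.2.2, qj (a.1, a.2.1, j)))).length with hcnt
  set P : List Bool × List Bool × ℕ → Bool := fun a =>
    decide (a.2.1.length = h3 a.1) && decide (5 * N a.1 < 8 * cnt a) with hP
  have hNc : Computable N := by
    have h0 : Primrec (fun n : ℕ => 2 ^ (nz n + mm n)) := Q3_pow2.comp (Q3_add Q3_nz Q3_mm)
    exact h0.to_comp.comp hh1
  have hbc : Computable b := by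
    have h0 : Primrec (fun q : ℕ × ℕ => q.1 + dd q.2 + 3 * q.2 + 5) :=
      Q3_add (Q3_add (Q3_add Primrec.fst (Q3_dd.comp Primrec.snd))
        (Q3_mul (Primrec.const 3) Primrec.snd)) (Primrec.const 5)
    exact h0.to_comp.comp (hh2.pair hh1)
  have hcntc : Computable cnt := by
    refine hc (List Bool × List Bool × ℕ) (fun a => N a.1)
      (fun q => nR (q.1.2.2, qj (q.1.1, q.1.2.1, q.2))) (hNc.comp Computable.fst) ?_
    refine hnRc.comp (Computable.pair ?_ (hqj.comp (Computable.pair ?_
      (Computable.pair ?_ Computable.snd))))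
    · exact Computable.snd.comp (Computable.snd.comp Computable.fst)
    · exact Computable.fst.comp Computable.fst
    · exact Computable.fst.comp (Computable.snd.comp Computable.fst)
  have hPc : Computable P := by
    have hand : Primrec (fun q : (ℕ × ℕ) × (ℕ × ℕ) =>
        decide (q.1.1 = q.1.2) && decide (5 * q.2.1 < 8 * q.2.2)) :=
      Primrec.and.comp
        ((Primrec.eq (α := ℕ)).decide.comp (Primrec.fst.comp Primrec.fst)
          (Primrec.snd.comp Primrec.fst))
        (Primrec.nat_lt.decide.comp
          (Q3_mul (Primrec.const 5) (Primrec.fst.comp Primrec.snd))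
          (Q3_mul (Primrec.const 8) (Primrec.snd.comp Primrec.snd)))
    exact hand.to_comp.comp (Computable.pair
      (Computable.pair
        ((Primrec.list_length (α := Bool)).to_comp.comp (Computable.fst.comp Computable.snd))
        (hh3.comp Computable.fst))
      (Computable.pair (hNc.comp Computable.fst) hcntc))
  obtain ⟨c, hcK⟩ := hK3 U hU P b hPc hbc
  refine ⟨c, fun r l x hr hlr hxr h32 hx => ?_⟩
  obtain ⟨hb1, hb2, hb3, hb4, hb5⟩ := hb r hr
  have e1 : h1 (hdr r l x.length) = r := h1_hdr _ _ _
  have e2 : h2 (hdr r l x.length) = l := h2_hdr _ hlr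
  have e3 : h3 (hdr r l x.length) = x.length := h3_hdr _ hxr
  set H := hdr r l x.length with hH
  set L := allB (big r) (nz r + mm r) with hL
  have hLlen : L.length = 2 ^ (nz r + mm r) := (allB_spec hb1).2.1
  have hNH : N H = L.length := by rw [hLlen, hN]; simp only [e1]
  have hcount : ∀ (y : List Bool) (t : ℕ), cnt (H, y, t) =
      ((strs (nz r + mm r)).filter (fun w => nR (t, qry (big r) r l y w) = true)).card := by
    intro y t
    have g1 : cnt (H, y, t) = ((List.range L.length).filter
        (fun j => (fun w => nR (t, qry (big r) r l y w)) (L.getD j []))).length := by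
      rw [hcnt]
      simp only [hNH]
      congr 2
      funext j
      simp only [qj, e1, e2, ← hL]
    rw [g1, Q3_count L (fun w => nR (t, qry (big r) r l y w)), hL, length_filter_allB hb1]
  have hPiff : ∀ y : List Bool, (∃ t, P (H, y, t) = true) ↔
      y.length = x.length ∧ ¬ NBad U r l y := by
    intro y
    constructor
    · rintro ⟨t, ht⟩
      rw [hP] at ht
      simp only [Bool.and_eq_true, decide_eq_true_eq, e3] at ht
      refine ⟨ht.1, ?_⟩
      unfold NBad
      rw [not_le]
      have h6 := ht.2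
      rw [hcount, hNH, hLlen] at h6
      refine lt_of_lt_of_le h6 (Nat.mul_le_mul_left _ (Finset.card_le_card ?_))
      intro w hw
      rw [Finset.mem_filter] at hw ⊢
      exact ⟨hw.1, (hnR _).2 ⟨t, hw.2⟩⟩
    · rintro ⟨hy1, hy2⟩
      unfold NBad at hy2
      rw [not_le] at hy2
      -- a common time
      have hex : ∀ w : List Bool, ∃ t, qry (big r) r l y w ∉ Rand U →
          nR (t, qry (big r) r l y w) = true := by
        intro w
        by_cases hw : qry (big r) r l y w ∉ Rand U
        · obtain ⟨t, ht⟩ := (hnR _).1 hw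
          exact ⟨t, fun _ => ht⟩
        · exact ⟨0, fun h => absurd h hw⟩
      choose τ hτ using hex
      refine ⟨(strs (nz r + mm r)).sup τ, ?_⟩
      rw [hP]
      simp only [Bool.and_eq_true, decide_eq_true_eq, e3]
      refine ⟨hy1, ?_⟩
      rw [hcount, hNH, hLlen]
      refine lt_of_lt_of_le hy2 (Nat.mul_le_mul_left _ (Finset.card_le_card ?_))
      intro w hw
      rw [Finset.mem_filter] at hw ⊢
      refine ⟨hw.1, hmono (τ w) _ _ (Finset.le_sup hw.1) (hτ w hw.2)⟩
  have hfin := hcK H x ((hPiff x).2 ⟨rfl, hx⟩) (by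
    intro S hS
    have h7 := h1q U hU r l x.length hr hlr h32 S (fun y hy => (hPiff y).1 (hS y hy))
    refine le_trans h7 ?_
    have hbH : b H = l + dd r + 3 * r + 5 := by rw [hbdef]; simp only [e1, e2]
    rw [hbH]
    have h8 : l ≤ 2 ^ r := hlr.le
    calc l * 2 ^ dd r * 2 ^ l * (32 * l ^ 2)
        ≤ 2 ^ r * 2 ^ dd r * 2 ^ l * (32 * (2 ^ r) ^ 2) := by gcongr
      _ = 2 ^ (l + dd r + 3 * r + 5) := by
        rw [← pow_mul, pow_add, pow_add, pow_add, Nat.mul_comm 3 r, pow_mul, pow_mul]
        ring)
  have hbH : b H = l + dd r + 3 * r + 5 := by rw [hbdef]; simp only [e1, e2]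
  have hlen : H.length = 5 * r + 2 := length_hdr _ _ _
  rw [hbH, hlen] at hfin
  exact hfin

end RKNP
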