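import Pool.Agent.Lib.MP_69204b_lc.Stm

/-! Piece Q4: queries about beginnings of the witness have small complexity. -/

namespace RKNP

open HerCo

private theorem Q4_add {α : Type} [Primcodable α] {f g : α → ℕ} (hf : Primrec f)
    (hg : Primrec g) : Primrec (fun a => f a + g a) := Primrec.nat_add.comp hf hg

private theorem Q4_mul {α : Type} [Primcodable α] {f g : α → ℕ} (hf : Primrec f)
    (hg : Primrec g) : Primrec (fun a => f a * g a) := Primrec.nat_mul.comp hf hg

private theorem Q4_ell : Primrec ell :=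
  Q4_add (Q4_mul (Primrec.const 2) Primrec.id) (Primrec.const 1)

private theorem Q4_dd : Primrec dd :=
  Q4_mul Primrec.id (Q4_mul Q4_ell (Q4_mul (Primrec.const 2) Q4_ell))

private theorem Q4_mm : Primrec mm := by
  have h : Primrec (fun r : ℕ => 20 * (r * r * r)) :=
    Q4_mul (Primrec.const 20) (Q4_mul (Q4_mul Primrec.id Primrec.id) Primrec.id)
  refine h.of_eq fun r => ?_
  unfold mm; ring

private theorem Q4_nz : Primrec nz := Q4_add Q4_dd (Q4_mul Q4_ell Q4_mm)

private theorem Q4_gen (hK : S_K2) (U : List Bool →. List Bool) (hU : Universal U)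
    (W : List Bool →. List Bool) (hWp : Partrec W)
    (f : List Bool × List Bool × List Bool × List Bool → List Bool) (hf : Computable f)
    (m : List Bool → ℕ) (hm : Computable m) :
    ∃ c : ℕ, ∀ x h a w : List Bool, a.length = m h → w ∈ W x →
      K U (f (h, x, w, a)) ≤ K U x + 2 * h.length + a.length + c := by
  have h0 : Computable (fun p : (List Bool × List Bool × List Bool) × List Bool =>
      f (p.1.2.1, p.1.1, p.2, p.1.2.2)) :=
    hf.comp (Computable.pair (Computable.fst.comp (Computable.snd.comp Computable.fst))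
      (Computable.pair (Computable.fst.comp Computable.fst)
        (Computable.pair Computable.snd
          (Computable.snd.comp (Computable.snd.comp Computable.fst)))))
  have h1 : Computable₂ (fun (q : List Bool × List Bool × List Bool) (w : List Bool) =>
      f (q.2.1, q.1, w, q.2.2)) := h0
  have h2 : Partrec (fun q : List Bool × List Bool × List Bool => W q.1) :=
    hWp.comp Computable.fst
  obtain ⟨c, hc⟩ := hK U hU
    (fun q => (W q.1).map (fun w => f (q.2.1, q.1, w, q.2.2))) m (h2.map h1) hm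
  refine ⟨c, fun x h a w ha hw => hc x h a _ ha ?_⟩
  rw [Part.mem_map_iff]
  exact ⟨w, hw, rfl⟩

theorem Q4_pf (hK : S_K2) (hw : S_wit) (h2q : S_Q2) (hb2 : S_B2) (hb3 : S_B3) : S_Q4 := by
  intro U hU chk hchk
  obtain ⟨-, hqw, hh1, -, -⟩ := h2q
  have hc : Computable chk :=
    (hb3 (List Bool × List Bool) (hb2.2.2.2 _ _ hb2.2.2.1 hb2.2.2.1)).2.2 chk hchk
  obtain ⟨W, hWp, hW⟩ := hw chk hc
  obtain ⟨c, hcK⟩ := Q4_gen hK U hU W hWp qw hqw (fun h => nz (h1 h)) (Q4_nz.to_comp.comp hh1)
  refine ⟨c, fun x hx => ?_⟩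
  obtain ⟨w, hwW, hwc⟩ := hW x hx
  refine ⟨w, hwc, fun r l i a hl hi ha => ?_⟩
  have e1 : h1 (hdr r l i) = r := h1_hdr _ _ _
  have e2 : h2 (hdr r l i) = l := h2_hdr _ hl
  have e3 : h3 (hdr r l i) = i := h3_hdr _ hi
  have h := hcK x (hdr r l i) a w (by rw [e1, ha]) hwW
  have hq : qw (hdr r l i, x, w, a) = qryU (big r) r l x a (w.take i) := by
    simp only [qw, e1, e2, e3]
  rw [hq, length_hdr, ha] at h
  exact h

end RKNP
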