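import Pool.Agent.Lib.MP_69204b_lc.Stm

/-! Piece Q5: length of the queries. -/

namespace RKNP

theorem Q5_pf (hl : S_lext) : S_Q5 := by
  intro M r l x hlr
  have h1 : ∀ w : List Bool, w.length = nz r + mm r →
      (qry M r l x w).length = nz r + mm r + l := by
    intro w hw
    have hd : dd r ≤ nz r := by unfold nz; omega
    unfold qry
    rw [List.length_append, List.length_append, List.length_take, List.length_drop,
      hl M r l x _ hlr, hw]
    omega
  refine ⟨h1, fun a u ha => ?_⟩
  unfold qryU
  apply h1
  rw [List.length_append, ha]
  unfold hsh
  rw [List.length_map, List.length_range]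

end RKNP
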