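import Pool.Agent.Lib.MP_69204b_lc.Basic

/-! Statements of the pieces of the proof. -/

namespace RKNP

open HerCo Turing

/-! ### K: Kolmogorov complexity -/

/-- [K0a] Step functions. -/
def S_step : Prop := ∀ U : List Bool →. List Bool, Partrec U →
  ∃ st : ℕ × List Bool → Option (List Bool), Computable st ∧
    (∀ p x, x ∈ U p ↔ ∃ t, st (t, p) = some x) ∧
    (∀ t t' p x, t ≤ t' → st (t, p) = some x → st (t', p) = some x)

/-- [K0b] Every string has a shortest program. -/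
def S_prog : Prop := ∀ U : List Bool →. List Bool, Universal U →
  (∀ x, ∃ p, x ∈ U p ∧ p.length = K U x) ∧ (∀ p x, x ∈ U p → K U x ≤ p.length)

/-- [K1] At most half of the strings of each length are not random. -/
def S_K1 : Prop := ∀ U : List Bool →. List Bool, Universal U → ∀ (n : ℕ) (S : Finset (List Bool)),
  (∀ v ∈ S, v.length = n ∧ v ∉ Rand U) → 2 * S.card ≤ 2 ^ n

/-- [K2] Complexity of computed strings. -/
def S_K2 : Prop := ∀ U : List Bool →. List Bool, Universal U →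
  ∀ (F : List Bool × List Bool × List Bool →. List Bool) (m : List Bool → ℕ),
    Partrec F → Computable m →
    ∃ c : ℕ, ∀ x h a v : List Bool, a.length = m h → v ∈ F (x, h, a) →
      K U v ≤ K U x + 2 * h.length + a.length + c

/-- [K3] Complexity of the elements of small enumerable sets. -/
def S_K3 : Prop := ∀ U : List Bool →. List Bool, Universal U →
  ∀ (P : List Bool × List Bool × ℕ → Bool) (b : List Bool → ℕ),
    Computable P → Computable b →
    ∃ c : ℕ, ∀ h x : List Bool, (∃ t, P (h, x, t) = true) →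
      (∀ S : Finset (List Bool), (∀ y ∈ S, ∃ t, P (h, y, t) = true) → S.card ≤ 2 ^ (b h)) →
      K U x ≤ b h + 2 * h.length + c

/-- [K4] Trivial upper bound. -/
def S_K4 : Prop := ∀ U : List Bool →. List Bool, Universal U →
  ∃ c : ℕ, ∀ x : List Bool, K U x ≤ 2 * x.length + c

/-- [K5] The nonrandom strings are recursively enumerable. -/
def S_K5 : Prop := ∀ U : List Bool →. List Bool, Universal U →
  ∃ nR : ℕ × List Bool → Bool, Computable nR ∧
    (∀ v, v ∉ Rand U ↔ ∃ t, nR (t, v) = true) ∧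
    (∀ t t' v, t ≤ t' → nR (t, v) = true → nR (t', v) = true)

/-! ### B: from `FP` to `Computable` -/

/-- [B1] Raw outputs. -/
def S_B1 : Prop := ∀ (α : Type) [Enc α] [Primcodable α] (F : α → List Bool),
  Computable (enc : α → List Bool) → Cp .any (enc : α → List Bool) F → Computable F

/-- The code function is computable. -/
class CE (α : Type) [Enc α] [Primcodable α] : Prop where
  ce : Computable (enc : α → List Bool)

/-- [B2] Codes are computable. -/
def S_B2 : Prop := CE Bool ∧ CE ℕ ∧ CE (List Bool) ∧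
  ∀ (α β : Type) [Enc α] [Primcodable α] [Enc β] [Primcodable β], CE α → CE β → CE (α × β)

/-- [B3] Typed outputs. -/
def S_B3 : Prop := ∀ (α : Type) [Enc α] [Primcodable α], CE α →
  (∀ f : α → List Bool, FP .any f → Computable f) ∧
  (∀ f : α → ℕ, FP .any f → Computable f) ∧
  (∀ f : α → Bool, FP .any f → Computable f)

/-- [B4] Search for a witness. -/
def S_wit : Prop := ∀ chk : List Bool × List Bool → Bool, Computable chk →
  ∃ W : List Bool →. List Bool, Partrec W ∧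
    ∀ x, (∃ w, chk (x, w) = true) → ∃ w, w ∈ W x ∧ chk (x, w) = true

/-- [B5] Bounded counting. -/
def S_count : Prop := ∀ (α : Type) [Primcodable α] (N : α → ℕ) (g : α × ℕ → Bool),
  Computable N → Computable g →
  Computable (fun a : α => ((List.range (N a)).filter (fun j => g (a, j))).length)

/-! ### C: the code -/

/-- [C1] The prime number. -/
def S_prm : Prop := ∀ M r, 2 ^ (r + 1) ≤ M →
  (prm M r).Prime ∧ 2 ^ r ≤ prm M r ∧ prm M r ≤ 2 ^ (r + 1)

/-- [C2] Orthogonality of the Hadamard code. -/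
def S_ip : Prop := ∀ k n n', n < 2 ^ k → n' < 2 ^ k →
  ∑ β ∈ strs k, sg (ip β n) * sg (ip β n') = if n = n' then (2 : ℝ) ^ k else 0

/-- [C3] Different polynomials agree on few points. -/
def S_horner : Prop := ∀ (p r i : ℕ) (u u' : List Bool), p.Prime → 2 ^ r ≤ p →
  u.length = i → u'.length = i → u ≠ u' →
  ((strs r).filter (fun a => horner p (num a) u = horner p (num a) u')).card ≤ i

/-- [C3b] Values are small. -/
def S_horner_lt : Prop := ∀ (p a : ℕ) (u : List Bool), 0 < p → horner p a u < p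

/-- [C4] Different code words are nearly orthogonal. -/
def S_corr : Prop := ∀ (M r i : ℕ) (u u' : List Bool), 2 ^ (r + 1) ≤ M →
  u.length = i → u'.length = i → u ≠ u' →
  0 ≤ ∑ ζ ∈ strs (ell r), sg (cbit M (prm M r) r u ζ) * sg (cbit M (prm M r) r u' ζ) ∧
  ∑ ζ ∈ strs (ell r), sg (cbit M (prm M r) r u ζ) * sg (cbit M (prm M r) r u' ζ)
    ≤ (i : ℝ) * 2 ^ (r + 1)

/-- [J1] Johnson bound. -/
def S_J1 : Prop := ∀ (Z ι : Type) [Fintype Z] (S : Finset ι) (v : ι → Z → ℝ) (ψ : Z → ℝ)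
  (η θ : ℝ), 0 < Fintype.card Z → (∀ x z, |v x z| ≤ 1) → (∀ z, |ψ z| ≤ 1) → 0 ≤ η → 0 < θ →
  2 * η ≤ θ ^ 2 →
  (∀ x ∈ S, ∀ y ∈ S, x ≠ y → ∑ z, v x z * v y z ≤ η * Fintype.card Z) →
  (∀ x ∈ S, θ * Fintype.card Z ≤ ∑ z, v x z * ψ z) →
  (S.card : ℝ) ≤ 2 / θ ^ 2

/-- [J2] Johnson bound for the code. -/
def S_J2 : Prop := ∀ (M r n l : ℕ), 2 ^ (r + 1) ≤ M → 1 ≤ l → 32 * n * l ^ 2 ≤ 2 ^ r →
  ∀ ψ : (Fin (ell r) → Bool) → ℝ, (∀ ζ, |ψ ζ| ≤ 1) → ∀ S : Finset (List Bool),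
  (∀ x ∈ S, x.length = n ∧ 1 / (4 * (l : ℝ)) * 2 ^ (ell r) ≤
    ∑ ζ : Fin (ell r) → Bool, sg (cbit M (prm M r) r x (List.ofFn ζ)) * ψ ζ) →
  S.card ≤ 32 * l ^ 2

/-! ### N: the reconstruction lemma of Nisan-Wigderson / Trevisan -/

/-- Average of `G` over all extensions of `u` by `k` bits. -/
noncomputable def avg (G : List Bool → ℝ) (k : ℕ) (u : List Bool) : ℝ :=
  (∑ e ∈ strs k, G (u ++ e)) / 2 ^ k

/-- Influence of the next bit. -/
noncomputable def del (G : List Bool → ℝ) (l t : ℕ) (u : List Bool) : ℝ :=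
  avg G (l - 1 - t) (u ++ [false]) - avg G (l - 1 - t) (u ++ [true])

/-- [N1] Hybrid argument (Yao). -/
def S_hyb : Prop := ∀ (l : ℕ) (G : List Bool → ℝ),
  (∀ f : List Bool, f.length = l →
    G f - avg G l [] = (∑ t ∈ Finset.range l, sg (f.getD t false) * del G l t (f.take t)) / 2) ∧
  ((∀ e, 0 ≤ G e ∧ G e ≤ 1) → ∀ t u, |del G l t u| ≤ 1)

open Classical in
/-- The seed which is `ζ` on the positions `s` and `ρ` outside. -/
noncomputable def merge {n d : ℕ} (s : Fin n → Fin d) (ρ : Fin d → Bool) (ζ : Fin n → Bool) :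
    Fin d → Bool :=
  fun j => if h : ∃ a, s a = j then ζ h.choose else ρ j

/-- [N2] Averages over seeds. -/
def S_merge : Prop := ∀ (n d : ℕ) (s : Fin n → Fin d), Function.Injective s →
  (∀ ρ ζ a, merge s ρ ζ (s a) = ζ a) ∧
  (∀ ρ ζ j, (¬ ∃ a, s a = j) → merge s ρ ζ j = ρ j) ∧
  ∀ F : (Fin d → Bool) → ℝ,
    ∑ ρ : Fin d → Bool, ∑ ζ : Fin n → Bool, F (merge s ρ ζ) = 2 ^ n * ∑ z, F z

/-- [N3] Number of functions which depend only on the coordinates in `A`. -/
def S_dep : Prop := ∀ (n : ℕ) (A : Finset (Fin n)), ∃ H : Finset ((Fin n → Bool) → Bool),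
  H.card ≤ 2 ^ (2 ^ A.card) ∧
  ∀ h : (Fin n → Bool) → Bool, (∀ ζ ζ', (∀ a ∈ A, ζ a = ζ' a) → h ζ = h ζ') → h ∈ H

open Classical in
/-- [N4] Reconstruction: few `x` are distinguished. -/
def S_NW : Prop := ∀ (d n l W B : ℕ) (X : Type) (c : X → (Fin n → Bool) → Bool)
  (σ : Fin l → Fin n → Fin d) (G : (Fin d → Bool) → List Bool → ℝ) (ε θ : ℝ),
  0 ≤ ε → θ * l ≤ 2 * ε → (∀ t, Function.Injective (σ t)) →
  (∀ t, ∑ t' ∈ Finset.univ.filter (fun t' => t' < t),
    2 ^ (Finset.univ.filter (fun a => ∃ b, σ t a = σ t' b)).card ≤ W) →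
  (∀ z e, 0 ≤ G z e ∧ G z e ≤ 1) →
  (∀ ψ : (Fin n → Bool) → ℝ, (∀ ζ, |ψ ζ| ≤ 1) → ∀ S : Finset X,
    (∀ x ∈ S, θ * 2 ^ n ≤ ∑ ζ, sg (c x ζ) * ψ ζ) → S.card ≤ B) →
  ∀ S : Finset X, (∀ x ∈ S,
    (∑ z, ∑ e ∈ strs l, G z e) / (2 ^ d * 2 ^ l) + ε <
      (∑ z, G z (List.ofFn fun t => c x fun a => z (σ t a))) / 2 ^ d) →
  S.card ≤ l * 2 ^ d * 2 ^ W * B

/-! ### D: the design -/

/-- [D1] Averaging. -/
def S_davg : Prop := ∀ (l : ℕ) (D : List (List ℕ)), 1 ≤ l →
  ∃ c : List ℕ, c.length = l ∧ (∀ b ∈ c, b < 2 * l) ∧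
    (D.map (fun c' => 2 ^ agr l c c')).sum ≤ 2 * D.length

/-- [D2] Enumeration of all functions. -/
def S_allF : Prop := ∀ M g k : ℕ, g ^ k ≤ M → 1 ≤ M →
  ∀ c : List ℕ, c ∈ allF M g k ↔ c.length = k ∧ ∀ b ∈ c, b < g

/-- [D3] Properties of the design. -/
def S_dsg : Prop := ∀ M l n : ℕ, 1 ≤ l → (2 * l) ^ l ≤ M →
  (dsg M (2 * l) l n).length = n ∧ ∀ i < n,
    ((dsg M (2 * l) l n).getD i []).length = l ∧
    (∀ b ∈ (dsg M (2 * l) l n).getD i [], b < 2 * l) ∧
    ∑ j ∈ Finset.range i,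
      2 ^ agr l ((dsg M (2 * l) l n).getD i []) ((dsg M (2 * l) l n).getD j []) ≤ 2 * i

/-! ### E: the extractor -/

/-- Blocks and indices of the output bits. -/
def idx (r l : ℕ) : List (ℕ × ℕ) :=
  (List.range r).flatMap (fun k => (List.range (blk l k)).map (fun i => (k, i)))

/-- [E1] Indices of the output bits. -/
def S_idx : Prop := ∀ r l : ℕ, l < 2 ^ r →
  (idx r l).length = l ∧ (idx r l).Nodup ∧
  ∀ t < l, ∃ k i, (idx r l).getD t (0, 0) = (k, i) ∧ k < r ∧ i < blk l k ∧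
    t = l - hlf l k + i ∧ hlf l k ≤ l ∧ 2 * blk l k ≤ hlf l k + 1

open Classical in
/-- [E2] The extractor in terms of positions. -/
def S_pos : Prop := ∀ M r l : ℕ, 1 ≤ r → l < 2 ^ r → (gg r) ^ (ell r) ≤ M →
  ∃ σ : Fin l → Fin (ell r) → Fin (dd r), (∀ t, Function.Injective (σ t)) ∧
    (∀ t, ∑ t' ∈ Finset.univ.filter (fun t' => t' < t),
      2 ^ (Finset.univ.filter (fun a => ∃ b, σ t a = σ t' b)).card ≤ l) ∧
    ∀ (x : List Bool) (z : Fin (dd r) → Bool), ext M r l x (List.ofFn z) =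
      List.ofFn fun t => cbit M (prm M r) r x (List.ofFn fun a => z (σ t a))

/-- [E3] Length of the output. -/
def S_lext : Prop := ∀ (M r l : ℕ) (x z : List Bool), l < 2 ^ r → (ext M r l x z).length = l

/-- [E4] The extractor theorem. -/
def S_ext : Prop := ∀ M r l n : ℕ, 1 ≤ r → l < 2 ^ r → (gg r) ^ (ell r) ≤ M →
  2 ^ (r + 1) ≤ M → 32 * n * l ^ 2 ≤ 2 ^ r →
  ∀ G : List Bool → List Bool → ℝ, (∀ z e, 0 ≤ G z e ∧ G z e ≤ 1) →
  ∀ S : Finset (List Bool), (∀ x ∈ S, x.length = n ∧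
    (∑ z ∈ strs (dd r), ∑ e ∈ strs l, G z e) / (2 ^ dd r * 2 ^ l) + 1 / 8 <
      (∑ z ∈ strs (dd r), G z (ext M r l x z)) / 2 ^ dd r) →
  S.card ≤ l * 2 ^ dd r * 2 ^ l * (32 * l ^ 2)

/-! ### L: leftover hash lemma -/

open Classical in
/-- [L1] Abstract form. -/
def S_L1 : Prop := ∀ (α β γ : Type) (A : Finset α) (B : Finset β) (Y : Finset γ)
  (h : α → γ → β) (T : α → β → Prop) (δ ε : ℝ), 0 < A.card → 0 < B.card → 0 < Y.card →
  (∀ a ∈ A, ∀ u ∈ Y, h a u ∈ B) → 0 ≤ δ → 0 ≤ ε →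
  (∀ u ∈ Y, ∀ u' ∈ Y, u ≠ u' →
    ((A.filter fun a => h a u = h a u').card : ℝ) * B.card ≤ (1 + δ) * A.card) →
  (B.card : ℝ) / Y.card + δ ≤ ε ^ 2 →
  (∑ u ∈ Y, ((A.filter fun a => T a (h a u)).card : ℝ)) / (Y.card * A.card) ≤
    (((A ×ˢ B).filter fun q => T q.1 q.2).card : ℝ) / (A.card * B.card) + ε

/-- [L2] Collisions of the fingerprints. -/
def S_L2 : Prop := ∀ (M r m i : ℕ) (u u' : List Bool), 2 ^ (r + 1) ≤ M →
  u.length = i → u'.length = i → u ≠ u' →
  ((strs (ell r * m)).filter (fun ω => hsh M r m u ω = hsh M r m u' ω)).card * 2 ^ m ≤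
    (2 ^ (r + 1) * (2 ^ r + i)) ^ m

/-- [L3] A numerical estimate. -/
def S_L3 : Prop := ∀ r m i : ℕ, 256 * i * m ≤ 2 ^ r →
  ((2 : ℝ) ^ r + i) ^ m ≤ (1 + 1 / 128) * (2 ^ r) ^ m

/-- [L4] There are few survivors. -/
def S_L4 : Prop := ∀ (M r i : ℕ) (T : List Bool → List Bool → Bool), 2 ^ (r + 1) ≤ M →
  256 * i * mm r ≤ 2 ^ r →
  8 * (((strs (nz r)) ×ˢ (strs (mm r))).filter (fun q => T q.1 q.2 = true)).card ≤
    5 * 2 ^ (nz r + mm r) →
  ∀ Y : Finset (List Bool), (∀ u ∈ Y, u.length = i ∧ 7 * 2 ^ nz r ≤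
    8 * ((strs (nz r)).filter
      (fun a => T a (hsh M r (mm r) u (a.drop (dd r))) = true)).card) →
  Y.card < 2 ^ (mm r + 7)

/-! ### Q: the queries -/

open Classical in
/-- `x` is not bad for the level `l`. -/
def NBad (U : List Bool →. List Bool) (r l : ℕ) (x : List Bool) : Prop :=
  8 * ((strs (nz r + mm r)).filter (fun w => qry (big r) r l x w ∉ Rand U)).card ≤
    5 * 2 ^ (nz r + mm r)

/-- [P0] Parameters: the cap is big enough. -/
def S_big : Prop := ∀ r : ℕ, 64 ≤ r → 2 ^ (nz r + mm r) ≤ big r ∧ 2 ^ nz r ≤ big r ∧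
  2 ^ (mm r + 7) ≤ big r ∧ (gg r) ^ (ell r) ≤ big r ∧ 2 ^ (r + 1) ≤ big r

/-- [Q1] Number of the bad strings. -/
def S_Q1 : Prop := ∀ (U : List Bool →. List Bool), Universal U → ∀ r l n : ℕ, 64 ≤ r →
  l < 2 ^ r → 32 * n * l ^ 2 ≤ 2 ^ r → ∀ S : Finset (List Bool),
  (∀ x ∈ S, x.length = n ∧ ¬ NBad U r l x) → S.card ≤ l * 2 ^ dd r * 2 ^ l * (32 * l ^ 2)

/-- [Q2] Computability of the functions `qj`, `qw`, `h1`, `h2`, `h3`. -/
def S_Q2 : Prop := Computable qj ∧ Computable qw ∧ Computable h1 ∧ Computable h2 ∧ Computable h3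

/-- [Q3] Bad strings have small complexity. -/
def S_Q3 : Prop := ∀ (U : List Bool →. List Bool), Universal U → ∃ c : ℕ, ∀ (r l : ℕ)
  (x : List Bool), 64 ≤ r → l < 2 ^ r → x.length < 2 ^ r → 32 * x.length * l ^ 2 ≤ 2 ^ r →
  ¬ NBad U r l x → K U x ≤ l + dd r + 3 * r + 5 + 2 * (5 * r + 2) + c

/-- [Q4] Queries about beginnings of the witness have small complexity. -/
def S_Q4 : Prop := ∀ (U : List Bool →. List Bool), Universal U →
  ∀ chk : List Bool × List Bool → Bool, FP .any chk →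
  ∃ c : ℕ, ∀ x, (∃ w, chk (x, w) = true) → ∃ w, chk (x, w) = true ∧
    ∀ (r l i : ℕ) (a : List Bool), l < 2 ^ r → i < 2 ^ r → a.length = nz r →
      K U (qryU (big r) r l x a (w.take i)) ≤ K U x + 2 * (5 * r + 2) + nz r + c

/-- [Q5] Length of the queries. -/
def S_Q5 : Prop := ∀ (M r l : ℕ) (x : List Bool), l < 2 ^ r →
  (∀ w : List Bool, w.length = nz r + mm r → (qry M r l x w).length = nz r + mm r + l) ∧
  (∀ a u : List Bool, a.length = nz r → (qryU M r l x a u).length = nz r + mm r + l)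

/-- [P1] The main lemma: a good level. -/
def S_P1 : Prop := ∀ (U : List Bool →. List Bool), Universal U →
  ∀ chk : List Bool × List Bool → Bool, FP .any chk →
  ∃ c0 c1 : ℕ, ∀ (x : List Bool) (r q : ℕ), 64 ≤ r → c0 ≤ r →
    2 * x.length + c1 < 2 ^ r → 32 * x.length * (2 * x.length + c1) ^ 2 ≤ 2 ^ r →
    q < 2 ^ r →
    (∃ w, chk (x, w) = true) →
    ∃ w l, chk (x, w) = true ∧ l ≤ 2 * x.length + c1 ∧ NBad U r l x ∧
      ∀ i ≤ q, ∀ a : List Bool, a.length = nz r →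
        qryU (big r) r l x a (w.take i) ∉ Rand U

/-- The list of the queries answered `true` is correct. -/
def Correct (U : List Bool →. List Bool) (r L : ℕ) (x : List Bool) (T : List (List Bool)) :
    Prop :=
  ∀ l ≤ L, ∀ w : List Bool, w.length = nz r + mm r →
    (qry (big r) r l x w ∈ T ↔ qry (big r) r l x w ∈ Rand U)

/-- [P2] Few survivors. -/
def S_P2 : Prop := ∀ (U : List Bool →. List Bool) (r L l i : ℕ) (x : List Bool)
  (T : List (List Bool)), 64 ≤ r → l ≤ L → Correct U r L x T → NBad U r l x →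
  256 * i * mm r ≤ 2 ^ r → ∀ Y : Finset (List Bool),
  (∀ u ∈ Y, u.length = i ∧ srv (big r) r l x T u = true) → Y.card ≤ big r

/-- [P3] Strings whose queries are all answered `false` survive. -/
def S_P3 : Prop := ∀ (U : List Bool →. List Bool) (r L l : ℕ) (x u : List Bool)
  (T : List (List Bool)), 64 ≤ r → l ≤ L → Correct U r L x T →
  (∀ a : List Bool, a.length = nz r → qryU (big r) r l x a u ∉ Rand U) →
  srv (big r) r l x T u = true

/-- Abstract breadth first search. -/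
def bfsA (M : ℕ) (s : List Bool → Bool) (i : ℕ) : List (List Bool) :=
  (fun S : List (List Bool) =>
    ((S.flatMap (fun u => [u ++ [false], u ++ [true]])).filter s).take M)^[i] [[]]

/-- [P4] Breadth first search. -/
def S_P4 : Prop := ∀ (M : ℕ) (s : List Bool → Bool),
  (∀ i, ∀ u ∈ bfsA M s i, u.length = i) ∧
  ∀ w : List Bool, (∀ i ≤ w.length, s (w.take i) = true) →
    (∀ i ≤ w.length, ∀ Y : Finset (List Bool), (∀ u ∈ Y, u.length = i ∧ s u = true) →
      Y.card ≤ M) → w ∈ bfsA M s w.length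

/-- [P5] The list of the positively answered queries. -/
def S_P5 : Prop := ∀ (Q : List (List Bool)) (A : List Bool → Bool) (v : List Bool),
  v ∈ posQ Q (Q.map A) ↔ v ∈ Q ∧ A v = true

/-- [P6] All queries are in the list. -/
def S_P6 : Prop := ∀ (r L l : ℕ) (x w : List Bool), 64 ≤ r → l ≤ L →
  w.length = nz r + mm r → qry (big r) r l x w ∈ qs (big r) r L x

open Classical in
/-- [P7] Correctness of the decision. -/
def S_P7 : Prop := ∀ (U : List Bool →. List Bool), Universal U →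
  ∀ V : List Bool × List Bool → Bool, FP .poly V → ∀ p : Polynomial ℕ,
  ∃ c0 c1 : ℕ, ∀ (x : List Bool) (r : ℕ), 64 ≤ r → c0 ≤ r →
    2 * x.length + c1 < 2 ^ r → 32 * x.length * (2 * x.length + c1) ^ 2 ≤ 2 ^ r →
    256 * p.eval x.length * mm r ≤ 2 ^ r →
    (acc V (big r) r (2 * x.length + c1) (p.eval x.length) x
      (posQ (qs (big r) r (2 * x.length + c1) x)
        ((qs (big r) r (2 * x.length + c1) x).map fun q => decide (q ∈ Rand U))) = true ↔
      ∃ w : List Bool, w.length ≤ p.eval x.length ∧ V (x, w) = true)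

/-- [P8] Choice of the constant. -/
def S_P8 : Prop := ∀ (p : Polynomial ℕ) (c0 c1 : ℕ), ∃ C : ℕ, ∀ n : ℕ,
  64 ≤ C * (Nat.size n + 1) ∧ c0 ≤ C * (Nat.size n + 1) ∧
  2 * n + c1 < 2 ^ (C * (Nat.size n + 1)) ∧
  32 * n * (2 * n + c1) ^ 2 ≤ 2 ^ (C * (Nat.size n + 1)) ∧
  256 * p.eval n * mm (C * (Nat.size n + 1)) ≤ 2 ^ (C * (Nat.size n + 1))

/-! ### F: polynomial time -/

/-- [F1] Truncated powers and numbers, inner product, Horner scheme, halving. -/
def S_F1 : Prop := ∀ md : Mode,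
  FP md (fun q : ℕ × ℕ => pw q.1 q.2) ∧
  FP md (fun q : ℕ × List Bool => numC q.1 q.2) ∧
  FP md (fun q : List Bool × ℕ => ip q.1 q.2) ∧
  FP md (fun q : ℕ × ℕ × List Bool => horner q.1 q.2.1 q.2.2) ∧
  FP md (fun q : ℕ × ℕ => hlf q.1 q.2) ∧
  FP md (fun q : ℕ => isPr q)

/-- [F2] The prime number. -/
def S_F2 : Prop := ∀ md : Mode, FP md (fun q : ℕ × ℕ => prm q.1 q.2)

/-- [F3] `List.take` and sums. -/
def S_F3 : Prop := ∀ md : Mode,
  (∀ (α : Type) [Enc α], FP md (fun q : ℕ × List α => q.2.take q.1)) ∧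
  FP md (fun q : List ℕ => q.sum)

/-- [F4] Enumerations. -/
def S_F4 : Prop := ∀ md : Mode,
  FP md (fun q : ℕ × ℕ => allB q.1 q.2) ∧
  FP md (fun q : ℕ × ℕ × ℕ => allF q.1 q.2.1 q.2.2)

/-- [F5] The design. -/
def S_F5 : Prop := ∀ md : Mode, FP md (fun q : ℕ × ℕ × ℕ × ℕ => dsg q.1 q.2.1 q.2.2.1 q.2.2.2)

/-- [F6] Code and fingerprints. -/
def S_F6 : Prop := ∀ md : Mode,
  FP md (fun q : (ℕ × ℕ × ℕ) × List Bool × List Bool =>
    cbit q.1.1 q.1.2.1 q.1.2.2 q.2.1 q.2.2) ∧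
  FP md (fun q : (ℕ × ℕ × ℕ) × List Bool × List Bool =>
    hsh q.1.1 q.1.2.1 q.1.2.2 q.2.1 q.2.2)

/-- [F7] Extractor and queries; arguments `((M, r, l), x, z)`. -/
def S_F7 : Prop := ∀ md : Mode,
  FP md (fun q : (ℕ × ℕ × ℕ) × List Bool × List Bool =>
    ext q.1.1 q.1.2.1 q.1.2.2 q.2.1 q.2.2) ∧
  FP md (fun q : (ℕ × ℕ × ℕ) × List Bool × List Bool =>
    qry q.1.1 q.1.2.1 q.1.2.2 q.2.1 q.2.2) ∧
  FP md (fun q : (ℕ × ℕ × ℕ) × List Bool × List Bool × List Bool =>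
    qryU q.1.1 q.1.2.1 q.1.2.2 q.2.1 q.2.2.1 q.2.2.2)

/-- [F8] Survival; arguments `((M, r, l), x, T, u)`, and breadth first search, arguments
`((M, r, l), x, T, i)`. -/
def S_F8 : Prop := ∀ md : Mode,
  FP md (fun q : (ℕ × ℕ × ℕ) × List Bool × List (List Bool) × List Bool =>
    srv q.1.1 q.1.2.1 q.1.2.2 q.2.1 q.2.2.1 q.2.2.2) ∧
  FP md (fun q : (ℕ × ℕ × ℕ) × List Bool × List (List Bool) × ℕ =>
    bfs q.1.1 q.1.2.1 q.1.2.2 q.2.1 q.2.2.1 q.2.2.2)

/-- [F9] Lists of queries (arguments `((M, r, L), x)`), and positive answers. -/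
def S_F9 : Prop := ∀ md : Mode,
  FP md (fun q : (ℕ × ℕ × ℕ) × List Bool => qs q.1.1 q.1.2.1 q.1.2.2 q.2) ∧
  FP md (fun q : List (List Bool) × List Bool => posQ q.1 q.2)

/-- [F10] The decision; arguments `((M, r, L), q, x, T)`. -/
def S_F10 : Prop := ∀ V : List Bool × List Bool → Bool, FP .poly V →
  FP .poly (fun q : (ℕ × ℕ × ℕ) × ℕ × List Bool × List (List Bool) =>
    acc V q.1.1 q.1.2.1 q.1.2.2 q.2.1 q.2.2.1 q.2.2.2)

/-- [F11] Number of binary digits. -/
def S_F11 : Prop := ∀ md : Mode, FP md (fun n : ℕ => Nat.size n)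

/-- [F12] The functions with headers (without time bounds). -/
def S_F12 : Prop := FP .any qj ∧ FP .any qw ∧ FP .any h1 ∧ FP .any h2 ∧ FP .any h3

/-! ### X: machines -/

/-- Computation by a stack program in time `T`. -/
def CpT {D : Type} (e e' : D → List Bool) (T : D → ℕ) : Prop :=
  ∃ code : ℕ → Cmd, ∀ (base : ℕ) (s : Store) (d : D),
    (∀ j, base < j → s j = []) → s base = e d →
      Does (code base) s (Function.update s base (e' d)) (T d)

/-- [X1] From stack programs to Turing machines. -/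
def S_X1 : Prop := ∀ (β : Type) (eb : β → List Bool) (f : List Bool → β) (t : ℕ → ℕ),
  CpT (fun x : List Bool => x) (fun x => eb (f x)) (fun x => t x.length) →
  ∃ h : TM2ComputableInTime (fun x : List Bool => x) eb f, ∀ n, h.time n = t n + 1

/-- [X2] Exponentiation. -/
def S_X2 : Prop := ∃ k : ℕ, CpT (fun e : ℕ => List.replicate e true)
  (fun e => List.replicate (2 ^ e) true) (fun e => (2 ^ e + 2) ^ k)

/-- [X3] Polynomial time computation with a pad of exponential length. -/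
def S_X3 : Prop := ∀ (β : Type) [Enc β] (E : ℕ → ℕ) (G : List Bool × ℕ → β),
  FP .poly (fun x : List Bool => E x.length) → FP .poly G →
  ∃ k : ℕ, CpT (fun x : List Bool => x) (fun x => enc (G (x, 2 ^ E x.length)))
    (fun x => (2 ^ E x.length + x.length + 2) ^ k)

/-- [X4] Time estimate. -/
def S_X4 : Prop := ∀ k C : ℕ, ∃ c : ℕ, ∀ n : ℕ,
  (2 ^ (C * (Nat.size n + 1)) ^ 5 + n + 2) ^ k + 1 ≤ qp (n ^ c + c)

/-- [X5] `qp` is a time bound. -/
def S_X5 : Prop := TimeBound qp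

/-- [X6] `qp` is subexponential. -/
def S_X6 : Prop := Subexponential qp

/-- [X7] The encodings of the pool and of `HerCo` coincide. -/
def S_X7 : Prop :=
  ∀ q : List Bool × List (List Bool), (N487b59b3.bitEncode q) = (enc q : List Bool)

/-- [A1] The evaluator is computable in polynomial time. -/
def S_A1 : Prop := ∀ V : List Bool × List Bool → Bool, FP .poly V →
  ∀ (p : Polynomial ℕ) (C c1 : ℕ),
  N68a2faeb.IsPolyTime (fun s : List Bool × List Bool =>
    acc V (sndS s.1).length (C * (Nat.size (fstS s.1).length + 1))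
      (2 * (fstS s.1).length + c1) (p.eval (fstS s.1).length) (fstS s.1)
      (posQ (qs (sndS s.1).length (C * (Nat.size (fstS s.1).length + 1))
        (2 * (fstS s.1).length + c1) (fstS s.1)) s.2))

/-- [A2] The generator is computable in time `qp (n ^ c + c)`. -/
def S_A2 : Prop := ∀ C c1 : ℕ, ∃ c : ℕ, ComputableInTime (fun n => qp (n ^ c + c))
  (fun x : List Bool =>
    (dl x ++ List.replicate (big (C * (Nat.size x.length + 1))) true,
      qs (big (C * (Nat.size x.length + 1))) (C * (Nat.size x.length + 1))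
        (2 * x.length + c1) x))

/-- [A3] The theorem. -/
def S_A3 : Prop := N68a2faeb.NP ⊆ DTIMEttRK qp

end RKNP
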