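import Mathlib
import Pool.Agent.Lib.MP_69204b_lc.Stm

/-! [B4] Search for a witness. -/

namespace RKNP

private def witF (chk : List Bool × List Bool → Bool) (x : List Bool) (n : ℕ) :
    Option (List Bool) :=
  (Encodable.decode n : Option (List Bool)).bind fun w => bif chk (x, w) then some w else none

private theorem witF_computable (chk : List Bool × List Bool → Bool) (h : Computable chk) :
    Computable₂ (witF chk) := by
  refine Computable.option_bind
    (f := fun p : List Bool × ℕ => (Encodable.decode p.2 : Option (List Bool)))
    (g := fun p w => bif chk (p.1, w) then some w else none)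
    (Computable.decode.comp Computable.snd) ?_
  refine Computable.cond (h.comp ?_) (Computable.option_some.comp Computable.snd)
    (Computable.const none)
  exact (Computable.fst.comp Computable.fst).pair Computable.snd

theorem wit_pf : S_wit := by
  intro chk h
  refine ⟨fun x => Nat.rfindOpt (witF chk x), Partrec.rfindOpt (witF_computable chk h), ?_⟩
  rintro x ⟨w, hw⟩
  have hdom : (Nat.rfindOpt (witF chk x)).Dom := by
    rw [Nat.rfindOpt_dom]
    refine ⟨Encodable.encode w, w, ?_⟩
    simp [witF, hw]
  obtain ⟨v, hv⟩ := Part.dom_iff_mem.1 hdom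
  refine ⟨v, hv, ?_⟩
  obtain ⟨n, hn⟩ := Nat.rfindOpt_spec hv
  unfold witF at hn
  simp only [Option.mem_def, Option.bind_eq_some_iff] at hn
  obtain ⟨u, -, hu⟩ := hn
  cases hc : chk (x, u)
  · simp [hc] at hu
  · simp only [hc, cond_true, Option.some.injEq] at hu
    rw [← hu]; exact hc

end RKNP
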