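import Pool.Agent.Lib.MP_69204b_lc.Stm

/-! Exponentiation. -/

namespace RKNP

open HerCo Function

theorem X2_pf : S_X2 := by
  have hd : Cp .poly (fun n : ℕ => List.replicate n true)
      (fun n => List.replicate (2 * n) true) := by
    have : FP .poly (fun n : ℕ => 2 * n) := by fun_prop
    exact this
  obtain ⟨code, T0, ⟨k0, hk0⟩, hc⟩ := hd
  simp only [List.length_replicate] at hk0
  let v : ℕ → ℕ → List Bool := fun _ i => List.replicate (2 ^ i) true
  let c : ℕ → List Bool := fun e => List.replicate e true
  let T : {p : ℕ × ℕ // p.2 < (c p.1).length} → ℕ := fun p => (2 ^ p.1.2 + 2) ^ k0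
  have hstep : ∀ (base : ℕ) (s : Store) (p : {p : ℕ × ℕ // p.2 < (c p.1).length}),
      (∀ j, base < j → s j = []) → s base = v p.1.1 p.1.2 →
      Does (code base) s (update s base (v p.1.1 (p.1.2 + 1))) (T p) := by
    intro base s p hs hb
    have h1 := hc base s (2 ^ p.1.2) hs hb
    have e1 : v p.1.1 (p.1.2 + 1) = List.replicate (2 * 2 ^ p.1.2) true := by
      simp only [v]
      rw [pow_succ']
    rw [e1]
    exact h1.mono (hk0 _)
  -- resource bound
  let e' : ℕ → List Bool := fun e => List.replicate (2 ^ e) true
  have hlen : ∀ e, (e' e).length = 2 ^ e := fun e => by simp [e']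
  have hM : BD .poly e' (fun e => 2 ^ e) := BD.len.mono fun e => by rw [hlen]
  have he : BD .poly e' (fun e => e) := hM.mono fun e => Nat.lt_two_pow_self.le
  have hT : BD .poly e' (fun e => 5 * e + (e * ((2 ^ e + 2) ^ k0 + 3)) + 10 * 2 ^ e + 20) :=
    ((((BD.const 5).mul he).add (he.mul ((hM.natPow k0).add (BD.const 3)))).add
      ((BD.const 10).mul hM)).add (BD.const 20)
  obtain ⟨k, hk⟩ := hT
  refine ⟨k, fun base => .seq (moveRev (base + 0) (base + 1)) (.seq (.push (base + 2) true)
    (.seq (.loop (base + 1) (.seq (.pop (base + 1)) (code (base + 2))))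
      (.seq (moveRev (base + 2) (base + 1)) (moveRev (base + 1) (base + 0))))), ?_⟩
  intro base s e hs hb
  have h0 : s = fr s base [List.replicate e true, [], []] := by
    rw [fr_nil2, fr_nil1]
    have hb' : s base = List.replicate e true := hb
    rw [← hb', fr_self s base hs]
  have h1 := does_moveRev (s := s) (base := base) (i := 0) (j := 1)
    [List.replicate e true, [], []] (by simp) (by simp) (by simp)
  have h2 := does_push (s := s) (base := base) (i := 2) [[], List.replicate e true, []] true
    (by simp)
  have h3 := does_iterLoop hstep s base e (c e) 0 (by simp)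
  have h4 := does_moveRev (s := s) (base := base) (i := 2) (j := 1)
    [[], [], v e (c e).length] (by simp) (by simp) (by simp)
  have h5 := does_moveRev (s := s) (base := base) (i := 1) (j := 0)
    [[], (v e (c e).length).reverse, []] (by simp) (by simp) (by simp)
  simp only [List.getD_cons_zero, List.set, List.getD_cons_succ, List.append_nil,
    List.reverse_replicate, List.length_reverse, List.reverse_reverse] at h1 h2 h4 h5
  have e3 : v e (c e).length = List.replicate (2 ^ e) true := by simp [v, c]
  rw [e3] at h3 h4 h5
  have e4 : v e 0 = [true] := by simp [v]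
  rw [e4] at h3
  have h6 := (h1.seq (h2.seq (h3.seq (h4.seq h5))))
  rw [← h0] at h6
  refine (h6.congr ?_).mono ?_
  · rw [fr_nil2, fr_nil1]
    exact fr_single s base hs _
  · have hsum : (∑ j ∈ Finset.range (c e).length, (extL T e (0 + j) + 3)) ≤
        e * ((2 ^ e + 2) ^ k0 + 3) := by
      have h7 : ∀ j ∈ Finset.range (c e).length, extL T e (0 + j) + 3 ≤
          (2 ^ e + 2) ^ k0 + 3 := by
        intro j hj
        have hj' : j < (c e).length := Finset.mem_range.1 hj
        have hj2 : 0 + j < (c e).length := by omega
        unfold extL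
        rw [dif_pos hj2]
        refine Nat.add_le_add_right (Nat.pow_le_pow_left (Nat.add_le_add_right ?_ 2) _) 3
        refine Nat.pow_le_pow_right (by omega) ?_
        simp only [c, List.length_replicate] at hj'
        simp only
        omega
      refine (Finset.sum_le_sum h7).trans ?_
      simp [c]
    have h8 := hk e
    rw [hlen] at h8
    simp only at h8
    simp only [List.length_replicate]
    omega

end RKNP
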