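import Pool.Agent.Lib.MP_69204b_lc.Stm

/-! Polynomial time computation with a pad of exponential length. -/

namespace RKNP

open HerCo Function

theorem CpT.of_fr' {D : Type} {e e' : D → List Bool} {T : D → ℕ} (code : ℕ → Cmd)
    (h : ∀ (base : ℕ) (s : Store) (d : D),
      Does (code base) (fr s base [e d]) (fr s base [e' d]) (T d)) : CpT e e' T := by
  refine ⟨code, fun base s d hs hd => ?_⟩
  have := h base s d
  rwa [← hd, fr_self s base hs, fr_single s base hs] at this

theorem CpT.mono' {D : Type} {e e' : D → List Bool} {T T' : D → ℕ} (h : CpT e e' T)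
    (hT : ∀ d, T d ≤ T' d) : CpT e e' T' := by
  obtain ⟨code, hc⟩ := h
  exact ⟨code, fun base s d hs hd => (hc base s d hs hd).mono (hT d)⟩

theorem CpT.of_cp' {D : Type} {e e' : D → List Bool} (h : Cp .poly e e') :
    ∃ k, CpT e e' (fun d => ((e d).length + 2) ^ k) := by
  obtain ⟨code, T, ⟨k, hk⟩, hc⟩ := h
  exact ⟨k, code, fun base s d hs hd => (hc base s d hs hd).mono (hk d)⟩

theorem CpT.reindex' {D D' : Type} {e e' : D → List Bool} {T : D → ℕ} (h : CpT e e' T)
    (φ : D' → D) : CpT (fun d => e (φ d)) (fun d => e' (φ d)) (fun d => T (φ d)) := by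
  obtain ⟨code, hc⟩ := h
  exact ⟨code, fun base s d hs hd => hc base s (φ d) hs hd⟩

theorem CpT.comp' {D : Type} {e e' e'' : D → List Bool} {T T' : D → ℕ} (hF : CpT e e' T)
    (hG : CpT e' e'' T') : CpT e e'' (fun d => T d + T' d + 1) := by
  obtain ⟨cF, hcF⟩ := hF
  obtain ⟨cG, hcG⟩ := hG
  refine CpT.of_fr' (fun base => .seq (cF base) (cG base)) fun base s x => ?_
  exact (cp_run hcF s base [] x).seq (cp_run hcG s base [] x)

theorem CpT.pair' {D : Type} {e e₁ e₂ : D → List Bool} {TF TG : D → ℕ} (hF : CpT e e₁ TF)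
    (hG : CpT e e₂ TG) : CpT e (fun x => dl (e₁ x) ++ e₂ x)
      (fun x => 22 * (e x).length + TF x + TG x + 12 * (e₁ x).length + 10 * (e₂ x).length
        + 19) := by
  obtain ⟨cF, hcF⟩ := hF
  obtain ⟨cG, hcG⟩ := hG
  refine CpT.of_fr' (fun base => .seq (dup base) (.seq (cG (base + 1)) (.seq (mv02 base)
    (.seq (cF (base + 2)) (mkPair base))))) fun base s x => ?_
  have h1 := does_dup s base (e x)
  have h2 := cp_run hcG s base [e x] x
  have h3 := does_mv02 s base (e x) (e₂ x)
  have h4 := cp_run hcF s base [[], e₂ x] x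
  have h5 := does_mkPair s base (e₁ x) (e₂ x)
  exact (h1.seq (h2.seq (h3.seq (h4.seq h5)))).mono (by omega)

theorem X3_pf (h2 : S_X2) : S_X3 := by
  intro β _ E G hE hG
  obtain ⟨k2, hX2⟩ := h2
  -- the unary exponent
  have hE1 : Cp .poly (fun x : List Bool => x) (fun x => List.replicate (E x.length) true) := by
    have h3 : Cp .poly (fun x : List Bool => x) (fun x => enc (E x.length)) :=
      Cp.comp hE Cp.rawToEnc
    exact h3
  obtain ⟨k1, hE2⟩ := CpT.of_cp' hE1
  have hM : CpT (fun x : List Bool => x) (fun x => List.replicate (2 ^ E x.length) true) _ :=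
    CpT.comp' hE2 (hX2.reindex' (fun x : List Bool => E x.length))
  obtain ⟨k0, hid⟩ := CpT.of_cp' (Cp.id (m := .poly) (e := fun x : List Bool => x))
  have hP := CpT.pair' hid hM
  -- the polynomial time part
  have hQ : Cp .poly (fun p : List Bool × ℕ => dl p.1 ++ List.replicate p.2 true)
      (fun p => enc (G p)) := by
    have h3 : Cp .poly (fun p : List Bool × ℕ => dl p.1 ++ List.replicate p.2 true)
        (fun p => p.1) := Cp.fstS.of_eq (fun _ => rfl) (fun p => by simp)
    have h4 : Cp .poly (fun p : List Bool × ℕ => dl p.1 ++ List.replicate p.2 true)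
        (fun p => enc p.1) :=
      Cp.comp (Cp.reindex Cp.rawToEnc (fun p : List Bool × ℕ => p.1)) h3
    have h5 : Cp .poly (fun p : List Bool × ℕ => dl p.1 ++ List.replicate p.2 true)
        (fun p => enc p.2) := Cp.sndS.of_eq (fun _ => rfl) (fun p => by simp [enc])
    have h6 : Cp .poly (fun p : List Bool × ℕ => dl p.1 ++ List.replicate p.2 true)
        (fun p => enc p) := (h4.pair h5).of_eq (fun _ => rfl) (fun p => rfl)
    exact Cp.comp hG h6
  obtain ⟨k5, hQ2⟩ := CpT.of_cp' hQ
  have hF := CpT.comp' hP (hQ2.reindex' (fun x : List Bool => (x, 2 ^ E x.length)))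
  -- the time
  let e' : List Bool → List Bool := fun x => List.replicate (2 ^ E x.length + x.length) true
  have hlen : ∀ x, (e' x).length = 2 ^ E x.length + x.length := fun x => by simp [e']
  have hx : BD .poly e' (fun x => x.length) := BD.len.mono fun x => by
    rw [hlen]; exact Nat.le_add_left _ _
  have h2E : BD .poly e' (fun x => 2 ^ E x.length) := BD.len.mono fun x => by
    rw [hlen]; exact Nat.le_add_right _ _
  have hT : BD .poly e' (fun x => (22 * x.length + (x.length + 2) ^ k0 +
      ((x.length + 2) ^ k1 + (2 ^ E x.length + 2) ^ k2 + 1) + 12 * x.length +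
      10 * 2 ^ E x.length + 19) + ((2 * x.length + 1 + 2 ^ E x.length) + 2) ^ k5 + 1) :=
    ((((((((BD.const 22).mul hx).add (hx.natPow k0)).add
      (((hx.natPow k1).add (h2E.natPow k2)).add (BD.const 1))).add ((BD.const 12).mul hx)).add
      ((BD.const 10).mul h2E)).add (BD.const 19)).add
      (((((BD.const 2).mul hx).add (BD.const 1)).add h2E).natPow k5)).add (BD.const 1)
  obtain ⟨k, hk⟩ := hT
  refine ⟨k, hF.mono' fun x => ?_⟩
  have h7 := hk x
  rw [hlen] at h7
  simp only [List.length_append, length_dl, List.length_replicate]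
  exact h7

end RKNP
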