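import Pool.Agent.Lib.MP_69204b_lc.Stm

namespace RKNP

private lemma x4_lhs (k B s n : ℕ) (hn : n < 2 ^ s) :
    (2 ^ B + n + 2) ^ k + 1 ≤ 2 ^ (k * (B + s + 2) + 1) := by
  have h1 : 2 ^ B + n + 2 ≤ 2 ^ (B + s + 2) := by
    have e1 : 2 ^ (B + s + 2) = 2 ^ B * 2 ^ s * 4 := by
      rw [pow_add, pow_add]; norm_num
    have e2 : 1 ≤ 2 ^ B := Nat.one_le_two_pow
    have e3 : 1 ≤ 2 ^ s := Nat.one_le_two_pow
    rw [e1]
    nlinarith
  calc (2 ^ B + n + 2) ^ k + 1 ≤ (2 ^ (B + s + 2)) ^ k + 1 :=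
        Nat.add_le_add_right (Nat.pow_le_pow_left h1 k) 1
    _ = 2 ^ (k * (B + s + 2)) + 1 := by rw [← pow_mul, mul_comm]
    _ ≤ 2 ^ (k * (B + s + 2)) + 2 ^ (k * (B + s + 2)) :=
        Nat.add_le_add_left Nat.one_le_two_pow _
    _ = 2 ^ (k * (B + s + 2) + 1) := by rw [pow_succ]; ring

theorem X4_pf : S_X4 := by
  intro k C
  set K0 : ℕ := k * ((C * 2) ^ 5 + 3) + 1 with hK0
  set a : ℕ := 2 ^ K0 + (k * C ^ 5 + 2 * k + 1) with ha
  refine ⟨3 * a, fun n => ?_⟩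
  refine (x4_lhs k _ (Nat.size n) n (Nat.lt_size_self n)).trans ?_
  unfold qp
  refine Nat.pow_le_pow_right (by norm_num) ?_
  have ha0 : 2 ^ K0 ≤ a := by rw [ha]; exact Nat.le_add_right _ _
  have ha2 : k * C ^ 5 + 2 * k + 1 ≤ a := by rw [ha]; exact Nat.le_add_left _ _
  have ha1 : 1 ≤ a := Nat.one_le_two_pow.trans ha0
  by_cases hn : n < 2
  · have hsz : Nat.size n ≤ 1 := Nat.size_le.2 (by simpa using hn)
    have h1 : K0 < Nat.size (n ^ (3 * a) + 3 * a) := by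
      rw [Nat.lt_size]
      exact ha0.trans ((Nat.le_mul_of_pos_left a (by norm_num)).trans (Nat.le_add_left _ _))
    have h2 : k * ((C * (Nat.size n + 1)) ^ 5 + Nat.size n + 2) + 1 ≤ K0 := by
      rw [hK0]
      have e1 : (C * (Nat.size n + 1)) ^ 5 ≤ (C * 2) ^ 5 :=
        Nat.pow_le_pow_left (Nat.mul_le_mul_left _ (by omega)) 5
      refine Nat.add_le_add_right (Nat.mul_le_mul_left _ ?_) 1
      omega
    refine h2.trans (h1.le.trans ?_)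
    exact Nat.le_self_pow (by norm_num) _
  · have hs2 : 2 ≤ Nat.size n := by
      have : 1 < Nat.size n := Nat.lt_size.2 (by omega)
      omega
    obtain ⟨s, hs⟩ : ∃ s, Nat.size n = s + 2 := ⟨Nat.size n - 2, by omega⟩
    have h1 : 2 ^ (s + 1) ≤ n := Nat.lt_size.1 (by omega)
    have h2 : a * (s + 3) ≤ Nat.size (n ^ (3 * a) + 3 * a) := by
      have e1 : 2 ^ ((s + 1) * (3 * a)) ≤ n ^ (3 * a) := by
        rw [pow_mul]
        exact Nat.pow_le_pow_left h1 _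
      have e2 : (s + 1) * (3 * a) < Nat.size (n ^ (3 * a) + 3 * a) :=
        Nat.lt_size.2 (e1.trans (Nat.le_add_right _ _))
      have e3 : a * (s + 3) ≤ (s + 1) * (3 * a) := by nlinarith
      omega
    refine le_trans ?_ (Nat.pow_le_pow_left h2 5)
    rw [hs, mul_pow, mul_pow]
    have e4 : 1 ≤ (s + 2 + 1) ^ 5 := Nat.one_le_pow _ _ (by omega)
    have e5 : s + 3 ≤ (s + 2 + 1) ^ 5 := Nat.le_self_pow (by norm_num) _
    have e6 : a ≤ a ^ 5 := Nat.le_self_pow (by norm_num) _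
    have e7 : k * C ^ 5 + 2 * k + 1 ≤ a := ha2
    have e8 : (k * C ^ 5 + 2 * k + 1) * (s + 2 + 1) ^ 5 ≤ a ^ 5 * (s + 3) ^ 5 :=
      Nat.mul_le_mul (e7.trans e6) le_rfl
    refine le_trans ?_ e8
    have e9 : k * (s + 2 + 2) ≤ k * (2 * (s + 2 + 1) ^ 5) := Nat.mul_le_mul_left _ (by omega)
    calc k * (C ^ 5 * (s + 2 + 1) ^ 5 + (s + 2) + 2) + 1
        = k * C ^ 5 * (s + 2 + 1) ^ 5 + k * (s + 2 + 2) + 1 := by ring
      _ ≤ k * C ^ 5 * (s + 2 + 1) ^ 5 + k * (2 * (s + 2 + 1) ^ 5) + (s + 2 + 1) ^ 5 := by omega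
      _ = (k * C ^ 5 + 2 * k + 1) * (s + 2 + 1) ^ 5 := by ring

end RKNP
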