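import Pool.Agent.Lib.MP_69204b_lc.Stm

namespace RKNP

open HerCo Turing

private lemma x5_pos (e : ℕ) : ∃ p : PosNum, Computability.encodePosNum p =
    List.replicate e false ++ [true] ∧ ((Num.pos p : Num) : ℕ) = 2 ^ e := by
  induction e with
  | zero => exact ⟨PosNum.one, rfl, by simp⟩
  | succ e ih =>
    obtain ⟨p, hp1, hp2⟩ := ih
    refine ⟨PosNum.bit0 p, ?_, ?_⟩
    · rw [List.replicate_succ, List.cons_append, ← hp1]
      rfl
    · rw [pow_succ, ← hp2]
      change ((PosNum.bit0 p : PosNum) : ℕ) = _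
      rw [PosNum.cast_bit0]
      change _ = ((p : PosNum) : ℕ) * 2
      ring

private lemma x5_enc (e : ℕ) : (N487b59b3.bitEncode (2 ^ e : ℕ) : List Bool) =
    List.replicate e false ++ [true] := by
  obtain ⟨p, hp1, hp2⟩ := x5_pos e
  change Computability.encodeNum ((2 ^ e : ℕ) : Num) = _
  rw [← hp2, Num.of_to_nat, ← hp1]
  rfl

private lemma x5_num (k n : ℕ) : (n + 2) ^ k + 1 ≤ (2 ^ (k * (k + 3)) + 1) * qp n +
    (2 ^ (k * (k + 3)) + 1) := by
  have hn : n < 2 ^ Nat.size n := Nat.lt_size_self n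
  have h1 : n + 2 ≤ 2 ^ (Nat.size n + 1) := by
    rw [pow_succ]
    rcases Nat.eq_zero_or_pos n with h | h
    · subst h; simp
    · omega
  have h2 : (n + 2) ^ k ≤ 2 ^ (k * (Nat.size n + 1)) := by
    rw [mul_comm, pow_mul]
    exact Nat.pow_le_pow_left h1 k
  by_cases hs : Nat.size n ≤ k + 2
  · have h3 : 2 ^ (k * (Nat.size n + 1)) ≤ 2 ^ (k * (k + 3)) :=
      Nat.pow_le_pow_right (by norm_num) (Nat.mul_le_mul_left _ (by omega))
    have h4 : 0 ≤ (2 ^ (k * (k + 3)) + 1) * qp n := Nat.zero_le _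
    omega
  · push Not at hs
    have h3 : k * (Nat.size n + 1) ≤ Nat.size n ^ 5 := by
      have e1 : k * (Nat.size n + 1) ≤ Nat.size n * (2 * Nat.size n) :=
        Nat.mul_le_mul (by omega) (by omega)
      have e2 : Nat.size n * (2 * Nat.size n) ≤ Nat.size n ^ 5 := by
        have : Nat.size n ^ 5 = Nat.size n * (Nat.size n * (Nat.size n * (Nat.size n *
          Nat.size n))) := by ring
        rw [this]
        refine Nat.mul_le_mul_left _ ?_
        rw [mul_comm 2]
        refine Nat.mul_le_mul_left _ ?_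
        have : 2 * 1 ≤ Nat.size n * (Nat.size n * Nat.size n) :=
          Nat.mul_le_mul (by omega) (Nat.mul_pos (by omega) (by omega))
        omega
      exact e1.trans e2
    have h4 : (n + 2) ^ k ≤ qp n := h2.trans (Nat.pow_le_pow_right (by norm_num) h3)
    have h5 : qp n ≤ (2 ^ (k * (k + 3)) + 1) * qp n := Nat.le_mul_of_pos_left _ (Nat.succ_pos _)
    have h6 : 1 ≤ 2 ^ (k * (k + 3)) + 1 := Nat.succ_pos _
    exact Nat.add_le_add (h4.trans h5) h6

private lemma x5_fp (h11 : S_F11) : FP .poly (fun x : List Bool =>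
    List.replicate (Nat.size x.length ^ 5) false ++ [true]) := by
  have h1 : FP .poly (fun x : List Bool => Nat.size x.length) :=
    (h11 .poly).comp (FP.length FP.id)
  exact FP.append (FP.replicate (FP.powC h1 5) (FP.const _)) (FP.const _)

theorem X5_pf (h11 : S_F11) (h1 : S_X1) : S_X5 := by
  refine ⟨?_, ?_, ?_⟩
  · intro a b hab
    exact Nat.pow_le_pow_right (by norm_num) (Nat.pow_le_pow_left (Nat.size_le_size hab) 5)
  · intro n
    refine (Nat.lt_size_self n).le.trans (Nat.pow_le_pow_right (by norm_num) ?_)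
    exact Nat.le_self_pow (by norm_num) _
  · obtain ⟨code, T, ⟨k, hk⟩, hc⟩ := Cp.of_FP (e := fun x : List Bool => x) (x5_fp h11)
    have hC : CpT (fun x : List Bool => x)
        (fun x => (N487b59b3.bitEncode (qp x.length) : List Bool))
        (fun x => (fun n => (n + 2) ^ k) x.length) := by
      refine ⟨code, fun base s d hs hd => ?_⟩
      have h2 := (hc base s d hs hd).mono (hk d)
      have e1 : (N487b59b3.bitEncode (qp d.length) : List Bool) =
          List.replicate (Nat.size d.length ^ 5) false ++ [true] := x5_enc _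
      beta_reduce
      rw [e1]
      exact h2
    obtain ⟨h, hh⟩ := h1 ℕ (N487b59b3.bitEncode : ℕ → List Bool) (fun x => qp x.length)
      (fun n => (n + 2) ^ k) hC
    refine ⟨2 ^ (k * (k + 3)) + 1, h, fun n => ?_⟩
    rw [hh n]
    exact x5_num k n

end RKNP
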