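import Pool.Agent.Lib.MP_69204b_lc.Stm

namespace RKNP

open Filter Topology

theorem X6_pf : S_X6 := by
  intro ε hε
  have h1 : (fun x : ℝ => Real.log x) =o[atTop] fun x : ℝ => x ^ (ε / 5) :=
    isLittleO_log_rpow_atTop (by positivity)
  have h2 : ∀ᶠ x : ℝ in atTop, ‖Real.log x‖ ≤ (1 / 3) * ‖x ^ (ε / 5)‖ :=
    h1.bound (by norm_num)
  have h3 := tendsto_natCast_atTop_atTop (R := ℝ) |>.eventually h2
  filter_upwards [h3, eventually_ge_atTop 3] with n hn hn3
  have hn0 : (0 : ℝ) < n := by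
    have : (3 : ℝ) ≤ n := by exact_mod_cast hn3
    linarith
  have hlog : 1 ≤ Real.log n := by
    rw [Real.le_log_iff_exp_le hn0]
    have : (3 : ℝ) ≤ n := by exact_mod_cast hn3
    have := Real.exp_one_lt_d9
    linarith
  have hs0 : 0 < Nat.size n := Nat.size_pos.2 (by omega)
  have hs : 2 ^ (Nat.size n - 1) ≤ n := Nat.lt_size.1 (by omega)
  have hs1 : ((Nat.size n - 1 : ℕ) : ℝ) * Real.log 2 ≤ Real.log n := by
    have e1 : ((2 : ℝ) ^ (Nat.size n - 1)) ≤ n := by exact_mod_cast hs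
    have e2 := Real.log_le_log (by positivity) e1
    rwa [Real.log_pow] at e2
  have hs2 : (Nat.size n : ℝ) ≤ 3 * Real.log n := by
    have e1 : ((Nat.size n - 1 : ℕ) : ℝ) = (Nat.size n : ℝ) - 1 := by
      rw [Nat.cast_sub (by omega), Nat.cast_one]
    rw [e1] at hs1
    have e2 := Real.log_two_gt_d9
    have e3 : (1 : ℝ) ≤ Nat.size n := by exact_mod_cast hs0
    nlinarith
  have hpos : 0 ≤ (n : ℝ) ^ (ε / 5) := Real.rpow_nonneg hn0.le _
  have hs3 : (Nat.size n : ℝ) ≤ (n : ℝ) ^ (ε / 5) := by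
    rw [Real.norm_of_nonneg (by linarith), Real.norm_of_nonneg hpos] at hn
    linarith
  have hs4 : (Nat.size n : ℝ) ^ 5 ≤ (n : ℝ) ^ ε := by
    calc (Nat.size n : ℝ) ^ 5 ≤ ((n : ℝ) ^ (ε / 5)) ^ 5 :=
        pow_le_pow_left₀ (by positivity) hs3 5
      _ = (n : ℝ) ^ ε := by
        rw [← Real.rpow_natCast, ← Real.rpow_mul hn0.le]
        congr 1
        push_cast
        ring
  have e4 : ((qp n : ℕ) : ℝ) = (2 : ℝ) ^ ((Nat.size n : ℝ) ^ 5) := by
    unfold qp
    push_cast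
    rw [← Real.rpow_natCast]
    push_cast
    rfl
  rw [e4]
  exact Real.rpow_le_rpow_of_exponent_le (by norm_num) hs4

end RKNP
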