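import Pool.Agent.Lib.MP_69204b_lc.Stm

/-! The encodings coincide. -/

namespace RKNP

open HerCo

theorem encode_listlist (x : List (List Bool)) :
    (N487b59b3.toEncoding (α := List (List Bool))).encode x = enc x := by
  show ((x.map N487b59b3.bitEncode).map N487b59b3.delimit).flatten = enc x
  induction x with
  | nil => rfl
  | cons b x ih =>
    simp only [List.map_cons, List.flatten_cons, ih]
    rw [delimit_eq]
    show dl ((N487b59b3.toEncoding (α := List Bool)).encode b) ++ _ = _
    rw [encode_list]
    rfl

theorem X7_pf : S_X7 := by
  intro q
  show N487b59b3.delimit (N487b59b3.bitEncode q.1) ++ N487b59b3.bitEncode q.2 = _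
  rw [delimit_eq]
  show dl ((N487b59b3.toEncoding (α := List Bool)).encode q.1) ++
    (N487b59b3.toEncoding (α := List (List Bool))).encode q.2 = _
  rw [encode_list, encode_listlist]
  rfl

end RKNP
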