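import Pool.Agent.Lib.MP_69204b_lc.Step
import Pool.Agent.Lib.MP_69204b_lc.Prog
import Pool.Agent.Lib.MP_69204b_lc.K1
import Pool.Agent.Lib.MP_69204b_lc.K2
import Pool.Agent.Lib.MP_69204b_lc.K3
import Pool.Agent.Lib.MP_69204b_lc.K4
import Pool.Agent.Lib.MP_69204b_lc.K5
import Pool.Agent.Lib.MP_69204b_lc.B1
import Pool.Agent.Lib.MP_69204b_lc.B2
import Pool.Agent.Lib.MP_69204b_lc.B3
import Pool.Agent.Lib.MP_69204b_lc.Wit
import Pool.Agent.Lib.MP_69204b_lc.Count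
import Pool.Agent.Lib.MP_69204b_lc.C1
import Pool.Agent.Lib.MP_69204b_lc.C2
import Pool.Agent.Lib.MP_69204b_lc.C3
import Pool.Agent.Lib.MP_69204b_lc.C4
import Pool.Agent.Lib.MP_69204b_lc.J1
import Pool.Agent.Lib.MP_69204b_lc.J2
import Pool.Agent.Lib.MP_69204b_lc.N1
import Pool.Agent.Lib.MP_69204b_lc.N2
import Pool.Agent.Lib.MP_69204b_lc.N3
import Pool.Agent.Lib.MP_69204b_lc.N4
import Pool.Agent.Lib.MP_69204b_lc.D1
import Pool.Agent.Lib.MP_69204b_lc.D2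
import Pool.Agent.Lib.MP_69204b_lc.D3
import Pool.Agent.Lib.MP_69204b_lc.E1
import Pool.Agent.Lib.MP_69204b_lc.E2
import Pool.Agent.Lib.MP_69204b_lc.E3
import Pool.Agent.Lib.MP_69204b_lc.E4
import Pool.Agent.Lib.MP_69204b_lc.L1
import Pool.Agent.Lib.MP_69204b_lc.L2
import Pool.Agent.Lib.MP_69204b_lc.L3
import Pool.Agent.Lib.MP_69204b_lc.L4
import Pool.Agent.Lib.MP_69204b_lc.P0
import Pool.Agent.Lib.MP_69204b_lc.Q1
import Pool.Agent.Lib.MP_69204b_lc.Q2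
import Pool.Agent.Lib.MP_69204b_lc.Q3
import Pool.Agent.Lib.MP_69204b_lc.Q4
import Pool.Agent.Lib.MP_69204b_lc.Q5
import Pool.Agent.Lib.MP_69204b_lc.P1
import Pool.Agent.Lib.MP_69204b_lc.P2
import Pool.Agent.Lib.MP_69204b_lc.P3
import Pool.Agent.Lib.MP_69204b_lc.P4
import Pool.Agent.Lib.MP_69204b_lc.P5
import Pool.Agent.Lib.MP_69204b_lc.P7
import Pool.Agent.Lib.MP_69204b_lc.P8
import Pool.Agent.Lib.MP_69204b_lc.F1a
import Pool.Agent.Lib.MP_69204b_lc.F1b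
import Pool.Agent.Lib.MP_69204b_lc.F2
import Pool.Agent.Lib.MP_69204b_lc.F3
import Pool.Agent.Lib.MP_69204b_lc.F4
import Pool.Agent.Lib.MP_69204b_lc.F5
import Pool.Agent.Lib.MP_69204b_lc.F6
import Pool.Agent.Lib.MP_69204b_lc.F7
import Pool.Agent.Lib.MP_69204b_lc.F8
import Pool.Agent.Lib.MP_69204b_lc.F9
import Pool.Agent.Lib.MP_69204b_lc.F10
import Pool.Agent.Lib.MP_69204b_lc.F11
import Pool.Agent.Lib.MP_69204b_lc.F12
import Pool.Agent.Lib.MP_69204b_lc.X1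
import Pool.Agent.Lib.MP_69204b_lc.X2
import Pool.Agent.Lib.MP_69204b_lc.X3
import Pool.Agent.Lib.MP_69204b_lc.X4
import Pool.Agent.Lib.MP_69204b_lc.X5
import Pool.Agent.Lib.MP_69204b_lc.X6
import Pool.Agent.Lib.MP_69204b_lc.X7
import Pool.Agent.Lib.MP_69204b_lc.A1
import Pool.Agent.Lib.MP_69204b_lc.A2
import Pool.Agent.Lib.MP_69204b_lc.A3

/-! Assembly. -/

namespace RKNP

theorem F1_pf : S_F1 := fun md =>
  ⟨(F1a_pf md).1, (F1a_pf md).2.1, (F1b_pf md).1, (F1b_pf md).2.1, (F1a_pf md).2.2,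
    (F1b_pf md).2.2⟩

theorem F2_pf' : S_F2 := F2_pf F1_pf
theorem F4_pf' : S_F4 := F4_pf F3_pf
theorem F5_pf' : S_F5 := F5_pf F1_pf F3_pf F4_pf'
theorem F6_pf' : S_F6 := F6_pf F1_pf F2_pf' F3_pf
theorem F7_pf' : S_F7 := F7_pf F1_pf F2_pf' F3_pf F5_pf' F6_pf'
theorem F8_pf' : S_F8 := F8_pf F3_pf F4_pf' F7_pf'
theorem F9_pf' : S_F9 := F9_pf F4_pf' F7_pf'
theorem F10_pf' : S_F10 := F10_pf F8_pf'
theorem F11_pf' : S_F11 := F11_pf F1_pf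
theorem F12_pf' : S_F12 := F12_pf F4_pf' F7_pf'

theorem K1_pf' : S_K1 := K1_pf prog_pf
theorem K2_pf' : S_K2 := K2_pf step_pf prog_pf
theorem K3_pf' : S_K3 := K3_pf prog_pf
theorem K4_pf' : S_K4 := K4_pf K2_pf'
theorem K5_pf' : S_K5 := K5_pf step_pf prog_pf

theorem B3_pf' : S_B3 := B3_pf B1_pf
theorem Q2_pf' : S_Q2 := Q2_pf B2_pf B3_pf' F12_pf'

theorem corr_pf' : S_corr := corr_pf prm_pf ip_pf horner_pf horner_lt_pf
theorem J2_pf' : S_J2 := J2_pf J1_pf corr_pf'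
theorem NW_pf' : S_NW := NW_pf hyb_pf merge_pf dep_pf
theorem dsg_pf' : S_dsg := dsg_pf davg_pf allF_pf
theorem pos_pf' : S_pos := pos_pf idx_pf dsg_pf'
theorem lext_pf' : S_lext := lext_pf idx_pf
theorem ext_pf' : S_ext := ext_pf NW_pf' J2_pf' pos_pf' lext_pf'
theorem L2_pf' : S_L2 := L2_pf corr_pf'
theorem L4_pf' : S_L4 := L4_pf L1_pf L2_pf' L3_pf

theorem Q1_pf' : S_Q1 := Q1_pf K1_pf' ext_pf' lext_pf' big_pf
theorem Q3_pf' : S_Q3 := Q3_pf K3_pf' K5_pf' Q1_pf' Q2_pf' count_pf big_pf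
theorem Q4_pf' : S_Q4 := Q4_pf K2_pf' wit_pf Q2_pf' B2_pf B3_pf'
theorem Q5_pf' : S_Q5 := Q5_pf lext_pf'

theorem P1_pf' : S_P1 := P1_pf K4_pf' Q1_pf' Q3_pf' Q4_pf' Q5_pf'
theorem P2_pf' : S_P2 := P2_pf L4_pf' big_pf
theorem P3_pf' : S_P3 := P3_pf big_pf
theorem P6_pf' : S_P6 := P6_pf big_pf
theorem P7_pf' : S_P7 := P7_pf P1_pf' P2_pf' P3_pf' P4_pf P5_pf P6_pf'

theorem X3_pf' : S_X3 := X3_pf X2_pf
theorem X5_pf' : S_X5 := X5_pf F11_pf' X1_pf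
theorem A1_pf' : S_A1 := A1_pf F9_pf' F10_pf' F11_pf'
theorem A2_pf' : S_A2 := A2_pf X1_pf X3_pf' X4_pf X7_pf F9_pf' F11_pf'

/-- `NP` is contained in `DTIME(2 ^ ((log n) ^ 5))_tt^{R_K}`. -/
theorem np_subset : N68a2faeb.NP ⊆ DTIMEttRK qp := A3_pf P7_pf' P8_pf A1_pf' A2_pf'

end RKNP
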