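import Pool.Agent.Lib.MP_69204b_lc.Stm

/-! [Q2] Computability of the functions `qj`, `qw`, `h1`, `h2`, `h3`. -/

namespace RKNP

open HerCo

theorem Q2_pf (h2 : S_B2) (h3 : S_B3) (hF : S_F12) : S_Q2 := by
  obtain ⟨_, bN, bL, bP⟩ := h2
  obtain ⟨f1, f2, f3, f4, f5⟩ := hF
  have c1 : CE (List Bool × List Bool × ℕ) := bP _ _ bL (bP _ _ bL bN)
  have c2 : CE (List Bool × List Bool × List Bool × List Bool) :=
    bP _ _ bL (bP _ _ bL (bP _ _ bL bL))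
  exact ⟨(h3 _ c1).1 _ f1, (h3 _ c2).1 _ f2, (h3 _ bL).2.1 _ f3, (h3 _ bL).2.1 _ f4,
    (h3 _ bL).2.1 _ f5⟩

end RKNP
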