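import Pool.Agent.Lib.MP_69204b_lc.Stm

/-! Step functions of a partial recursive function on strings. -/

namespace RKNP

open Nat.Partrec

/-- the step function given by a code -/
private def stepFn (c : Code) (a : ℕ × List Bool) : Option (List Bool) :=
  (Code.evaln a.1 c (Encodable.encode a.2)).bind fun m => Encodable.decode (α := List Bool) m

private theorem stepFn_comp (c : Code) : Computable (stepFn c) := by
  apply Primrec.to_comp
  unfold stepFn
  refine Primrec.option_bind ?_ ?_
  · exact Code.primrec_evaln.comp
      ((Primrec.pair (Primrec.pair Primrec.fst (Primrec.const c))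
        (Primrec.encode.comp Primrec.snd)))
  · exact (Primrec.decode.comp Primrec.snd)

theorem step_pf : S_step := by
  intro U hU
  obtain ⟨c, hc⟩ := Code.exists_code.1 hU
  have hev : ∀ p : List Bool, Code.eval c (Encodable.encode p) = (U p).map Encodable.encode := by
    intro p
    rw [hc]
    simp [Encodable.encodek]
  refine ⟨stepFn c, stepFn_comp c, fun p x => ⟨fun h => ?_, ?_⟩, ?_⟩
  · have h1 : Encodable.encode x ∈ Code.eval c (Encodable.encode p) := by
      rw [hev]
      exact Part.mem_map _ h
    obtain ⟨k, hk⟩ := Code.evaln_complete.1 h1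
    refine ⟨k, ?_⟩
    have hk' : Code.evaln k c (Encodable.encode p) = some (Encodable.encode x) := hk
    unfold stepFn
    rw [hk']
    simp [Encodable.encodek]
  · rintro ⟨t, ht⟩
    unfold stepFn at ht
    obtain ⟨m, hm1, hm2⟩ := Option.bind_eq_some_iff.1 ht
    have h1 : m ∈ Code.eval c (Encodable.encode p) := Code.evaln_sound hm1
    rw [hev] at h1
    obtain ⟨x', hx', rfl⟩ := (Part.mem_map_iff _).1 h1
    rw [Encodable.encodek] at hm2
    rw [Option.some.injEq] at hm2
    rw [← hm2]
    exact hx'
  · intro t t' p x htt ht
    unfold stepFn at ht ⊢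
    obtain ⟨m, hm1, hm2⟩ := Option.bind_eq_some_iff.1 ht
    exact Option.bind_eq_some_iff.2 ⟨m, Code.evaln_mono htt hm1, hm2⟩

end RKNP
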