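import Pool.Agent.Lib.MP_69204b_lc.Stm

/-! From stack programs with explicit time bounds to Turing machines. -/

namespace RKNP

open HerCo Function Turing StateTransition

theorem X1_pf : S_X1 := by
  intro β eb f t h
  obtain ⟨code, hc⟩ := h
  obtain ⟨κ, hκ, hwf⟩ := exists_wf_compile (code 0)
  have hrun : ∀ x : List Bool, ∃ t' ≤ t x.length, (stepM (compile (code 0)))^[t'] (0, ini x) =
      ((compile (code 0)).length, ini (eb (f x))) := by
    intro x
    obtain ⟨t', ht, hr⟩ := hc 0 (ini x) x (fun j hj => by
      unfold ini; rw [update_of_ne hj.ne']) (by simp [ini])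
    refine ⟨t', ht, ?_⟩
    rw [runs_compile hr]
    congr 1
    simp [ini]
  refine ⟨{
    tm := toTM (compile (code 0)) κ hκ
    inputAlphabet := Equiv.refl Bool
    outputAlphabet := Equiv.refl Bool
    time := fun n => t n + 1
    outputsFun := fun a => ?_ }, fun n => rfl⟩
  have h1 : ∃ t' ≤ t a.length + 1,
      (flip bind (toTM (compile (code 0)) κ hκ).step)^[t']
        (some (initList (toTM (compile (code 0)) κ hκ) a))
        = some (haltList (toTM (compile (code 0)) κ hκ) (eb (f a))) := by
    obtain ⟨t1, ht, h2⟩ := hrun a
    obtain ⟨t', ht', h3⟩ := run_toCfg hκ hwf t1 (0, ini a) _ (Nat.zero_le _) h2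
    refine ⟨t', by omega, ?_⟩
    rw [initList_toTM, haltList_toTM]
    exact h3
  have e1 : List.map (Equiv.refl Bool).invFun a = a := by simp
  have e2 : List.map (Equiv.refl Bool).invFun (eb (f a)) = eb (f a) := by simp
  exact {
    steps := h1.choose
    evals_in_steps := by
      have h2 := h1.choose_spec.2
      refine Eq.trans ?_ (h2.trans ?_)
      · exact congrArg (fun z => (flip bind (toTM (compile (code 0)) κ hκ).step)^[h1.choose]
          (some (initList (toTM (compile (code 0)) κ hκ) z))) e1
      · exact congrArg (fun z => some (haltList (toTM (compile (code 0)) κ hκ) z)) e2.symm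
    steps_le_m := h1.choose_spec.1 }

end RKNP
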